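import Pool.Agent.H611R2.RawNP

/-!
# The block clique language

For functions `v k : ℕ → ℕ`, a bit string `x` of length `N` is cut into `N / (v N)²` blocks of
`(v N)²` bits; the `j`-th block is read as (the entries above the diagonal of) the adjacency matrix
of a graph on the vertices `0, …, v N - 1`, entry `(a, b)` being bit number `a * v N + b` of the
block.  The string belongs to the language if one of these graphs has a clique with `k N` vertices.
-/

namespace Pool.Agent.H611R2

open Pool.Agent.NPC

/-- The entry `(a, b)` of the `j`-th adjacency matrix (with `v` vertices) read in the string `x`. -/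
def entry (v : ℕ) (x : List Bool) (j a b : ℕ) : Bool := x.getD (j * (v * v) + a * v + b) false

/-- The language of the strings one of whose blocks is a graph with a large clique. -/
def BlockClique (v k : ℕ → ℕ) : Set (List Bool) :=
  {x | ∃ j < x.length / (v x.length * v x.length), ∃ S : Finset ℕ, S.card = k x.length ∧
    (∀ a ∈ S, a < v x.length) ∧
    ∀ a ∈ S, ∀ b ∈ S, a < b → entry (v x.length) x j a b = true}

/-- The verifier. -/
def vfy (v k : ℕ → ℕ) (p : List Bool × List Bool) : Bool :=
  decide (((List.range (v p.1.length)).filter (fun a => p.2.getD a false)).length = k p.1.length) &&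
  (List.range (p.1.length / (v p.1.length * v p.1.length))).any (fun j =>
    (List.range (v p.1.length)).all (fun a => (List.range (v p.1.length)).all (fun b =>
      !(decide (a < b) && (p.2.getD a false && p.2.getD b false)) ||
        p.1.getD (j * (v p.1.length * v p.1.length) + a * v p.1.length + b) false)))

theorem vfy_poly {v k : ℕ → ℕ} (hv : UPoly (fun x : List Bool => v x.length))
    (hk : NPC.Poly (fun x : List Bool => k x.length)) : NPC.Poly (vfy v k) := by
  have X : NPC.Poly (fun p : List Bool × List Bool => p.1) := Poly.fst Poly.id
  have W : NPC.Poly (fun p : List Bool × List Bool => p.2) := Poly.snd Poly.id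
  have V : UPoly (fun p : List Bool × List Bool => v p.1.length) := UPoly.comp (n := fun x : List Bool => v x.length) hv X
  have V' : NPC.Poly (fun p : List Bool × List Bool => v p.1.length) := V.toPoly
  have K : NPC.Poly (fun p : List Bool × List Bool => k p.1.length) := hk.comp X
  have hm : NPC.Poly (fun p : List Bool × List Bool =>
      p.1.length / (v p.1.length * v p.1.length)) :=
    Poly.div (Poly.length X) (Poly.mul V' V')
  have M : UPoly (fun p : List Bool × List Bool =>
      p.1.length / (v p.1.length * v p.1.length)) :=
    UPoly.of_le hm (UPoly.length X) (fun p => Nat.div_le_self _ _)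
  have hF : NPC.Poly (fun q : (List Bool × List Bool) × ℕ => q.1.2.getD q.2 false) :=
    Poly.getD (d := fun _ => false) (W.comp (Poly.fst Poly.id)) (Poly.snd Poly.id)
      (NPC.Poly.const false)
  have h1 : NPC.Poly (fun p : List Bool × List Bool =>
      decide (((List.range (v p.1.length)).filter (fun a => p.2.getD a false)).length =
        k p.1.length)) :=
    Poly.decide_eq (Poly.length (Poly.filter (p := fun p a => p.2.getD a false) V.range hF)) K
  -- contexts: q = ((p, j), a), b
  have A1 : NPC.Poly (fun r : (((List Bool × List Bool) × ℕ) × ℕ) × ℕ => r.1.1.1) :=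
    Poly.fst (Poly.fst (Poly.fst Poly.id))
  have A2 : NPC.Poly (fun r : (((List Bool × List Bool) × ℕ) × ℕ) × ℕ => r.1.1.2) :=
    Poly.snd (Poly.fst (Poly.fst Poly.id))
  have A3 : NPC.Poly (fun r : (((List Bool × List Bool) × ℕ) × ℕ) × ℕ => r.1.2) :=
    Poly.snd (Poly.fst Poly.id)
  have A4 : NPC.Poly (fun r : (((List Bool × List Bool) × ℕ) × ℕ) × ℕ => r.2) :=
    Poly.snd Poly.id
  have V3 : NPC.Poly (fun r : (((List Bool × List Bool) × ℕ) × ℕ) × ℕ => v r.1.1.1.1.length) :=
    V'.comp A1
  have h2 : NPC.Poly (fun r : (((List Bool × List Bool) × ℕ) × ℕ) × ℕ =>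
      !(decide (r.1.2 < r.2) && (r.1.1.1.2.getD r.1.2 false && r.1.1.1.2.getD r.2 false)) ||
        r.1.1.1.1.getD (r.1.1.2 * (v r.1.1.1.1.length * v r.1.1.1.1.length) +
          r.1.2 * v r.1.1.1.1.length + r.2) false) := by
    refine Poly.or (Poly.not (Poly.and (Poly.decide_lt A3 A4) (Poly.and ?_ ?_))) ?_
    · exact Poly.getD (d := fun _ => false) (W.comp A1) A3 (NPC.Poly.const false)
    · exact Poly.getD (d := fun _ => false) (W.comp A1) A4 (NPC.Poly.const false)
    · exact Poly.getD (d := fun _ => false) (X.comp A1)
        (Poly.add (Poly.add (Poly.mul A2 (Poly.mul V3 V3)) (Poly.mul A3 V3)) A4)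
        (NPC.Poly.const false)
  have h3 : NPC.Poly (fun r : ((List Bool × List Bool) × ℕ) × ℕ =>
      (List.range (v r.1.1.1.length)).all (fun b =>
      !(decide (r.2 < b) && (r.1.1.2.getD r.2 false && r.1.1.2.getD b false)) ||
        r.1.1.1.getD (r.1.2 * (v r.1.1.1.length * v r.1.1.1.length) +
          r.2 * v r.1.1.1.length + b) false)) :=
    Poly.all (l := fun r : ((List Bool × List Bool) × ℕ) × ℕ => List.range (v r.1.1.1.length))
      (p := fun r b => !(decide (r.2 < b) && (r.1.1.2.getD r.2 false && r.1.1.2.getD b false)) ||
        r.1.1.1.getD (r.1.2 * (v r.1.1.1.length * v r.1.1.1.length) +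
          r.2 * v r.1.1.1.length + b) false)
      (V.range.comp (Poly.fst (Poly.fst Poly.id))) h2
  have h4 : NPC.Poly (fun r : (List Bool × List Bool) × ℕ =>
      (List.range (v r.1.1.length)).all (fun a => (List.range (v r.1.1.length)).all (fun b =>
      !(decide (a < b) && (r.1.2.getD a false && r.1.2.getD b false)) ||
        r.1.1.getD (r.2 * (v r.1.1.length * v r.1.1.length) +
          a * v r.1.1.length + b) false))) :=
    Poly.all (l := fun r : (List Bool × List Bool) × ℕ => List.range (v r.1.1.length))
      (p := fun r a => (List.range (v r.1.1.length)).all (fun b =>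
      !(decide (a < b) && (r.1.2.getD a false && r.1.2.getD b false)) ||
        r.1.1.getD (r.2 * (v r.1.1.length * v r.1.1.length) +
          a * v r.1.1.length + b) false))
      (V.range.comp (Poly.fst Poly.id)) h3
  exact Poly.and h1 (Poly.any (l := fun p : List Bool × List Bool =>
      List.range (p.1.length / (v p.1.length * v p.1.length)))
    (p := fun p j => (List.range (v p.1.length)).all (fun a =>
      (List.range (v p.1.length)).all (fun b =>
      !(decide (a < b) && (p.2.getD a false && p.2.getD b false)) ||
        p.1.getD (j * (v p.1.length * v p.1.length) +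
          a * v p.1.length + b) false))) M.range h4)

theorem mem_blockClique_iff (v k : ℕ → ℕ) (x : List Bool) :
    x ∈ BlockClique v k ↔ ∃ w : List Bool, w.length ≤ (Polynomial.X : Polynomial ℕ).eval x.length ∧
      vfy v k (x, w) = true := by
  simp only [Polynomial.eval_X]
  constructor
  · rintro ⟨j, hj, S, hS, hSv, hcl⟩
    have hvv : v x.length * v x.length ≤ x.length := by
      by_contra hlt
      rw [Nat.div_eq_of_lt (by omega)] at hj
      omega
    refine ⟨(List.range (v x.length)).map (fun a => decide (a ∈ S)), ?_, ?_⟩
    · simp only [List.length_map, List.length_range]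
      nlinarith
    · have hget : ∀ a, ((List.range (v x.length)).map (fun a => decide (a ∈ S))).getD a false =
          decide (a ∈ S) := by
        intro a
        by_cases ha : a < v x.length
        · rw [List.getD_eq_getElem _ _ (by simpa using ha)]
          simp
        · rw [List.getD_eq_default _ _ (by simpa using ha)]
          symm
          rw [decide_eq_false_iff_not]
          exact fun h => ha (hSv a h)
      unfold vfy
      simp only [hget]
      rw [Bool.and_eq_true]
      constructor
      · rw [decide_eq_true_eq, ← hS]
        have h1 : ((List.range (v x.length)).filter (fun a => decide (a ∈ S))).toFinset = S := by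
          ext a
          simp only [List.mem_toFinset, List.mem_filter, List.mem_range, decide_eq_true_eq]
          exact ⟨fun h => h.2, fun h => ⟨hSv a h, h⟩⟩
        have h2 : ((List.range (v x.length)).filter (fun a => decide (a ∈ S))).Nodup :=
          List.nodup_range.filter _
        rw [← List.toFinset_card_of_nodup h2, h1]
      · rw [List.any_eq_true]
        refine ⟨j, by simpa using hj, ?_⟩
        rw [List.all_eq_true]
        intro a _
        rw [List.all_eq_true]
        intro b _
        by_cases hab : a < b ∧ a ∈ S ∧ b ∈ S
        · have := hcl a hab.2.1 b hab.2.2 hab.1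
          unfold entry at this
          rw [this]
          simp
        · have : (decide (a < b) && (decide (a ∈ S) && decide (b ∈ S))) = false := by
            rw [← Bool.not_eq_true]
            simpa using fun h1 h2 h3 => hab ⟨h1, h2, h3⟩
          rw [this]
          simp
  · rintro ⟨w, _, hw⟩
    unfold vfy at hw
    simp only [Bool.and_eq_true, decide_eq_true_eq, List.any_eq_true, List.mem_range,
      List.all_eq_true] at hw
    obtain ⟨h1, j, hj, h2⟩ := hw
    refine ⟨j, hj, ((List.range (v x.length)).filter (fun a => w.getD a false)).toFinset, ?_, ?_, ?_⟩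
    · rw [List.toFinset_card_of_nodup (List.nodup_range.filter _)]
      exact h1
    · intro a ha
      simp only [List.mem_toFinset, List.mem_filter, List.mem_range] at ha
      exact ha.1
    · intro a ha b hb hab
      simp only [List.mem_toFinset, List.mem_filter, List.mem_range] at ha hb
      have := h2 a ha.1 b hb.1
      rw [ha.2, hb.2, decide_eq_true hab] at this
      change x.getD _ _ = true
      simpa using this

/-- **The block clique language is in `NP`** as soon as `v` and `k` are computable in polynomial
time (in unary for `v`) from a string of length `N`. -/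
theorem inNP_blockClique {v k : ℕ → ℕ} (hv : UPoly (fun x : List Bool => v x.length))
    (hk : NPC.Poly (fun x : List Bool => k x.length)) : InNP (BlockClique v k) :=
  inNP_of_poly (vfy v k) (vfy_poly hv hk) Polynomial.X (mem_blockClique_iff v k)

/-- The bit length of the length of a string is computable in polynomial time, in unary. -/
theorem upoly_size : UPoly (fun x : List Bool => Nat.size x.length) := by
  have h : NPC.Poly (fun x : List Bool => (x.length).bits) := Poly.natBits (Poly.length Poly.id)
  have := UPoly.length h
  refine this.congr fun x => ?_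
  simp only [Nat.size_eq_bits_len]

end Pool.Agent.H611R2
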