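import Pool.Agent.H611R2.RawOut
import Pool.Agent.NPC.Sat

/-!
# The list clique language is NP-complete

A bit string `1^v 0 1^k 0 y` is read as a list of graphs on the vertices `0, …, v - 1`: the string
`y` is cut into blocks of `v²` bits, and each block is read as (the entries above the diagonal of)
an adjacency matrix.  The string belongs to the language if one of these graphs has a clique with
`k` vertices.
-/

namespace Pool.Agent.H611R2.LC

open Pool.Agent.NPC Pool.Agent.H611R2

/-- The entry `(a, b)` of the `j`-th adjacency matrix (with `v` vertices) read in the string `y`. -/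
def entry (v : ℕ) (y : List Bool) (j a b : ℕ) : Bool := y.getD (j * (v * v) + a * v + b) false

/-- One of the graphs on `v` vertices read in `y` has a clique with `k` vertices. -/
def HasClique (v k : ℕ) (y : List Bool) : Prop :=
  ∃ j < y.length / (v * v), ∃ S : Finset ℕ, S.card = k ∧ (∀ a ∈ S, a < v) ∧
    ∀ a ∈ S, ∀ b ∈ S, a < b → entry v y j a b = true

/-- The number of leading ones of a bit string. -/
def ones (x : List Bool) : ℕ := (x.takeWhile id).length

/-- What remains of a bit string after its leading ones and the next bit. -/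
def after (x : List Bool) : List Bool := x.drop (ones x + 1)

/-- **The list clique language**: strings `1^v 0 1^k 0 y` such that one of the graphs on `v`
vertices read in `y` has a clique with `k` vertices. -/
def ListClique : Set (List Bool) :=
  {x | HasClique (ones x) (ones (after x)) (after (after x))}

/-- The verifier. -/
def chk (v k : ℕ) (y w : List Bool) : Bool :=
  decide (((List.range v).filter (fun a => w.getD a false)).length = k) &&
  (List.range (y.length / (v * v))).any (fun j =>
    (List.range v).all (fun a => (List.range v).all (fun b =>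
      !(decide (a < b) && (w.getD a false && w.getD b false)) ||
        y.getD (j * (v * v) + a * v + b) false)))

theorem chk_poly {α : Type} [TEnc α] {v k : α → ℕ} {y w : α → List Bool} (hv : UPoly v)
    (hk : NPC.Poly k) (hy : NPC.Poly y) (hw : NPC.Poly w) :
    NPC.Poly (fun a => chk (v a) (k a) (y a) (w a)) := by
  have hv' : NPC.Poly v := hv.toPoly
  have hm : NPC.Poly (fun a => (y a).length / (v a * v a)) :=
    Poly.div (Poly.length hy) (Poly.mul hv' hv')
  have M : UPoly (fun a => (y a).length / (v a * v a)) :=
    UPoly.of_le hm (UPoly.length hy) (fun p => Nat.div_le_self _ _)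
  have hF : NPC.Poly (fun q : α × ℕ => (w q.1).getD q.2 false) :=
    Poly.getD (d := fun _ => false) (hw.comp (Poly.fst Poly.id)) (Poly.snd Poly.id)
      (NPC.Poly.const false)
  have h1 : NPC.Poly (fun a : α =>
      decide (((List.range (v a)).filter (fun i => (w a).getD i false)).length = k a)) :=
    Poly.decide_eq (Poly.length (Poly.filter (p := fun a i => (w a).getD i false) hv.range hF)) hk
  have A1 : NPC.Poly (fun r : ((α × ℕ) × ℕ) × ℕ => r.1.1.1) :=
    Poly.fst (Poly.fst (Poly.fst Poly.id))
  have A2 : NPC.Poly (fun r : ((α × ℕ) × ℕ) × ℕ => r.1.1.2) :=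
    Poly.snd (Poly.fst (Poly.fst Poly.id))
  have A3 : NPC.Poly (fun r : ((α × ℕ) × ℕ) × ℕ => r.1.2) := Poly.snd (Poly.fst Poly.id)
  have A4 : NPC.Poly (fun r : ((α × ℕ) × ℕ) × ℕ => r.2) := Poly.snd Poly.id
  have V3 : NPC.Poly (fun r : ((α × ℕ) × ℕ) × ℕ => v r.1.1.1) := hv'.comp A1
  have h2 : NPC.Poly (fun r : ((α × ℕ) × ℕ) × ℕ =>
      !(decide (r.1.2 < r.2) && ((w r.1.1.1).getD r.1.2 false && (w r.1.1.1).getD r.2 false)) ||
        (y r.1.1.1).getD (r.1.1.2 * (v r.1.1.1 * v r.1.1.1) + r.1.2 * v r.1.1.1 + r.2) false) := by
    refine Poly.or (Poly.not (Poly.and (Poly.decide_lt A3 A4) (Poly.and ?_ ?_))) ?_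
    · exact Poly.getD (d := fun _ => false) (hw.comp A1) A3 (NPC.Poly.const false)
    · exact Poly.getD (d := fun _ => false) (hw.comp A1) A4 (NPC.Poly.const false)
    · exact Poly.getD (d := fun _ => false) (hy.comp A1)
        (Poly.add (Poly.add (Poly.mul A2 (Poly.mul V3 V3)) (Poly.mul A3 V3)) A4)
        (NPC.Poly.const false)
  have h3 : NPC.Poly (fun r : (α × ℕ) × ℕ => (List.range (v r.1.1)).all (fun b =>
      !(decide (r.2 < b) && ((w r.1.1).getD r.2 false && (w r.1.1).getD b false)) ||
        (y r.1.1).getD (r.1.2 * (v r.1.1 * v r.1.1) + r.2 * v r.1.1 + b) false)) :=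
    Poly.all (l := fun r : (α × ℕ) × ℕ => List.range (v r.1.1))
      (p := fun r b => !(decide (r.2 < b) && ((w r.1.1).getD r.2 false && (w r.1.1).getD b false)) ||
        (y r.1.1).getD (r.1.2 * (v r.1.1 * v r.1.1) + r.2 * v r.1.1 + b) false)
      (hv.range.comp (Poly.fst (Poly.fst Poly.id))) h2
  have h4 : NPC.Poly (fun r : α × ℕ => (List.range (v r.1)).all (fun a =>
      (List.range (v r.1)).all (fun b =>
      !(decide (a < b) && ((w r.1).getD a false && (w r.1).getD b false)) ||
        (y r.1).getD (r.2 * (v r.1 * v r.1) + a * v r.1 + b) false))) :=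
    Poly.all (l := fun r : α × ℕ => List.range (v r.1))
      (p := fun r a => (List.range (v r.1)).all (fun b =>
      !(decide (a < b) && ((w r.1).getD a false && (w r.1).getD b false)) ||
        (y r.1).getD (r.2 * (v r.1 * v r.1) + a * v r.1 + b) false))
      (hv.range.comp (Poly.fst Poly.id)) h3
  exact Poly.and h1 (Poly.any (l := fun a => List.range ((y a).length / (v a * v a)))
    (p := fun c j => (List.range (v c)).all (fun a =>
      (List.range (v c)).all (fun b =>
      !(decide (a < b) && ((w c).getD a false && (w c).getD b false)) ||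
        (y c).getD (j * (v c * v c) + a * v c + b) false))) M.range h4)

theorem hasClique_of_chk {v k : ℕ} {y w : List Bool} (hw : chk v k y w = true) :
    HasClique v k y := by
  unfold chk at hw
  simp only [Bool.and_eq_true, decide_eq_true_eq, List.any_eq_true, List.mem_range,
    List.all_eq_true] at hw
  obtain ⟨h1, j, hj, h2⟩ := hw
  refine ⟨j, hj, ((List.range v).filter (fun a => w.getD a false)).toFinset, ?_, ?_, ?_⟩
  · rw [List.toFinset_card_of_nodup (List.nodup_range.filter _)]
    exact h1
  · intro a ha
    simp only [List.mem_toFinset, List.mem_filter, List.mem_range] at ha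
    exact ha.1
  · intro a ha b hb hab
    simp only [List.mem_toFinset, List.mem_filter, List.mem_range] at ha hb
    have := h2 a ha.1 b hb.1
    rw [ha.2, hb.2, decide_eq_true hab] at this
    change y.getD _ _ = true
    simpa using this

theorem hasClique_iff (v k : ℕ) (y : List Bool) :
    HasClique v k y ↔ ∃ w : List Bool, w.length ≤ y.length ∧ chk v k y w = true := by
  constructor
  · rintro ⟨j, hj, S, hS, hSv, hcl⟩
    have hvv : v * v ≤ y.length := by
      by_contra hlt
      rw [Nat.div_eq_of_lt (by omega)] at hj
      omega
    refine ⟨(List.range v).map (fun a => decide (a ∈ S)), ?_, ?_⟩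
    · simp only [List.length_map, List.length_range]
      nlinarith
    · have hget : ∀ a, ((List.range v).map (fun a => decide (a ∈ S))).getD a false =
          decide (a ∈ S) := by
        intro a
        by_cases ha : a < v
        · rw [List.getD_eq_getElem _ _ (by simpa using ha)]
          simp
        · rw [List.getD_eq_default _ _ (by simpa using ha)]
          symm
          rw [decide_eq_false_iff_not]
          exact fun h => ha (hSv a h)
      unfold chk
      simp only [hget]
      rw [Bool.and_eq_true]
      constructor
      · rw [decide_eq_true_eq, ← hS]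
        have h1 : ((List.range v).filter (fun a => decide (a ∈ S))).toFinset = S := by
          ext a
          simp only [List.mem_toFinset, List.mem_filter, List.mem_range, decide_eq_true_eq]
          exact ⟨fun h => h.2, fun h => ⟨hSv a h, h⟩⟩
        have h2 : ((List.range v).filter (fun a => decide (a ∈ S))).Nodup :=
          List.nodup_range.filter _
        rw [← List.toFinset_card_of_nodup h2, h1]
      · rw [List.any_eq_true]
        refine ⟨j, by simpa using hj, ?_⟩
        rw [List.all_eq_true]
        intro a _
        rw [List.all_eq_true]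
        intro b _
        by_cases hab : a < b ∧ a ∈ S ∧ b ∈ S
        · have := hcl a hab.2.1 b hab.2.2 hab.1
          unfold entry at this
          rw [this]
          simp
        · have : (decide (a < b) && (decide (a ∈ S) && decide (b ∈ S))) = false := by
            rw [← Bool.not_eq_true]
            simpa using fun h1 h2 h3 => hab ⟨h1, h2, h3⟩
          rw [this]
          simp
  · rintro ⟨w, _, hw⟩
    exact hasClique_of_chk hw

/-! ### Parsing -/

theorem takeWhile_eq_foldr (x : List Bool) :
    x.takeWhile id = x.foldr (fun b acc => bif b then b :: acc else []) [] := by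
  induction x with
  | nil => rfl
  | cons b x ih => cases b <;> simp [ih]

theorem takeWhile_poly {α : Type} [TEnc α] {x : α → List Bool} (hx : NPC.Poly x) :
    NPC.Poly (fun a => (x a).takeWhile id) := by
  obtain ⟨r, hr⟩ := hx.sz_le
  have key : ∀ l : List Bool, (l.foldr (fun b acc => bif b then b :: acc else []) []).length ≤
      l.length := by
    intro l
    rw [← takeWhile_eq_foldr]
    exact (List.takeWhile_prefix _).length_le
  refine (Poly.foldr (s := fun _ => ([] : List Bool))
    (F := fun _ b acc => bif b then b :: acc else []) hx (NPC.Poly.const _)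
    (Poly.cond (Poly.fst (Poly.snd Poly.id))
      (Poly.cons (Poly.fst (Poly.snd Poly.id)) (Poly.snd (Poly.snd Poly.id))) (NPC.Poly.const _))
    (Polynomial.C 4 * r + Polynomial.C 1) ?_).congr fun a => (takeWhile_eq_foldr (x a)).symm
  intro a k _
  have h1 := sz_listBool_le (((x a).drop k).foldr (fun b acc => bif b then b :: acc else []) [])
  have h2 := key ((x a).drop k)
  have h3 : ((x a).drop k).length ≤ (x a).length := by simp
  have h4 := length_lt_sz (x a)
  have h5 := hr a
  simp only [Polynomial.eval_add, Polynomial.eval_mul, Polynomial.eval_C]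
  omega

theorem ones_upoly {α : Type} [TEnc α] {x : α → List Bool} (hx : NPC.Poly x) :
    UPoly (fun a => ones (x a)) :=
  UPoly.length (takeWhile_poly hx)

theorem tail_iterate (n : ℕ) (x : List Bool) : List.tail^[n] x = x.drop n := by
  induction n generalizing x with
  | zero => rfl
  | succ n ih => rw [Function.iterate_succ_apply, ih]; simp

theorem after_poly {α : Type} [TEnc α] {x : α → List Bool} (hx : NPC.Poly x) :
    NPC.Poly (fun a => after (x a)) := by
  obtain ⟨r, hr⟩ := hx.sz_le
  refine (Poly.tail (Poly.iterLen (l := fun a => (x a).takeWhile id) (s := x)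
    (F := fun _ l => l.tail) (takeWhile_poly hx) hx (Poly.tail (Poly.snd Poly.id)) r ?_)).congr
    fun a => ?_
  · intro a k _
    rw [tail_iterate]
    exact (Poly.sz_drop_le _ _).trans (hr a)
  · rw [tail_iterate]
    simp [after, ones]

theorem after_length_le (x : List Bool) : (after x).length ≤ x.length := by
  simp [after]

/-- **The list clique language is in `NP`.** -/
theorem inNP_listClique : InNP ListClique := by
  refine inNP_of_poly (fun p => chk (ones p.1) (ones (after p.1)) (after (after p.1)) p.2) ?_
    Polynomial.X fun x => ?_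
  · have X : NPC.Poly (fun p : List Bool × List Bool => p.1) := Poly.fst Poly.id
    have W : NPC.Poly (fun p : List Bool × List Bool => p.2) := Poly.snd Poly.id
    exact chk_poly (ones_upoly X) (ones_upoly (after_poly X)).toPoly (after_poly (after_poly X)) W
  · change HasClique _ _ _ ↔ _
    simp only [Polynomial.eval_X]
    constructor
    · intro h
      obtain ⟨w, h1, h2⟩ := (hasClique_iff _ _ _).1 h
      exact ⟨w, h1.trans ((after_length_le _).trans (after_length_le _)), h2⟩
    · rintro ⟨w, _, h2⟩
      exact hasClique_of_chk h2

/-! ### Strings with a given header -/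

theorem ones_hdr (v : ℕ) (r : List Bool) : ones (List.replicate v true ++ false :: r) = v := by
  induction v with
  | zero => simp [ones]
  | succ v ih =>
    simp only [ones, List.replicate_succ, List.cons_append] at *
    rw [List.takeWhile_cons]
    simp

theorem after_hdr (v : ℕ) (r : List Bool) : after (List.replicate v true ++ false :: r) = r := by
  unfold after
  rw [ones_hdr]
  have : v + 1 = (List.replicate v true ++ [false]).length := by simp
  rw [this]
  have h2 : List.replicate v true ++ false :: r = (List.replicate v true ++ [false]) ++ r := by simp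
  rw [h2, List.drop_left]

/-- Membership for a string with the header `1^v 0 1^k 0`. -/
theorem mem_listClique_hdr (v k : ℕ) (y : List Bool) :
    List.replicate v true ++ false :: (List.replicate k true ++ false :: y) ∈ ListClique ↔
      HasClique v k y := by
  change HasClique _ _ _ ↔ _
  rw [ones_hdr, after_hdr, ones_hdr, after_hdr]

/-! ### NP-hardness -/

/-- The literal occurrences of a formula, with the index of their clause. -/
def occ (φ : List (List (Bool × ℕ))) : List (ℕ × Bool × ℕ) :=
  φ.zipIdx.flatMap (fun p => p.1.map (fun l => (p.2, l)))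

/-- Literal occurrences in different clauses, not contradictory. -/
def compat (p q : ℕ × Bool × ℕ) : Bool :=
  !decide (p.1 = q.1) && (!decide (p.2.2 = q.2.2) || decide (p.2.1 = q.2.1))

/-- The adjacency matrix. -/
def mat (φ : List (List (Bool × ℕ))) : List Bool :=
  (occ φ).flatMap (fun p => (occ φ).map (fun q => compat p q))

/-- The reduction from satisfiability. -/
def red (φ : List (List (Bool × ℕ))) : List Bool :=
  bif φ.isEmpty then [true, false, false, false]
  else (occ φ).map (fun _ => true) ++ false :: (φ.map (fun _ => true) ++ false :: mat φ)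

theorem red_poly : NPC.Poly red := by
  have hid : NPC.Poly (fun φ : List (List (Bool × ℕ)) => φ) := Poly.id
  have hocc : NPC.Poly occ := by
    refine Poly.flatMap (F := fun _ p => p.1.map (fun l => (p.2, l))) (Poly.zipIdx hid) ?_
    exact NPC.Poly.map (F := fun (r : List (List (Bool × ℕ)) × List (Bool × ℕ) × ℕ) (l : Bool × ℕ) =>
      (r.2.2, l)) (Poly.fst (Poly.snd Poly.id))
      (Poly.pair (Poly.snd (Poly.snd (Poly.fst Poly.id))) (Poly.snd Poly.id))
  have hcompat : NPC.Poly (fun r : (ℕ × Bool × ℕ) × (ℕ × Bool × ℕ) => compat r.1 r.2) := by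
    have P : NPC.Poly (fun r : (ℕ × Bool × ℕ) × (ℕ × Bool × ℕ) => r.1) := Poly.fst Poly.id
    have Q : NPC.Poly (fun r : (ℕ × Bool × ℕ) × (ℕ × Bool × ℕ) => r.2) := Poly.snd Poly.id
    exact Poly.and (Poly.not (Poly.decide_eq (Poly.fst P) (Poly.fst Q)))
      (Poly.or (Poly.not (Poly.decide_eq (Poly.snd (Poly.snd P)) (Poly.snd (Poly.snd Q))))
        (Poly.decide_eq (Poly.fst (Poly.snd P)) (Poly.fst (Poly.snd Q))))
  have hmat : NPC.Poly mat := by
    refine Poly.flatMap (F := fun φ p => (occ φ).map (fun q => compat p q)) hocc ?_
    exact NPC.Poly.map (F := fun r q => compat r.2 q) (hocc.comp (Poly.fst Poly.id))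
      (hcompat.comp (Poly.pair (Poly.snd (Poly.fst Poly.id)) (Poly.snd Poly.id)))
  exact Poly.cond (Poly.isEmpty hid) (NPC.Poly.const _)
    (Poly.append (NPC.Poly.map (F := fun _ _ => true) hocc (NPC.Poly.const true))
      (Poly.cons (NPC.Poly.const false)
        (Poly.append (NPC.Poly.map (F := fun _ _ => true) hid (NPC.Poly.const true))
          (Poly.cons (NPC.Poly.const false) hmat))))

theorem flatMap_map_getD {β γ : Type} (f : β → γ → Bool) (l' : List γ) :
    ∀ (l : List β) (a b : ℕ) (ha : a < l.length) (hb : b < l'.length),
      (l.flatMap (fun p => l'.map (fun q => f p q))).getD (a * l'.length + b) false =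
        f l[a] l'[b]
  | [], a, b, ha, _ => absurd ha (by simp)
  | p :: l, 0, b, _, hb => by
    rw [List.flatMap_cons, List.getD_append _ _ _ _ (by simpa using hb)]
    rw [List.getD_eq_getElem _ _ (by simpa using hb)]
    simp
  | p :: l, a + 1, b, ha, hb => by
    have ih := flatMap_map_getD f l' l a b (by simpa using ha) hb
    rw [List.flatMap_cons, List.getD_append_right _ _ _ _ (by simp; nlinarith)]
    change _ = f (l[a]'(by simpa using ha)) l'[b]
    rw [← ih]
    congr 1
    simp only [List.length_map]
    have : (a + 1) * l'.length = a * l'.length + l'.length := by ring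
    omega

theorem mat_length (φ : List (List (Bool × ℕ))) :
    (mat φ).length = (occ φ).length * (occ φ).length := by
  simp [mat, List.length_flatMap]

theorem mem_occ {φ : List (List (Bool × ℕ))} {i : ℕ} {l : Bool × ℕ} :
    (i, l) ∈ occ φ ↔ ∃ c, φ[i]? = some c ∧ l ∈ c := by
  unfold occ
  simp only [List.mem_flatMap, List.mem_map, Prod.mk.injEq, Prod.exists, List.mem_zipIdx_iff_getElem?]
  constructor
  · rintro ⟨c, j, hc, a, b, hl, rfl, rfl⟩
    exact ⟨c, hc, hl⟩
  · rintro ⟨c, hc, hl⟩
    exact ⟨c, i, hc, l.1, l.2, hl, rfl, rfl⟩

theorem red_correct (φ : List (List (Bool × ℕ))) : SAT φ ↔ red φ ∈ ListClique := by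
  by_cases hφ : φ = []
  · subst hφ
    constructor
    · intro _
      have h1 : red [] = List.replicate 1 true ++ false :: (List.replicate 0 true ++ false ::
        [false]) := rfl
      rw [h1, mem_listClique_hdr]
      exact ⟨0, by simp, ∅, by simp, by simp, by simp⟩
    · intro _
      exact ⟨fun _ => true, by simp⟩
  have hred : red φ = List.replicate (occ φ).length true ++ false ::
      (List.replicate φ.length true ++ false :: mat φ) := by
    unfold red
    have : φ.isEmpty = false := by cases φ <;> simp_all
    rw [this, cond_false, List.map_const', List.map_const']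
  rw [hred, mem_listClique_hdr]
  have hentry : ∀ a b (ha : a < (occ φ).length) (hb : b < (occ φ).length),
      entry (occ φ).length (mat φ) 0 a b = compat (occ φ)[a] (occ φ)[b] := by
    intro a b ha hb
    unfold entry
    rw [Nat.zero_mul, Nat.zero_add]
    exact flatMap_map_getD compat (occ φ) (occ φ) a b ha hb
  constructor
  · rintro ⟨τ, hτ⟩
    have h1 : ∀ i, ∃ a, i < φ.length → ∃ ha : a < (occ φ).length, ((occ φ)[a]).1 = i ∧
        τ ((occ φ)[a]).2.2 = ((occ φ)[a]).2.1 := by
      intro i
      by_cases hi : i < φ.length
      · obtain ⟨l, hl, hτl⟩ := hτ φ[i] (List.getElem_mem hi)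
        have h2 : (i, l) ∈ occ φ := mem_occ.2 ⟨φ[i], List.getElem?_eq_getElem hi, hl⟩
        obtain ⟨a, ha, hal⟩ := List.mem_iff_getElem.1 h2
        exact ⟨a, fun _ => ⟨ha, by rw [hal], by rw [hal]; exact hτl⟩⟩
      · exact ⟨0, fun h => absurd h hi⟩
    choose A hA using h1
    have hinj : ∀ i < φ.length, ∀ j < φ.length, A i = A j → i = j := by
      intro i hi j hj hij
      obtain ⟨h1, h2, _⟩ := hA i hi
      obtain ⟨h1', h2', _⟩ := hA j hj
      rw [← h2, ← h2']
      congr 2
    refine ⟨0, ?_, (Finset.range φ.length).image A, ?_, ?_, ?_⟩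
    · rw [mat_length]
      have hpos : 0 < (occ φ).length := by
        have h3 : 0 < φ.length := List.length_pos_iff.2 hφ
        obtain ⟨h1, _⟩ := hA 0 h3
        omega
      rw [Nat.div_self (Nat.mul_pos hpos hpos)]
      exact Nat.one_pos
    · rw [Finset.card_image_of_injOn, Finset.card_range]
      intro i hi j hj hij
      exact hinj i (by simpa using hi) j (by simpa using hj) hij
    · intro a ha
      obtain ⟨i, hi, rfl⟩ := Finset.mem_image.1 ha
      exact (hA i (by simpa using hi)).1
    · intro a ha b hb hab
      obtain ⟨i, hi, rfl⟩ := Finset.mem_image.1 ha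
      obtain ⟨j, hj, rfl⟩ := Finset.mem_image.1 hb
      obtain ⟨h1, h2, h3⟩ := hA i (by simpa using hi)
      obtain ⟨h1', h2', h3'⟩ := hA j (by simpa using hj)
      rw [hentry _ _ h1 h1']
      unfold compat
      have hij : i ≠ j := by
        rintro rfl
        exact absurd hab (lt_irrefl _)
      rw [h2, h2']
      simp only [hij, decide_false, Bool.not_false, Bool.true_and]
      by_cases hv : ((occ φ)[A i]).2.2 = ((occ φ)[A j]).2.2
      · have : ((occ φ)[A i]).2.1 = ((occ φ)[A j]).2.1 := by rw [← h3, ← h3', hv]
        simp [this]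
      · simp [hv]
  · rintro ⟨j, hj, S, hS, hSv, hcl⟩
    have hj0 : j = 0 := by
      rw [mat_length] at hj
      rcases Nat.eq_zero_or_pos ((occ φ).length * (occ φ).length) with h0 | h0
      · rw [h0] at hj
        simp at hj
      · rw [Nat.div_self h0] at hj
        omega
    subst hj0
    have hco : ∀ a ∈ S, ∀ b ∈ S, a < b → ∀ (ha : a < (occ φ).length) (hb : b < (occ φ).length),
        compat (occ φ)[a] (occ φ)[b] = true := by
      intro a ha b hb hab h1 h2
      rw [← hentry a b h1 h2]
      exact hcl a ha b hb hab
    -- the clause index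
    let c : ℕ → ℕ := fun a => ((occ φ).getD a (0, false, 0)).1
    have hc : ∀ a (ha : a < (occ φ).length), c a = ((occ φ)[a]).1 := by
      intro a ha
      simp only [c]
      rw [List.getD_eq_getElem _ _ ha]
    have hcinj : Set.InjOn c (S : Set ℕ) := by
      intro a ha b hb hab
      by_contra hne
      have ha' := hSv a ha
      have hb' := hSv b hb
      rw [hc a ha', hc b hb'] at hab
      rcases lt_or_gt_of_ne hne with h | h
      · have := hco a ha b hb h ha' hb'
        unfold compat at this
        rw [hab] at this
        simp at this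
      · have := hco b hb a ha h hb' ha'
        unfold compat at this
        rw [hab] at this
        simp at this
    have himg : S.image c = Finset.range φ.length := by
      apply Finset.eq_of_subset_of_card_le
      · intro i hi
        obtain ⟨a, ha, rfl⟩ := Finset.mem_image.1 hi
        have ha' := hSv a ha
        rw [hc a ha', Finset.mem_range]
        have h1 : (((occ φ)[a]).1, ((occ φ)[a]).2) ∈ occ φ := List.getElem_mem ha'
        obtain ⟨d, hd, _⟩ := mem_occ.1 h1
        exact (List.getElem?_eq_some_iff.1 hd).1
      · rw [Finset.card_range, Finset.card_image_of_injOn hcinj, hS]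
    refine ⟨fun u => decide (∃ a ∈ S, ((occ φ).getD a (0, false, 0)).2 = (true, u)), ?_⟩
    intro d hd
    obtain ⟨i, hi, rfl⟩ := List.mem_iff_getElem.1 hd
    have hi' : i ∈ S.image c := by rw [himg]; exact Finset.mem_range.2 hi
    obtain ⟨a, ha, hai⟩ := Finset.mem_image.1 hi'
    have ha' := hSv a ha
    have h1 : (((occ φ)[a]).1, ((occ φ)[a]).2) ∈ occ φ := List.getElem_mem ha'
    obtain ⟨d, hd, hld⟩ := mem_occ.1 h1
    rw [← hc a ha', hai, List.getElem?_eq_getElem hi] at hd
    have hd' : φ[i] = d := Option.some.inj hd
    refine ⟨((occ φ)[a]).2, by rw [hd']; exact hld, ?_⟩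
    cases hb : ((occ φ)[a]).2.1 with
    | true =>
      rw [decide_eq_true_eq]
      refine ⟨a, ha, ?_⟩
      rw [List.getD_eq_getElem _ _ ha']
      exact Prod.ext hb rfl
    | false =>
      rw [decide_eq_false_iff_not]
      rintro ⟨a', hmem, hl⟩
      have ha'' := hSv a' hmem
      rw [List.getD_eq_getElem _ _ ha''] at hl
      have hne : a ≠ a' := by
        rintro rfl
        rw [hl] at hb
        simp at hb
      have hl1 : ((occ φ)[a']).2.1 = true := by rw [hl]
      have hl2 : ((occ φ)[a']).2.2 = ((occ φ)[a]).2.2 := by rw [hl]
      rcases lt_or_gt_of_ne hne with h | h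
      · have := hco a ha a' hmem h ha' ha''
        unfold compat at this
        rw [hl1, hl2, hb] at this
        simp at this
      · have := hco a' hmem a ha h ha'' ha'
        unfold compat at this
        rw [hl1, hl2, hb] at this
        simp at this

/-- **The list clique language is `NP`-hard.** -/
theorem npHard_listClique : NPHard ListClique := by
  intro L hL
  obtain ⟨f, hf, hfL⟩ := hardI_SAT L hL
  exact ⟨fun x => red (f x), polyTime_raw hf red_poly, fun x => (hfL x).trans (red_correct _)⟩

end Pool.Agent.H611R2.LC
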