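import Pool.Agent.H611R2.Blocks
import Pool.Agent.H520R2.ClassLevel2

/-!
# Co-nondeterministic circuits that are monotone in the input
-/

namespace Pool.Agent.H611R2

open Pool.Agent.H520R2 Pool.Agent.H520R2.NM Pool.Agent.NPC

/-- If the bits entering the arbitrary gates depend only on the guess bits, then for fixed guess
bits the circuit computes a function of small monotone complexity. -/
theorem mcomp_of_probes {N g n : ℕ} (C : Circuit (Fin N ⊕ Fin g) n) (out : Wire (Fin N ⊕ Fin g) n)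
    (hC : ∀ (x x' : Fin N → Bool) (z : Fin g → Bool),
      C.probes (Sum.elim x z) = C.probes (Sum.elim x' z)) (z : Fin g → Bool) :
    MComp (VB (Fin N)) C.size
      (fun x => out.eval (Sum.elim x z) (C.vals (Sum.elim x z))) := by
  obtain ⟨L, ρ, ps, hL, hlen, hρ, _, _, h1, h2⟩ := C.frozen (Sum.elim (fun _ => false) z)
  have hval : ∀ x : Fin N → Bool, ∀ j, ρ j (Sum.elim x z) = C.vals (Sum.elim x z) j := by
    intro x
    exact (h1 _ (h2 _ (hC x _ z))).2
  have hcomp : MComp (VB (Fin N ⊕ Fin g)) C.size (out.pseudo ρ) :=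
    ⟨L, hL, hlen, Wire.pseudo_av hρ out⟩
  have h3 := hcomp.comp (B' := VB (Fin N))
    (fun x : Fin N → Bool => (Sum.elim x z : Fin N ⊕ Fin g → Bool))
    (by
      rintro f (⟨b, rfl⟩ | ⟨i, rfl⟩)
      · exact Or.inl ⟨b, rfl⟩
      · cases i with
        | inl i => exact Or.inr ⟨i, rfl⟩
        | inr j => exact Or.inl ⟨z j, rfl⟩)
  have h4 : (out.pseudo ρ) ∘ (fun x : Fin N → Bool => (Sum.elim x z : Fin N ⊕ Fin g → Bool)) =
      fun x => out.eval (Sum.elim x z) (C.vals (Sum.elim x z)) := by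
    funext x
    exact Wire.pseudo_eq (hval x) out
  rw [h4] at h3
  exact h3

/-- The header coding the numbers of vertices and of clique vertices in unary. -/
def hdr (v k : ℕ) : List Bool :=
  List.replicate v true ++ false :: (List.replicate k true ++ [false])

theorem hdr_append (v k : ℕ) (y : List Bool) : hdr v k ++ y =
    List.replicate v true ++ false :: (List.replicate k true ++ false :: y) := by
  simp [hdr]

theorem hdr_mem (v k : ℕ) (y : List Bool) : hdr v k ++ y ∈ LC.ListClique ↔ LC.HasClique v k y := by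
  rw [hdr_append, LC.mem_listClique_hdr]

/-- Entries of words are monotone. -/
theorem lc_entry_mono {v N : ℕ} {x y : Fin N → Bool} (hxy : x ≤ y) (j a b : ℕ)
    (h : LC.entry v (List.ofFn x) j a b = true) : LC.entry v (List.ofFn y) j a b = true := by
  unfold LC.entry at h ⊢
  by_cases hlt : j * (v * v) + a * v + b < N
  · rw [List.getD_eq_getElem _ _ (by simpa using hlt), List.getElem_ofFn] at h ⊢
    have := hxy ⟨j * (v * v) + a * v + b, hlt⟩
    rw [h] at this
    exact Bool.eq_true_of_true_le this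
  · rw [List.getD_eq_default _ _ (by simpa using hlt)] at h
    exact absurd h (by simp)

theorem hasClique_mono {v k N : ℕ} {x y : Fin N → Bool} (hxy : x ≤ y)
    (hx : LC.HasClique v k (List.ofFn x)) : LC.HasClique v k (List.ofFn y) := by
  obtain ⟨j, hj, S, hS, hSv, hcl⟩ := hx
  refine ⟨j, by simpa using hj, S, hS, hSv, ?_⟩
  intro a ha b hb hab
  exact lc_entry_mono hxy j a b (hcl a ha b hb hab)

/-- **Trade-off between size and guess bits.** -/
theorem coNondet {N s r : ℕ} (hr : 2 ≤ r) (hs : s < 2 ^ r) {g n : ℕ}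
    (C : Circuit (Fin N ⊕ Fin g) n) (out : Wire (Fin N ⊕ Fin g) n)
    (hC : ∀ (x x' : Fin N → Bool) (z : Fin g → Bool),
      C.probes (Sum.elim x z) = C.probes (Sum.elim x' z))
    (hF : ∀ x : Fin N → Bool, hdr (200 * r ^ 8) (r ^ 2) ++ List.ofFn x ∈ LC.ListClique ↔
      ∀ z : Fin g → Bool, out.eval (Sum.elim x z) (C.vals (Sum.elim x z)) = true)
    (hsize : C.size ≤ s) : N / (120000 * r ^ 16) ≤ g := by
  set v := 200 * r ^ 8 with hv
  have hm : N / (120000 * r ^ 16) = N / (v * v) / 3 := by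
    rw [Nat.div_div_eq_div_mul]
    congr 1
    rw [hv]
    ring
  rw [hm]
  have hk4 : 4 ≤ r ^ 2 := by nlinarith
  have hsq : Nat.sqrt (r ^ 2) = r := by rw [pow_two, Nat.sqrt_eq]
  have h4 := cover_lower (W := Fin v) (m := N / (v * v)) (k := r ^ 2) (s := C.size)
    (by rw [Fintype.card_fin, hv, ← pow_mul]) hk4
    (by rw [hsq]; exact lt_of_le_of_lt hsize hs) (asmB N v) (asmB_mono N v)
    (fun y J g hg => asmB_base N v y J g hg)
    (fun (z : Fin g → Bool) x => out.eval (Sum.elim x z) (C.vals (Sum.elim x z)))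
    (fun z => mcomp_of_probes C out hC z)
    (fun G => (hF _).symm.trans ((hdr_mem _ _ _).trans (asmB_hasClique N v (r ^ 2) G)))
  have h5 := two_pow_le h4
  rw [Fintype.card_fun, Fintype.card_fin, Fintype.card_bool] at h5
  exact (Nat.pow_le_pow_iff_right (by norm_num)).mp h5

theorem hdr_length {r : ℕ} (hr : 2 ≤ r) : (hdr (200 * r ^ 8) (r ^ 2)).length ≤ 201 * r ^ 8 := by
  have h1 : (hdr (200 * r ^ 8) (r ^ 2)).length = 200 * r ^ 8 + r ^ 2 + 2 := by
    simp [hdr]; ring
  rw [h1]
  have h2 : r ^ 2 + 2 ≤ r ^ 8 := by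
    have h3 : 4 ≤ r ^ 2 := by nlinarith
    have h4 : 4 * r ^ 2 ≤ r ^ 8 := by
      calc 4 * r ^ 2 ≤ r ^ 2 * r ^ 2 := Nat.mul_le_mul_right _ h3
        _ = r ^ 4 := by ring
        _ ≤ r ^ 8 := Nat.pow_le_pow_right (by omega) (by omega)
    omega
  omega

end Pool.Agent.H611R2
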