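import Pool.Agent.H611R2.BPMain
import Pool.Agent.H611R2.CoNondet

/-!
# Two-message proof systems with monotone verifiers
-/

namespace Pool.Agent.H611R2

open Finset Pool.Agent.H520R2 Pool.Agent.H520R2.NM Pool.Agent.NPC

/-- No random function of the class computes `F`, if the gap between the error probabilities is
more than one quarter. -/
theorem Gap.rand2 {X : Type} {𝒞 : (X → Bool) → Prop} {F : X → Prop} (h : Gap 𝒞 F 4 4 1)
    {Ω : Type} [Fintype Ω] (g : Ω → X → Bool) (hg : ∀ ω, 𝒞 (g ω)) {A B : ℕ}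
    (hpos : ∀ x, F x → (univ.filter (fun ω => g ω x = false)).card ≤ B)
    (hneg : ∀ x, ¬ F x → A ≤ (univ.filter (fun ω => g ω x = false)).card) :
    4 * A ≤ Fintype.card Ω + 4 * B := by
  classical
  obtain ⟨P, N, _, _, _, _, pos, neg, hP, hN, hgap⟩ := h
  have hPc : 0 < Fintype.card P := Fintype.card_pos
  have hNc : 0 < Fintype.card N := Fintype.card_pos
  obtain ⟨p, hp⟩ : ∃ p, p = Fintype.card P := ⟨_, rfl⟩
  obtain ⟨n, hn⟩ : ∃ n, n = Fintype.card N := ⟨_, rfl⟩
  obtain ⟨w, hw⟩ : ∃ w, w = Fintype.card Ω := ⟨_, rfl⟩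
  let a : Ω → ℕ := fun ω => (univ.filter (fun d => g ω (pos d) = true)).card
  let b : Ω → ℕ := fun ω => (univ.filter (fun d => g ω (neg d) = false)).card
  have hone : ∀ ω, 4 * (a ω * n + b ω * p) ≤ 5 * (p * n) := by
    intro ω
    have ha : a ω ≤ p := by rw [hp]; simpa using card_le_univ _
    have hb : b ω ≤ n := by rw [hn]; simpa using card_le_univ _
    by_cases hlt : p < 4 * a ω
    · have h1 : 4 * b ω ≤ 1 * n := by
        rw [hn]
        exact hgap (g ω) (hg ω) (by rw [← hp]; exact hlt)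
      have h2 : a ω * n ≤ p * n := Nat.mul_le_mul_right _ ha
      have h3 : 4 * b ω * p ≤ 1 * n * p := Nat.mul_le_mul_right _ h1
      nlinarith
    · have h2 : b ω * p ≤ n * p := Nat.mul_le_mul_right _ hb
      have h3 : 4 * a ω * n ≤ p * n := Nat.mul_le_mul_right _ (not_lt.mp hlt)
      nlinarith
  have hasum : p * w ≤ ∑ ω, a ω + p * B := by
    have hcomm : ∑ ω, a ω = ∑ d : P, (univ.filter (fun ω => g ω (pos d) = true)).card := by
      simp only [a, card_filter]
      exact sum_comm
    have h1 : ∀ d : P, w ≤ (univ.filter (fun ω => g ω (pos d) = true)).card + B := by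
      intro d
      have h2 := hpos _ (hP d)
      have h3 : (univ.filter (fun ω => g ω (pos d) = true)).card +
          (univ.filter (fun ω => g ω (pos d) = false)).card = w := by
        rw [hw, ← card_univ, ← card_filter_add_card_filter_not (s := univ)
          (fun ω => g ω (pos d) = true)]
        simp only [Bool.not_eq_true]
      omega
    calc p * w = ∑ _d : P, w := by
          rw [sum_const, card_univ, smul_eq_mul, ← hp]
      _ ≤ ∑ d : P, ((univ.filter (fun ω => g ω (pos d) = true)).card + B) :=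
          sum_le_sum fun d _ => h1 d
      _ = ∑ ω, a ω + p * B := by
          rw [sum_add_distrib, ← hcomm, sum_const, card_univ, smul_eq_mul, ← hp]
  have hbsum : n * A ≤ ∑ ω, b ω := by
    have hcomm : ∑ ω, b ω = ∑ d : N, (univ.filter (fun ω => g ω (neg d) = false)).card := by
      simp only [b, card_filter]
      exact sum_comm
    calc n * A = ∑ _d : N, A := by
          rw [sum_const, card_univ, smul_eq_mul, ← hn]
      _ ≤ ∑ d : N, (univ.filter (fun ω => g ω (neg d) = false)).card :=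
          sum_le_sum fun d _ => hneg _ (hN d)
      _ = ∑ ω, b ω := hcomm.symm
  have hsum : 4 * ((∑ ω, a ω) * n + (∑ ω, b ω) * p) ≤ 5 * (p * n) * w := by
    calc 4 * ((∑ ω, a ω) * n + (∑ ω, b ω) * p) = ∑ ω, 4 * (a ω * n + b ω * p) := by
          rw [← mul_sum, sum_add_distrib, sum_mul, sum_mul]
      _ ≤ ∑ _ω : Ω, 5 * (p * n) := sum_le_sum fun ω _ => hone ω
      _ = 5 * (p * n) * w := by rw [sum_const, card_univ, smul_eq_mul, ← hw]; ring
  have h1 : p * w * n ≤ (∑ ω, a ω + p * B) * n := Nat.mul_le_mul_right _ hasum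
  have h2 : n * A * p ≤ (∑ ω, b ω) * p := Nat.mul_le_mul_right _ hbsum
  have h3 : 0 < p * n := by
    rw [hp, hn]
    positivity
  rw [← hw]
  have h4 : (p * n) * (4 * A) ≤ (p * n) * (w + 4 * B) := by nlinarith
  exact Nat.le_of_mul_le_mul_left h4 h3

/-- **Two-message proof systems for the complement of the list clique language.** -/
theorem am_list {N s r : ℕ} (hr : 2 ≤ r) (hs : s < 2 ^ r) {R g A B : ℕ}
    (f : (Fin R → Bool) → (Fin g → Bool) → (Fin N → Bool) → Bool)
    (hf : ∀ ρ z, MComp (VB (Fin N)) s (f ρ z))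
    (hno : ∀ x : Fin N → Bool, hdr (200 * r ^ 8) (r ^ 2) ++ List.ofFn x ∉ LC.ListClique →
      A ≤ (univ.filter (fun ρ => ∃ z, f ρ z x = false)).card)
    (hyes : ∀ x : Fin N → Bool, hdr (200 * r ^ 8) (r ^ 2) ++ List.ofFn x ∈ LC.ListClique →
      (univ.filter (fun ρ => ∃ z, f ρ z x = false)).card ≤ B)
    (hAB : 2 ^ R + 4 * B < 4 * A) : N / (40000 * r ^ 16) < 21 * (g + 3) := by
  classical
  by_contra hge
  push Not at hge
  obtain ⟨v, hv⟩ : ∃ v, v = 200 * r ^ 8 := ⟨_, rfl⟩
  have hvv : v * v = 40000 * r ^ 16 := by rw [hv]; ring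
  rw [← hvv] at hge
  rw [← hv] at hno hyes
  have hk4 : 4 ≤ r ^ 2 := by nlinarith
  have hsq : Nat.sqrt (r ^ 2) = r := by rw [pow_two, Nat.sqrt_eq]
  have hgap := (gap_or (G := g) hge (base_gap (W := Fin v) (k := r ^ 2) (s := s)
    (by rw [Fintype.card_fin, hv, ← pow_mul]) hk4 (by rw [hsq]; exact hs))).weaken
    (α' := 4) (β' := 4) (γ' := 1) le_rfl (fun a b hab => by omega)
  have hmem : ∀ y : Fin (N / (v * v)) → SimpleGraph (Fin v),
      hdr v (r ^ 2) ++ List.ofFn (asmB N v y) ∈ LC.ListClique ↔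
        ∃ i, ¬ (y i).CliqueFree (r ^ 2) := fun y =>
    (hdr_mem _ _ _).trans (asmB_hasClique N v (r ^ 2) y)
  have hfalse : ∀ (ρ : Fin R → Bool) (x : Fin N → Bool),
      decide (∀ z, f ρ z x = true) = false ↔ ∃ z, f ρ z x = false := by
    intro ρ x
    rw [decide_eq_false_iff_not]
    push Not
    simp
  have h := hgap.rand2 (fun ρ : Fin R → Bool => fun y => decide (∀ z, f ρ z (asmB N v y) = true))
    (fun ρ => ⟨Fin g → Bool, inferInstance, fun z y => f ρ z (asmB N v y), by simp,
      fun z y y' hyy => by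
        obtain ⟨L, hL, _, hfL⟩ := hf ρ z
        exact NM.mono_of_av hL _ hfL _ _ (asmB_mono N v y y' hyy),
      fun z y i => (hf ρ z).comp (fun H => asmB N v (Function.update y i H))
        (fun b hb => asmB_base N v y i b hb),
      fun y => by simp⟩) (A := A) (B := B)
    (fun y hy => by
      simp only [hfalse]
      exact hyes _ ((hmem y).mpr hy))
    (fun y hy => by
      simp only [hfalse]
      exact hno _ (fun hc => hy ((hmem y).mp hc)))
  rw [Fintype.card_fun, Fintype.card_fin, Fintype.card_bool] at h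
  omega

end Pool.Agent.H611R2
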