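import Pool.Agent.H520R2.NM

/-!
# Alternating quantifiers over functions with small monotone circuits: definitions
-/

namespace Pool.Agent.H611R2

open Pool.Agent.H520R2 Pool.Agent.H520R2.NM

/-- `Alt e n R` is the statement `Q₁ u₁ Q₂ u₂ ... Qₙ uₙ, R (u₁, ..., uₙ)` in which the quantifiers
alternate and the first one is `∃` if `e = true` and `∀` if `e = false`. -/
def Alt {U : Type} : Bool → (n : ℕ) → ((Fin n → U) → Prop) → Prop
  | _, 0, R => R (fun i => i.elim0)
  | true, n + 1, R => ∃ u : U, Alt false n (fun w => R (Fin.cons u w))
  | false, n + 1, R => ∀ u : U, Alt true n (fun w => R (Fin.cons u w))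

/-- `AltMono e d G s F`: the predicate `F` on bit strings is given by `d` alternating blocks of
quantifiers over `G` bits each, the first block being existential if `e = true` and universal if
`e = false`, in front of Boolean functions which have, for all values `z` of the quantified bits,
monotone circuits with at most `s` gates (AND and OR of fan-in two). -/
def AltMono {ι : Type} (e : Bool) (d G s : ℕ) (F : (ι → Bool) → Prop) : Prop :=
  ∃ f : (Fin d → Fin G → Bool) → (ι → Bool) → Bool,
    (∀ z, MComp (VB ι) s (f z)) ∧ ∀ x, F x ↔ Alt e d (fun z => f z x = true)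

/-- The graph on `Fin v` with an edge between `a < b` if `x (a, b)` is one has a clique with `k`
vertices. -/
def HasClique (v k : ℕ) (x : Fin v × Fin v → Bool) : Prop :=
  ∃ S : Finset (Fin v), S.card = k ∧ ∀ a ∈ S, ∀ b ∈ S, a < b → x (a, b) = true

/-- The graph on `Fin v` with an edge between `a < b` if `x (a, b)` is one has no independent set
with `k` vertices. -/
def NoIndep (v k : ℕ) (x : Fin v × Fin v → Bool) : Prop :=
  ∀ S : Finset (Fin v), S.card = k → ∃ a ∈ S, ∃ b ∈ S, a < b ∧ x (a, b) = true

/-- The last of `d` alternating quantifiers (`true` for `∃`) of which the first one is `e`. -/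
def lastQ (e : Bool) (d : ℕ) : Bool := if d % 2 = 1 then e else !e

/-- The predicate on arrays of graphs: `m ^ d` graphs on `v` vertices are given, indexed by
`i = (i₁, ..., i_d)`. The predicate is `Q₁ i₁ Q₂ i₂ ... Q_d i_d`, with alternating quantifiers
starting with `e`, followed by the statement that the graph number `i` has a clique with `k`
vertices if the last quantifier `Q_d` is `∃`, and that it has no independent set with `k` vertices
if `Q_d` is `∀`. -/
def Tower (e : Bool) (d m v k : ℕ) (x : (Fin d → Fin m) × Fin v × Fin v → Bool) : Prop :=
  Alt e d (fun i : Fin d → Fin m => match lastQ e d with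
    | true => HasClique v k (fun p => x (i, p))
    | false => NoIndep v k (fun p => x (i, p)))

end Pool.Agent.H611R2
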