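import Mathlib

/-!
# Gaps: quantifier alternation against one-sided distinguishers

`Gap 𝒞 F α β γ` says: there are finite families of positive and of negative instances of `F` such
that every function of the class `𝒞` which accepts more than a fraction `1 / α` of the positive
instances rejects at most a fraction `γ / β` of the negative ones.
-/

namespace Pool.Agent.H611R2

open Finset

/-- There are positive and negative instances of `F` which no function of the class separates. -/
def Gap {X : Type} (𝒞 : (X → Bool) → Prop) (F : X → Prop) (α β γ : ℕ) : Prop :=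
  ∃ (P N : Type) (_ : Fintype P) (_ : Fintype N) (_ : Nonempty P) (_ : Nonempty N)
    (pos : P → X) (neg : N → X), (∀ d, F (pos d)) ∧ (∀ d, ¬ F (neg d)) ∧
    ∀ g, 𝒞 g → Fintype.card P < α * (univ.filter (fun d => g (pos d) = true)).card →
      β * (univ.filter (fun d => g (neg d) = false)).card ≤ γ * Fintype.card N

/-- No function of the class is equal to `F`. -/
theorem Gap.ne {X : Type} {𝒞 : (X → Bool) → Prop} {F : X → Prop} {α β γ : ℕ}
    (h : Gap 𝒞 F α β γ) (hα : 1 < α) (hβ : γ < β) {g : X → Bool} (hg : 𝒞 g)
    (hF : ∀ x, g x = true ↔ F x) : False := by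
  obtain ⟨P, N, _, _, _, _, pos, neg, hpos, hneg, hgap⟩ := h
  have h1 : (univ.filter (fun d => g (pos d) = true)) = univ := by
    rw [filter_eq_self]
    intro d _
    exact (hF _).mpr (hpos d)
  have h2 : (univ.filter (fun d => g (neg d) = false)) = univ := by
    rw [filter_eq_self]
    intro d _
    have := hneg d
    rw [← hF] at this
    simpa using this
  have h3 := hgap g hg
  rw [h1, h2, card_univ, card_univ] at h3
  have hP : 0 < Fintype.card P := Fintype.card_pos
  have hN : 0 < Fintype.card N := Fintype.card_pos
  have h4 := h3 (by nlinarith)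
  have h5 : γ * Fintype.card N < β * Fintype.card N := Nat.mul_lt_mul_of_pos_right hβ hN
  omega

theorem Gap.anti {X : Type} {𝒞 𝒞' : (X → Bool) → Prop} {F : X → Prop} {α β γ : ℕ}
    (h : Gap 𝒞 F α β γ) (hC : ∀ g, 𝒞' g → 𝒞 g) : Gap 𝒞' F α β γ := by
  obtain ⟨P, N, i1, i2, i3, i4, pos, neg, hpos, hneg, hgap⟩ := h
  exact ⟨P, N, i1, i2, i3, i4, pos, neg, hpos, hneg, fun g hg => hgap g (hC g hg)⟩

theorem pow_aux {t : ℕ} {a b : ℕ} (h : 4 ^ t * a ≤ 3 ^ t * b) : 2 ^ (t / 3) * a ≤ b := by
  obtain ⟨q, r, hr, rfl⟩ : ∃ q r, r < 3 ∧ t = 3 * q + r := ⟨t / 3, t % 3, Nat.mod_lt _ (by norm_num),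
    (Nat.div_add_mod t 3).symm⟩
  have hq : (3 * q + r) / 3 = q := by omega
  rw [hq]
  have h1 : 3 ^ (3 * q + r) * 2 ^ q ≤ 4 ^ (3 * q + r) := by
    calc 3 ^ (3 * q + r) * 2 ^ q = (3 ^ 3 * 2) ^ q * 3 ^ r := by
          rw [pow_add, pow_mul, mul_pow]; ring
      _ ≤ (4 ^ 3) ^ q * 4 ^ r := by
          gcongr <;> norm_num
      _ = 4 ^ (3 * q + r) := by rw [← pow_mul, ← pow_add]
  have h2 : 3 ^ (3 * q + r) * (2 ^ q * a) ≤ 3 ^ (3 * q + r) * b := by
    calc 3 ^ (3 * q + r) * (2 ^ q * a) = (3 ^ (3 * q + r) * 2 ^ q) * a := by ring
      _ ≤ 4 ^ (3 * q + r) * a := Nat.mul_le_mul_right _ h1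
      _ ≤ _ := h
  exact Nat.le_of_mul_le_mul_left h2 (by positivity)

/-- Conjunctions of at most `2 ^ G` monotone functions whose restrictions to one coordinate are in
the class. -/
def AllOf {X : Type} [Preorder X] (𝒞 : (X → Bool) → Prop) (m G : ℕ) (g : (Fin m → X) → Bool) :
    Prop :=
  ∃ (B : Type) (_ : Fintype B) (f : B → (Fin m → X) → Bool), Fintype.card B ≤ 2 ^ G ∧
    (∀ b y y', y ≤ y' → f b y ≤ f b y') ∧
    (∀ b y i, 𝒞 (fun x => f b (Function.update y i x))) ∧ ∀ y, g y = true ↔ ∀ b, f b y = true

/-- Disjunctions of at most `2 ^ G` monotone functions whose restrictions to one coordinate are in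
the class. -/
def ExOf {X : Type} [Preorder X] (𝒞 : (X → Bool) → Prop) (m G : ℕ) (g : (Fin m → X) → Bool) :
    Prop :=
  ∃ (B : Type) (_ : Fintype B) (f : B → (Fin m → X) → Bool), Fintype.card B ≤ 2 ^ G ∧
    (∀ b y y', y ≤ y' → f b y ≤ f b y') ∧
    (∀ b y i, 𝒞 (fun x => f b (Function.update y i x))) ∧ ∀ y, g y = true ↔ ∃ b, f b y = true

theorem card_filter_prod {A B : Type*} [Fintype A] [Fintype B] (p : A × B → Prop)
    [DecidablePred p] :
    (univ.filter p).card = ∑ a : A, (univ.filter (fun b => p (a, b))).card := by
  simp only [card_filter]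
  exact Fintype.sum_prod_type _

/-- **The disjunction step.** -/
theorem gap_or {X : Type} [Preorder X] [OrderBot X] {𝒞 : (X → Bool) → Prop} {F : X → Prop}
    {m G : ℕ} (hm : 21 * (G + 3) ≤ m) (h : Gap 𝒞 F 8 4 3) :
    Gap (AllOf 𝒞 m G) (fun y : Fin m → X => ∃ i, F (y i)) 4 8 1 := by
  classical
  obtain ⟨P, N, iP, iN, nP, nN, pos, neg, hpos, hneg, hgap⟩ := h
  have hPc : 0 < Fintype.card P := Fintype.card_pos
  have hNc : 0 < Fintype.card N := Fintype.card_pos
  have : Nonempty (Fin m) := ⟨⟨0, by omega⟩⟩
  refine ⟨Fin m × P, Fin m → N, inferInstance, inferInstance, inferInstance, inferInstance,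
    fun z => Function.update (fun _ => ⊥) z.1 (pos z.2), fun c i => neg (c i), ?_, ?_, ?_⟩
  · rintro ⟨i, d⟩
    exact ⟨i, by simpa using hpos d⟩
  · rintro c ⟨i, hi⟩
    exact hneg _ hi
  · rintro g ⟨B, iB, f, hB, hmono, hres, hg⟩ hacc
    rw [Fintype.card_prod, Fintype.card_fin] at hacc
    beta_reduce at hacc ⊢
    -- each member of the family rejects few tuples
    have hone : ∀ b : B, 2 ^ (G + 3) *
        (univ.filter (fun c : Fin m → N => f b (fun i => neg (c i)) = false)).card ≤
        Fintype.card N ^ m := by
      intro b
      let a : Fin m → ℕ := fun i => (univ.filter (fun d : P =>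
        f b (Function.update (fun _ => ⊥) i (pos d)) = true)).card
      let rj : Fin m → Finset N := fun i => univ.filter (fun d : N =>
        f b (Function.update (fun _ => ⊥) i (neg d)) = false)
      have hsum : m * Fintype.card P < 4 * ∑ i, a i := by
        have h1 : (univ.filter (fun z : Fin m × P =>
            g (Function.update (fun _ => ⊥) z.1 (pos z.2)) = true)).card ≤ ∑ i, a i := by
          have h2 := card_filter_prod (fun z : Fin m × P =>
            f b (Function.update (fun _ => (⊥ : X)) z.1 (pos z.2)) = true)
          rw [← h2]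
          apply card_le_card
          intro z hz
          rw [mem_filter] at hz ⊢
          exact ⟨mem_univ _, (hg _).mp hz.2 b⟩
        omega
      let good : Finset (Fin m) := univ.filter (fun i => Fintype.card P < 8 * a i)
      have hale : ∀ i, a i ≤ Fintype.card P := fun i => by
        simpa using card_le_univ (univ.filter (fun d : P =>
          f b (Function.update (fun _ => (⊥ : X)) i (pos d)) = true))
      have hgood : m < 7 * good.card := by
        have h1 : 8 * ∑ i, a i ≤ (7 * good.card + m) * Fintype.card P := by
          rw [mul_sum]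
          calc ∑ i, 8 * a i ≤ ∑ i, ((if i ∈ good then 7 * Fintype.card P else 0) +
                Fintype.card P) := by
                apply sum_le_sum
                intro i _
                split_ifs with hi
                · have := hale i
                  omega
                · simp only [good, mem_filter, mem_univ, true_and, not_lt] at hi
                  omega
            _ = (7 * good.card + m) * Fintype.card P := by
                rw [sum_add_distrib, ← sum_filter, filter_mem_eq_inter, univ_inter, sum_const,
                  sum_const, card_univ, Fintype.card_fin, smul_eq_mul, smul_eq_mul]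
                ring
        have h2 : 2 * m * Fintype.card P < (7 * good.card + m) * Fintype.card P := by
          calc 2 * m * Fintype.card P = 2 * (m * Fintype.card P) := by ring
            _ < 2 * (4 * ∑ i, a i) := by omega
            _ = 8 * ∑ i, a i := by ring
            _ ≤ _ := h1
        have h3 := Nat.lt_of_mul_lt_mul_right h2
        omega
      have hrj : ∀ i ∈ good, 4 * (rj i).card ≤ 3 * Fintype.card N := by
        intro i hi
        simp only [good, mem_filter, mem_univ, true_and] at hi
        exact hgap _ (hres b (fun _ => ⊥) i) hi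
      have hrjle : ∀ i, (rj i).card ≤ Fintype.card N := fun i => by
        simpa using card_le_univ (rj i)
      have hsub : (univ.filter (fun c : Fin m → N => f b (fun i => neg (c i)) = false)) ⊆
          Fintype.piFinset rj := by
        intro c hc
        rw [mem_filter] at hc
        rw [Fintype.mem_piFinset]
        intro i
        simp only [rj, mem_filter, mem_univ, true_and]
        have h1 := hmono b (Function.update (fun _ => ⊥) i (neg (c i))) (fun i => neg (c i)) (by
          intro j
          by_cases hj : j = i
          · subst hj; simp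
          · rw [Function.update_of_ne hj]; exact bot_le)
        rw [hc.2] at h1
        exact Bool.eq_false_of_le_false h1
      have hprod : 4 ^ good.card *
          (univ.filter (fun c : Fin m → N => f b (fun i => neg (c i)) = false)).card ≤
          3 ^ good.card * Fintype.card N ^ m := by
        calc 4 ^ good.card * _ ≤ 4 ^ good.card * ∏ i, (rj i).card := by
              rw [← Fintype.card_piFinset]
              exact Nat.mul_le_mul_left _ (card_le_card hsub)
          _ = ∏ i, (if i ∈ good then 4 else 1) * (rj i).card := by
              rw [prod_mul_distrib]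
              congr 1
              rw [← prod_filter, filter_mem_eq_inter, univ_inter, prod_const]
          _ ≤ ∏ i, (if i ∈ good then 3 else 1) * Fintype.card N := by
              apply prod_le_prod
              · intro i _; exact Nat.zero_le _
              · intro i _
                split_ifs with hi
                · exact hrj i hi
                · rw [one_mul, one_mul]; exact hrjle i
          _ = 3 ^ good.card * Fintype.card N ^ m := by
              rw [prod_mul_distrib]
              congr 1
              · rw [← prod_filter, filter_mem_eq_inter, univ_inter, prod_const]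
              · rw [prod_const, card_univ, Fintype.card_fin]
      have h1 := pow_aux hprod
      refine le_trans (Nat.mul_le_mul_right _ ?_) h1
      apply Nat.pow_le_pow_right (by norm_num)
      omega
    have hcov : (univ.filter (fun c : Fin m → N => g (fun i => neg (c i)) = false)) ⊆
        univ.biUnion (fun b : B => univ.filter (fun c : Fin m → N =>
          f b (fun i => neg (c i)) = false)) := by
      intro c hc
      rw [mem_filter] at hc
      have h1 : ¬ ∀ b, f b (fun i => neg (c i)) = true := by
        rw [← hg, hc.2]
        simp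
      push Not at h1
      obtain ⟨b, hb⟩ := h1
      rw [mem_biUnion]
      exact ⟨b, mem_univ _, by simpa using hb⟩
    have hle := (card_le_card hcov).trans card_biUnion_le
    rw [Fintype.card_fun, Fintype.card_fin, one_mul]
    have h2 : 2 ^ G * (8 * (univ.filter (fun c : Fin m → N =>
        g (fun i => neg (c i)) = false)).card) ≤ 2 ^ G * Fintype.card N ^ m := by
      calc 2 ^ G * (8 * _) = 2 ^ (G + 3) * (univ.filter (fun c : Fin m → N =>
            g (fun i => neg (c i)) = false)).card := by rw [pow_add]; ring
        _ ≤ 2 ^ (G + 3) * ∑ b : B, (univ.filter (fun c : Fin m → N =>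
            f b (fun i => neg (c i)) = false)).card := Nat.mul_le_mul_left _ hle
        _ = ∑ b : B, 2 ^ (G + 3) * (univ.filter (fun c : Fin m → N =>
            f b (fun i => neg (c i)) = false)).card := by rw [mul_sum]
        _ ≤ ∑ _b : B, Fintype.card N ^ m := sum_le_sum fun b _ => hone b
        _ = Fintype.card B * Fintype.card N ^ m := by rw [sum_const, card_univ, smul_eq_mul]
        _ ≤ _ := Nat.mul_le_mul_right _ hB
    exact Nat.le_of_mul_le_mul_left h2 (by positivity)

/-- **The conjunction step.** -/
theorem gap_and1 {X : Type} [Preorder X] [OrderTop X] {𝒞 : (X → Bool) → Prop} {F : X → Prop}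
    {m G : ℕ} (hm : 21 * (G + 3) ≤ m) (h : Gap 𝒞 F 4 8 1) :
    Gap (ExOf 𝒞 m G) (fun y : Fin m → X => ∀ i, F (y i)) 8 4 1 := by
  classical
  obtain ⟨P, N, iP, iN, nP, nN, pos, neg, hpos, hneg, hgap⟩ := h
  have hPc : 0 < Fintype.card P := Fintype.card_pos
  have hNc : 0 < Fintype.card N := Fintype.card_pos
  have : Nonempty (Fin m) := ⟨⟨0, by omega⟩⟩
  refine ⟨Fin m → P, Fin m × N, inferInstance, inferInstance, inferInstance, inferInstance,
    fun c i => pos (c i), fun z => Function.update (fun _ => ⊤) z.1 (neg z.2), ?_, ?_, ?_⟩
  · intro c i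
    exact hpos _
  · rintro ⟨i, d⟩ hall
    exact hneg d (by simpa using hall i)
  · rintro g ⟨B, iB, f, hB, hmono, hres, hg⟩ hacc
    rw [Fintype.card_fun, Fintype.card_fin] at hacc
    beta_reduce at hacc ⊢
    -- some member of the family accepts many tuples
    obtain ⟨b, hb⟩ : ∃ b : B, Fintype.card P ^ m < 2 ^ (G + 3) *
        (univ.filter (fun c : Fin m → P => f b (fun i => pos (c i)) = true)).card := by
      by_contra hno
      push Not at hno
      have hcov : (univ.filter (fun c : Fin m → P => g (fun i => pos (c i)) = true)) ⊆
          univ.biUnion (fun b : B => univ.filter (fun c : Fin m → P =>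
            f b (fun i => pos (c i)) = true)) := by
        intro c hc
        rw [mem_filter] at hc
        obtain ⟨b, hb⟩ := (hg _).mp hc.2
        rw [mem_biUnion]
        exact ⟨b, mem_univ _, by simpa using hb⟩
      have hle := (card_le_card hcov).trans card_biUnion_le
      have h2 : 2 ^ G * (8 * (univ.filter (fun c : Fin m → P =>
          g (fun i => pos (c i)) = true)).card) ≤ 2 ^ G * Fintype.card P ^ m := by
        calc 2 ^ G * (8 * _) = 2 ^ (G + 3) * (univ.filter (fun c : Fin m → P =>
              g (fun i => pos (c i)) = true)).card := by rw [pow_add]; ring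
          _ ≤ 2 ^ (G + 3) * ∑ b : B, (univ.filter (fun c : Fin m → P =>
              f b (fun i => pos (c i)) = true)).card := Nat.mul_le_mul_left _ hle
          _ = ∑ b : B, 2 ^ (G + 3) * (univ.filter (fun c : Fin m → P =>
              f b (fun i => pos (c i)) = true)).card := by rw [mul_sum]
          _ ≤ ∑ _b : B, Fintype.card P ^ m := sum_le_sum fun b _ => hno b
          _ = Fintype.card B * Fintype.card P ^ m := by rw [sum_const, card_univ, smul_eq_mul]
          _ ≤ _ := Nat.mul_le_mul_right _ hB
      have h3 := Nat.le_of_mul_le_mul_left h2 (by positivity)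
      omega
    let ac : Fin m → Finset P := fun i => univ.filter (fun d : P =>
      f b (Function.update (fun _ => ⊤) i (pos d)) = true)
    let rj : Fin m → Finset N := fun i => univ.filter (fun d : N =>
      f b (Function.update (fun _ => ⊤) i (neg d)) = false)
    let bad : Finset (Fin m) := univ.filter (fun i => 4 * (ac i).card ≤ Fintype.card P)
    have hacle : ∀ i, (ac i).card ≤ Fintype.card P := fun i => by
      simpa using card_le_univ (ac i)
    have hrjle : ∀ i, (rj i).card ≤ Fintype.card N := fun i => by
      simpa using card_le_univ (rj i)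
    have hsub : (univ.filter (fun c : Fin m → P => f b (fun i => pos (c i)) = true)) ⊆
        Fintype.piFinset ac := by
      intro c hc
      rw [mem_filter] at hc
      rw [Fintype.mem_piFinset]
      intro i
      simp only [ac, mem_filter, mem_univ, true_and]
      have h1 := hmono b (fun i => pos (c i)) (Function.update (fun _ => ⊤) i (pos (c i))) (by
        intro j
        by_cases hj : j = i
        · subst hj; simp
        · rw [Function.update_of_ne hj]; exact le_top)
      rw [hc.2] at h1
      exact Bool.eq_true_of_true_le h1
    have hprod : 4 ^ bad.card *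
        (univ.filter (fun c : Fin m → P => f b (fun i => pos (c i)) = true)).card ≤
        Fintype.card P ^ m := by
      calc 4 ^ bad.card * _ ≤ 4 ^ bad.card * ∏ i, (ac i).card := by
            rw [← Fintype.card_piFinset]
            exact Nat.mul_le_mul_left _ (card_le_card hsub)
        _ = ∏ i, (if i ∈ bad then 4 else 1) * (ac i).card := by
            rw [prod_mul_distrib]
            congr 1
            rw [← prod_filter, filter_mem_eq_inter, univ_inter, prod_const]
        _ ≤ ∏ _i : Fin m, Fintype.card P := by
            apply prod_le_prod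
            · intro i _; exact Nat.zero_le _
            · intro i _
              split_ifs with hi
              · simpa [bad] using hi
              · rw [one_mul]; exact hacle i
        _ = Fintype.card P ^ m := by rw [prod_const, card_univ, Fintype.card_fin]
    have hbad : 2 * bad.card < G + 3 := by
      have h1 : 4 ^ bad.card * Fintype.card P ^ m < 2 ^ (G + 3) * Fintype.card P ^ m := by
        calc 4 ^ bad.card * Fintype.card P ^ m < 4 ^ bad.card * (2 ^ (G + 3) *
              (univ.filter (fun c : Fin m → P => f b (fun i => pos (c i)) = true)).card) :=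
              Nat.mul_lt_mul_of_pos_left hb (by positivity)
          _ = 2 ^ (G + 3) * (4 ^ bad.card *
              (univ.filter (fun c : Fin m → P => f b (fun i => pos (c i)) = true)).card) := by ring
          _ ≤ _ := Nat.mul_le_mul_left _ hprod
      have h2 : 4 ^ bad.card < 2 ^ (G + 3) := Nat.lt_of_mul_lt_mul_right h1
      have h3 : (4 : ℕ) ^ bad.card = 2 ^ (2 * bad.card) := by rw [pow_mul]; norm_num
      rw [h3] at h2
      exact (Nat.pow_lt_pow_iff_right (by norm_num)).mp h2
    have hrej : 8 * ∑ i, (rj i).card ≤ (7 * bad.card + m) * Fintype.card N := by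
      rw [mul_sum]
      calc ∑ i, 8 * (rj i).card ≤ ∑ i, ((if i ∈ bad then 7 * Fintype.card N else 0) +
            Fintype.card N) := by
            apply sum_le_sum
            intro i _
            split_ifs with hi
            · have := hrjle i
              omega
            · simp only [bad, mem_filter, mem_univ, true_and, not_le] at hi
              have := hgap _ (hres b (fun _ => ⊤) i) hi
              simp only [rj]
              omega
        _ = (7 * bad.card + m) * Fintype.card N := by
            rw [sum_add_distrib, ← sum_filter, filter_mem_eq_inter, univ_inter, sum_const,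
              sum_const, card_univ, Fintype.card_fin, smul_eq_mul, smul_eq_mul]
            ring
    have hle : (univ.filter (fun z : Fin m × N =>
        g (Function.update (fun _ => ⊤) z.1 (neg z.2)) = false)).card ≤ ∑ i, (rj i).card := by
      have h2 := card_filter_prod (fun z : Fin m × N =>
        f b (Function.update (fun _ => (⊤ : X)) z.1 (neg z.2)) = false)
      rw [← h2]
      apply card_le_card
      intro z hz
      rw [mem_filter] at hz ⊢
      refine ⟨mem_univ _, ?_⟩
      by_contra hne
      have h3 : g (Function.update (fun _ => ⊤) z.1 (neg z.2)) = true :=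
        (hg _).mpr ⟨b, by simpa using hne⟩
      rw [h3] at hz
      exact absurd hz.2 (by simp)
    rw [Fintype.card_prod, Fintype.card_fin]
    have h4 : 8 * (univ.filter (fun z : Fin m × N =>
        g (Function.update (fun _ => ⊤) z.1 (neg z.2)) = false)).card ≤
        (7 * bad.card + m) * Fintype.card N := le_trans (Nat.mul_le_mul_left _ hle) hrej
    have h5 : (7 * bad.card + m) * Fintype.card N ≤ (2 * m) * Fintype.card N := by
      apply Nat.mul_le_mul_right
      omega
    have h6 : 2 * (4 * (univ.filter (fun z : Fin m × N =>
        g (Function.update (fun _ => ⊤) z.1 (neg z.2)) = false)).card) ≤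
        2 * (1 * (m * Fintype.card N)) := by
      calc 2 * (4 * _) = 8 * (univ.filter (fun z : Fin m × N =>
            g (Function.update (fun _ => ⊤) z.1 (neg z.2)) = false)).card := by ring
        _ ≤ (2 * m) * Fintype.card N := h4.trans h5
        _ = _ := by ring
    omega

theorem Gap.weaken {X : Type} {𝒞 : (X → Bool) → Prop} {F : X → Prop} {α α' β β' γ γ' : ℕ}
    (h : Gap 𝒞 F α β γ) (hα : α' ≤ α)
    (hβ : ∀ a b, β * a ≤ γ * b → β' * a ≤ γ' * b) : Gap 𝒞 F α' β' γ' := by
  obtain ⟨P, N, i1, i2, i3, i4, pos, neg, hpos, hneg, hgap⟩ := h
  exact ⟨P, N, i1, i2, i3, i4, pos, neg, hpos, hneg, fun g hg hlt =>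
    hβ _ _ (hgap g hg (lt_of_lt_of_le hlt (Nat.mul_le_mul_right _ hα)))⟩

/-- The conjunction step, with the parameters of the base case. -/
theorem gap_and {X : Type} [Preorder X] [OrderTop X] {𝒞 : (X → Bool) → Prop} {F : X → Prop}
    {m G : ℕ} (hm : 21 * (G + 3) ≤ m) (h : Gap 𝒞 F 4 8 1) :
    Gap (ExOf 𝒞 m G) (fun y : Fin m → X => ∀ i, F (y i)) 8 4 3 :=
  (gap_and1 hm h).weaken le_rfl (fun a b hab => by omega)

end Pool.Agent.H611R2
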