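import Pool.Agent.H611R2.OneBlockPos
import Pool.Agent.H611R2.Gap

/-!
# The gap for small monotone circuits against the clique function
-/

namespace Pool.Agent.H611R2

open Finset Pool.Agent.H520R2

/-- **The base of the induction.** -/
theorem base_gap {W : Type} [Fintype W] [DecidableEq W] {k s : ℕ}
    (hW : 200 * k ^ 4 ≤ Fintype.card W) (hk : 4 ≤ k)
    (hs : s < 2 ^ Nat.sqrt k) :
    Gap (MComp (GB W) s) (fun G : SimpleGraph W => ¬ G.CliqueFree k) 8 4 3 := by
  classical
  obtain ⟨emb⟩ := exists_emb (W := W) hW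
  obtain ⟨l, hl⟩ : ∃ l, l = Nat.sqrt k := ⟨_, rfl⟩
  rw [← hl] at hs emb
  have hl2 : 2 ≤ l := by
    rw [hl, Nat.le_sqrt]; omega
  have hll : l * l ≤ k := by rw [hl]; exact Nat.sqrt_le k
  have hll1 : l * (l - 1) ≤ k - 1 := by
    obtain ⟨r, hr⟩ : ∃ r, l = r + 1 := ⟨l - 1, by omega⟩
    rw [hr] at hll ⊢
    simp only [Nat.add_sub_cancel]
    have : (r + 1) * (r + 1) = (r + 1) * r + r + 1 := by ring
    omega
  have hpos6 : 1 ≤ l ^ 6 := Nat.one_le_pow _ _ (by omega)
  have hp2 : 2 ≤ 10 * l ^ 2 := by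
    have : 1 ≤ l ^ 2 := Nat.one_le_pow _ _ (by omega)
    omega
  have hq1 : 1 ≤ 200 * l ^ 6 := by omega
  have hκ : 1 ≤ k - 1 := by omega
  have : Nonempty (Fin (200 * l ^ 6)) := ⟨⟨0, by omega⟩⟩
  have : Nonempty (Fin (k - 1)) := ⟨⟨0, by omega⟩⟩
  refine ⟨Fin k → Fin (200 * l ^ 6), W → Fin (k - 1), inferInstance, inferInstance, inferInstance,
    inferInstance, posG emb, negG, posG_not_cliqueFree emb emb.injective,
    fun c => not_not_intro (negG_cliqueFree (by omega) c), ?_⟩
  intro f hf hacc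
  obtain ⟨_, h2⟩ := arith_few (k := k) hl2 hs
  have hM := arith1 l (by omega)
  obtain ⟨L, hL, hs', hfL⟩ := hf
  obtain ⟨EP, EN, hEN, hEP, hall⟩ :=
    appr_prog (κ := k - 1) emb emb.injective hq1 hκ hl2 hll1 hp2 L hL
  obtain ⟨A, hA1, _, hA3, hA4⟩ := hall f hfL
  rcases A.eq_empty_or_nonempty with hA | ⟨S, hS⟩
  · exfalso
    have hsub : (univ.filter (fun d : Fin k → Fin (200 * l ^ 6) => f (posG emb d) = true)) ⊆ EP := by
      intro π hπ
      rw [mem_filter] at hπ
      by_contra hE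
      obtain ⟨S, hS, _⟩ := hA3 π hE hπ.2
      rw [hA] at hS
      simp at hS
    have h3 : EP.card * (200 * l ^ 6) ≤ (200 * l ^ 6) ^ k := by
      have h4 : s * ((10 * l ^ 2) ^ l * l.factorial) ^ 2 ≤ (200 * l ^ 6) ^ l := by
        calc s * ((10 * l ^ 2) ^ l * l.factorial) ^ 2
            ≤ 2 ^ l * ((10 * l ^ 2) ^ l * l.factorial) ^ 2 := Nat.mul_le_mul_right _ hs.le
          _ ≤ 2 ^ l * (100 * l ^ 6) ^ l := Nat.mul_le_mul_left _ hM
          _ = (200 * l ^ 6) ^ l := by rw [← mul_pow]; congr 1; ring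
      have hqpos : 0 < (200 * l ^ 6) ^ l := by positivity
      have h5 : (200 * l ^ 6) ^ l * (EP.card * (200 * l ^ 6)) ≤
          (200 * l ^ 6) ^ l * (200 * l ^ 6) ^ k := by
        calc (200 * l ^ 6) ^ l * (EP.card * (200 * l ^ 6)) = EP.card * (200 * l ^ 6) ^ (l + 1) := by
              ring
          _ ≤ L.length * (((10 * l ^ 2) ^ l * l.factorial) ^ 2 * (200 * l ^ 6) ^ k) := hEP
          _ ≤ s * (((10 * l ^ 2) ^ l * l.factorial) ^ 2 * (200 * l ^ 6) ^ k) :=
              Nat.mul_le_mul_right _ hs'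
          _ = s * ((10 * l ^ 2) ^ l * l.factorial) ^ 2 * (200 * l ^ 6) ^ k := by ring
          _ ≤ _ := Nat.mul_le_mul_right _ h4
      exact Nat.le_of_mul_le_mul_left h5 hqpos
    have h6 := card_le_card hsub
    rw [Fintype.card_fun, Fintype.card_fin, Fintype.card_fin] at hacc
    have h7 : 8 * EP.card ≤ EP.card * (200 * l ^ 6) := by
      rw [mul_comm]
      exact Nat.mul_le_mul_left _ (by omega)
    omega
  · have hbad := bad_card hκ hll1 (∅ : Finset W) {S} (by
      intro T hT; rw [mem_singleton] at hT; rw [hT]; exact hA1 S hS) (by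
      intro T hT T' hT' hne
      rw [mem_singleton] at hT hT'
      exact absurd (hT.trans hT'.symm) hne)
    rw [card_singleton, pow_one] at hbad
    have hcov : (univ.filter (fun c : W → Fin (k - 1) => f (negG c) = false)) ⊆
        EN ∪ bad (k - 1) ∅ {S} := by
      intro c hc
      rw [mem_filter] at hc
      rw [mem_union]
      by_cases hcE : c ∈ EN
      · exact Or.inl hcE
      · right
        simp only [bad, mem_filter, mem_univ, true_and, mem_singleton, forall_eq, coe_empty]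
        refine ⟨Set.injOn_empty c, fun hinj => ?_⟩
        have := hA4 c hcE ⟨S, hS, hinj⟩
        rw [hc.2] at this
        exact absurd this (by simp)
    have hcard := (card_le_card hcov).trans (card_union_le _ _)
    have hEN4 : 4 * EN.card ≤ (k - 1) ^ Fintype.card W := by
      have h3 : 2 ^ (10 * l ^ 2) * (4 * EN.card) ≤
          2 ^ (10 * l ^ 2) * (k - 1) ^ Fintype.card W := by
        calc 2 ^ (10 * l ^ 2) * (4 * EN.card) = 4 * (EN.card * 2 ^ (10 * l ^ 2)) := by ring
          _ ≤ 4 * (L.length * (((10 * l ^ 2) ^ l * l.factorial) ^ 2 *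
              (k - 1) ^ Fintype.card W)) := Nat.mul_le_mul_left _ hEN
          _ ≤ 4 * (s * (((10 * l ^ 2) ^ l * l.factorial) ^ 2 * (k - 1) ^ Fintype.card W)) := by
              gcongr
          _ = 4 * (s * ((10 * l ^ 2) ^ l * l.factorial) ^ 2) * (k - 1) ^ Fintype.card W := by ring
          _ ≤ 2 ^ (10 * l ^ 2) * (k - 1) ^ Fintype.card W := Nat.mul_le_mul_right _ h2
      exact Nat.le_of_mul_le_mul_left h3 (by positivity)
    rw [Fintype.card_fun, Fintype.card_fin]
    omega

end Pool.Agent.H611R2
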