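import Pool.Agent.H611R2.AltDefs
import Pool.Agent.H611R2.BaseGap

/-!
# The gap for alternating quantifiers
-/

namespace Pool.Agent.H611R2

open Finset Pool.Agent.H520R2

theorem Alt.congr {U : Type} {n : ℕ} : ∀ {e : Bool} {R R' : (Fin n → U) → Prop},
    (∀ w, R w ↔ R' w) → (Alt e n R ↔ Alt e n R') := by
  induction n with
  | zero => intro e R R' h; cases e <;> exact h _
  | succ n ih =>
    intro e R R' h
    cases e
    · exact forall_congr' fun u => ih fun w => h _
    · exact exists_congr fun u => ih fun w => h _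

theorem not_alt {U : Type} {n : ℕ} : ∀ {e : Bool} {R : (Fin n → U) → Prop},
    (¬ Alt e n R ↔ Alt (!e) n (fun w => ¬ R w)) := by
  induction n with
  | zero => intro e R; cases e <;> exact Iff.rfl
  | succ n ih =>
    intro e R
    cases e
    · change (¬ ∀ u, _) ↔ ∃ u, _
      rw [not_forall]
      exact exists_congr fun u => ih
    · change (¬ ∃ u, _) ↔ ∀ u, _
      rw [not_exists]
      exact forall_congr' fun u => ih

theorem Gap.map {X X' : Type} {𝒞 : (X → Bool) → Prop} {𝒞' : (X' → Bool) → Prop} {F : X → Prop}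
    {F' : X' → Prop} {α β γ : ℕ} (h : Gap 𝒞 F α β γ) (e : X → X') (hF : ∀ x, F' (e x) ↔ F x)
    (hC : ∀ g, 𝒞' g → 𝒞 (fun x => g (e x))) : Gap 𝒞' F' α β γ := by
  obtain ⟨P, N, i1, i2, i3, i4, pos, neg, hpos, hneg, hgap⟩ := h
  exact ⟨P, N, i1, i2, i3, i4, fun d => e (pos d), fun d => e (neg d),
    fun d => (hF _).mpr (hpos d), fun d h => hneg d ((hF _).mp h), fun g hg => hgap _ (hC g hg)⟩

/-- Functions given by alternating quantifiers over at most `2 ^ G` values. -/
def Cls {X : Type} (B : Set (X → Bool)) (s G : ℕ) : Bool → ℕ → (X → Bool) → Prop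
  | _, 0, g => MComp B s g
  | true, d + 1, g => ∃ (Z : Type) (_ : Fintype Z) (f : Z → X → Bool), Fintype.card Z ≤ 2 ^ G ∧
      (∀ z, Cls B s G false d (f z)) ∧ ∀ x, g x = true ↔ ∃ z, f z x = true
  | false, d + 1, g => ∃ (Z : Type) (_ : Fintype Z) (f : Z → X → Bool), Fintype.card Z ≤ 2 ^ G ∧
      (∀ z, Cls B s G true d (f z)) ∧ ∀ x, g x = true ↔ ∀ z, f z x = true

theorem Cls.comp {X X' : Type} {B : Set (X → Bool)} {B' : Set (X' → Bool)} (φ : X' → X)
    (hB : ∀ b ∈ B, b ∘ φ ∈ B') {s G d : ℕ} : ∀ {e : Bool} {g : X → Bool}, Cls B s G e d g →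
      Cls B' s G e d (fun x => g (φ x)) := by
  induction d with
  | zero =>
    intro e g h
    have h' : MComp B s g := by cases e <;> exact h
    have := h'.comp φ hB
    cases e <;> exact this
  | succ d ih =>
    intro e g h
    cases e
    · obtain ⟨Z, iZ, f, hZ, hf, hg⟩ := h
      exact ⟨Z, iZ, fun z x => f z (φ x), hZ, fun z => ih (hf z), fun x => hg _⟩
    · obtain ⟨Z, iZ, f, hZ, hf, hg⟩ := h
      exact ⟨Z, iZ, fun z x => f z (φ x), hZ, fun z => ih (hf z), fun x => hg _⟩

theorem mono_mcomp {X : Type} [Preorder X] {B : Set (X → Bool)}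
    (hB : ∀ b ∈ B, ∀ x y : X, x ≤ y → b x ≤ b y) {s : ℕ} {g : X → Bool} (hg : MComp B s g) :
    ∀ x y : X, x ≤ y → g x ≤ g y := by
  obtain ⟨L, hL, hlen, hf⟩ := hg
  have key : ∀ f, (f ∈ B ∨ f ∈ L) → ∀ x y : X, x ≤ y → f x ≤ f y := by
    clear hf hlen
    induction hL with
    | nil =>
      intro f hf x y hxy
      rcases hf with hf | hf
      · exact hB f hf x y hxy
      · simp at hf
    | @and L f g _ hf hg ih =>
      intro h hh x y hxy
      rcases hh with hh | hh
      · exact hB h hh x y hxy
      · rcases List.mem_cons.mp hh with rfl | hh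
        · exact NM.band_mono (ih f hf x y hxy) (ih g hg x y hxy)
        · exact ih h (Or.inr hh) x y hxy
    | @or L f g _ hf hg ih =>
      intro h hh x y hxy
      rcases hh with hh | hh
      · exact hB h hh x y hxy
      · rcases List.mem_cons.mp hh with rfl | hh
        · exact NM.bor_mono (ih f hf x y hxy) (ih g hg x y hxy)
        · exact ih h (Or.inr hh) x y hxy
  exact key g hf

theorem Cls.mono {X : Type} [Preorder X] {B : Set (X → Bool)}
    (hB : ∀ b ∈ B, ∀ x y : X, x ≤ y → b x ≤ b y) {s G d : ℕ} :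
    ∀ {e : Bool} {g : X → Bool}, Cls B s G e d g → ∀ x y : X, x ≤ y → g x ≤ g y := by
  induction d with
  | zero =>
    intro e g h
    have h' : MComp B s g := by cases e <;> exact h
    exact mono_mcomp hB h'
  | succ d ih =>
    intro e g h x y hxy
    cases e
    · obtain ⟨Z, iZ, f, hZ, hf, hg⟩ := h
      by_cases hgx : g x = true
      · have : g y = true := by
          rw [hg] at hgx ⊢
          intro z
          have := ih (hf z) x y hxy
          rw [hgx z] at this
          exact Bool.eq_true_of_true_le this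
        rw [this]
        exact Bool.le_true _
      · rw [Bool.not_eq_true] at hgx
        rw [hgx]
        exact Bool.false_le _
    · obtain ⟨Z, iZ, f, hZ, hf, hg⟩ := h
      by_cases hgx : g x = true
      · have : g y = true := by
          rw [hg] at hgx ⊢
          obtain ⟨z, hz⟩ := hgx
          have := ih (hf z) x y hxy
          rw [hz] at this
          exact ⟨z, Bool.eq_true_of_true_le this⟩
        rw [this]
        exact Bool.le_true _
      · rw [Bool.not_eq_true] at hgx
        rw [hgx]
        exact Bool.false_le _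

/-- Functions given by quantifiers over blocks are in the class. -/
theorem cls_of_alt {X Z : Type} [Fintype Z] {B : Set (X → Bool)} {s G d : ℕ}
    (hZ : Fintype.card Z ≤ 2 ^ G) : ∀ {e : Bool} (f : (Fin d → Z) → X → Bool)
      (_ : ∀ z, MComp B s (f z)) (g : X → Bool)
      (_ : ∀ x, g x = true ↔ Alt e d (fun z => f z x = true)), Cls B s G e d g := by
  classical
  induction d with
  | zero =>
    intro e f hf g hg
    have : g = f (fun i => i.elim0) := by
      funext x
      rw [Bool.eq_iff_iff, hg x]
      cases e <;> exact Iff.rfl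
    have h : MComp B s g := by rw [this]; exact hf _
    cases e <;> exact h
  | succ d ih =>
    intro e f hf g hg
    cases e
    · refine ⟨Z, inferInstance, fun u x => decide (Alt true d (fun w => f (Fin.cons u w) x = true)),
        hZ, fun u => ih (fun w => f (Fin.cons u w)) (fun w => hf _) _ (fun x => by simp), ?_⟩
      intro x
      rw [hg x]
      simp only [decide_eq_true_eq]
      exact Iff.rfl
    · refine ⟨Z, inferInstance,
        fun u x => decide (Alt false d (fun w => f (Fin.cons u w) x = true)),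
        hZ, fun u => ih (fun w => f (Fin.cons u w)) (fun w => hf _) _ (fun x => by simp), ?_⟩
      intro x
      rw [hg x]
      simp only [decide_eq_true_eq]
      exact Iff.rfl

/-- Free functions on arrays of graphs. -/
def GA (J W : Type) : Set ((J → SimpleGraph W) → Bool) :=
  {f | (∃ b, f = fun _ => b) ∨ ∃ i u v, f = fun y => adjFn u v (y i)}

theorem ga_mono {J W : Type} : ∀ b ∈ GA J W, ∀ x y : J → SimpleGraph W, x ≤ y → b x ≤ b y := by
  rintro b (⟨b, rfl⟩ | ⟨i, u, v, rfl⟩) x y hxy
  · exact le_rfl
  · beta_reduce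
    by_cases h : adjFn u v (x i) = true
    · have : adjFn u v (y i) = true := by
        simp only [adjFn, decide_eq_true_eq] at h ⊢
        exact hxy i h
      rw [this]
      exact Bool.le_true _
    · rw [Bool.not_eq_true] at h
      rw [h]
      exact Bool.false_le _

/-- Arrays of arrays are arrays. -/
def glue {d m : ℕ} {W : Type} (y : Fin m → (Fin d → Fin m) → SimpleGraph W) :
    (Fin (d + 1) → Fin m) → SimpleGraph W := fun i => y (i 0) (Fin.tail i)

theorem glue_cons {d m : ℕ} {W : Type} (y : Fin m → (Fin d → Fin m) → SimpleGraph W) (u : Fin m)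
    (w : Fin d → Fin m) : glue y (Fin.cons u w) = y u w := by
  unfold glue
  rw [Fin.cons_zero, Fin.tail_cons]

theorem glue_mono {d m : ℕ} {W : Type} {y y' : Fin m → (Fin d → Fin m) → SimpleGraph W}
    (h : y ≤ y') : glue y ≤ glue y' := fun i => h _ _

theorem glue_base {d m : ℕ} {W : Type} (y : Fin m → (Fin d → Fin m) → SimpleGraph W) (i : Fin m)
    (b : ((Fin (d + 1) → Fin m) → SimpleGraph W) → Bool) (hb : b ∈ GA (Fin (d + 1) → Fin m) W) :
    (b ∘ fun x => glue (Function.update y i x)) ∈ GA (Fin d → Fin m) W := by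
  rcases hb with ⟨b, rfl⟩ | ⟨j, u, v, rfl⟩
  · exact Or.inl ⟨b, rfl⟩
  · by_cases hj : j 0 = i
    · right
      refine ⟨Fin.tail j, u, v, ?_⟩
      funext x
      simp only [Function.comp, glue]
      rw [hj, Function.update_self]
    · left
      refine ⟨adjFn u v (y (j 0) (Fin.tail j)), ?_⟩
      funext x
      simp only [Function.comp, glue]
      rw [Function.update_of_ne hj]

/-- The gap at all levels. -/
theorem tower_gap {W : Type} [Fintype W] [DecidableEq W] {k s m G : ℕ}
    (hW : 200 * k ^ 4 ≤ Fintype.card W) (hk : 4 ≤ k) (hs : s < 2 ^ Nat.sqrt k)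
    (hm : 21 * (G + 3) ≤ m) (d : ℕ) :
    (d % 2 = 1 → Gap (Cls (GA (Fin d → Fin m) W) s G false d)
      (fun y => Alt true d (fun i => ¬ (y i).CliqueFree k)) 4 8 1) ∧
    (d % 2 = 0 → Gap (Cls (GA (Fin d → Fin m) W) s G true d)
      (fun y => Alt false d (fun i => ¬ (y i).CliqueFree k)) 8 4 3) := by
  induction d with
  | zero =>
    refine ⟨fun h => absurd h (by norm_num), fun _ => ?_⟩
    refine (base_gap hW hk hs).map (fun H => fun _ => H) (fun H => Iff.rfl) ?_
    intro g hg
    have hg' : MComp (GA (Fin 0 → Fin m) W) s g := hg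
    refine hg'.comp (fun H => fun _ => H) ?_
    rintro b (⟨b, rfl⟩ | ⟨i, u, v, rfl⟩)
    · exact Or.inl ⟨b, rfl⟩
    · exact Or.inr ⟨u, v, rfl⟩
  | succ d ih =>
    refine ⟨fun h => ?_, fun h => ?_⟩
    · have ih' := ih.2 (by omega)
      refine (gap_or hm ih').map glue (fun y => ?_) ?_
      · change (∃ u, Alt false d (fun w => ¬ (glue y (Fin.cons u w)).CliqueFree k)) ↔ _
        simp only [glue_cons]
      · intro g hg
        obtain ⟨Z, iZ, f, hZ, hf, hfg⟩ := hg
        refine ⟨Z, iZ, fun z y => f z (glue y), hZ, ?_, ?_, fun y => hfg _⟩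
        · intro z y y' hyy
          exact (hf z).mono ga_mono _ _ (glue_mono hyy)
        · intro z y i
          exact (hf z).comp (fun x => glue (Function.update y i x)) (glue_base y i)
    · have ih' := ih.1 (by omega)
      refine (gap_and hm ih').map glue (fun y => ?_) ?_
      · change (∀ u, Alt true d (fun w => ¬ (glue y (Fin.cons u w)).CliqueFree k)) ↔ _
        simp only [glue_cons]
      · intro g hg
        obtain ⟨Z, iZ, f, hZ, hf, hfg⟩ := hg
        refine ⟨Z, iZ, fun z y => f z (glue y), hZ, ?_, ?_, fun y => hfg _⟩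
        · intro z y y' hyy
          exact (hf z).mono ga_mono _ _ (glue_mono hyy)
        · intro z y i
          exact (hf z).comp (fun x => glue (Function.update y i x)) (glue_base y i)

end Pool.Agent.H611R2
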