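import Pool.Agent.H611R2.AltGap

/-!
# The hierarchy theorem for alternating quantifiers over small monotone circuits
-/

namespace Pool.Agent.H611R2

open Finset Pool.Agent.H520R2 Pool.Agent.H520R2.NM

/-! ### lower bound -/

theorem hasClique_iff {v k : ℕ} (H : SimpleGraph (Fin v)) (x : Fin v × Fin v → Bool)
    (hx : ∀ a b : Fin v, x (a, b) = true ↔ H.Adj a b) : HasClique v k x ↔ ¬ H.CliqueFree k := by
  constructor
  · rintro ⟨S, hS, hcl⟩ hfree
    apply hfree S
    rw [SimpleGraph.isNClique_iff]
    refine ⟨?_, hS⟩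
    intro a ha b hb hab
    rcases lt_or_gt_of_ne hab with h | h
    · exact (hx a b).mp (hcl a ha b hb h)
    · exact ((hx b a).mp (hcl b hb a ha h)).symm
  · intro h
    rw [SimpleGraph.CliqueFree] at h
    push Not at h
    obtain ⟨S, hS⟩ := h
    rw [SimpleGraph.isNClique_iff] at hS
    exact ⟨S, hS.2, fun a ha b hb hab => (hx a b).mpr (hS.1 ha hb (ne_of_lt hab))⟩

open Classical in
/-- Arrays of graphs as bit strings. -/
noncomputable def bitsOf {J : Type} {v : ℕ} (y : J → SimpleGraph (Fin v)) :
    J × Fin v × Fin v → Bool := fun p => decide ((y p.1).Adj p.2.1 p.2.2)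

theorem bitsOf_base {J : Type} {v : ℕ} (b : (J × Fin v × Fin v → Bool) → Bool)
    (hb : b ∈ VB (J × Fin v × Fin v)) :
    (b ∘ fun y : J → SimpleGraph (Fin v) => bitsOf y) ∈ GA J (Fin v) := by
  rcases hb with ⟨b, rfl⟩ | ⟨⟨i, u, v⟩, rfl⟩
  · exact Or.inl ⟨b, rfl⟩
  · exact Or.inr ⟨i, u, v, rfl⟩

theorem lower_ex {d m G s r : ℕ} (hr : 2 ≤ r) (hm : 21 * (G + 3) ≤ m) (hs : s < 2 ^ r) {e : Bool}
    (he : lastQ e d = true) :
    ¬ AltMono (!e) d G s (Tower e d m (200 * r ^ 8) (r ^ 2)) := by
  classical
  rintro ⟨f, hf, hF⟩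
  have hk4 : 4 ≤ r ^ 2 := by nlinarith
  have hsq : Nat.sqrt (r ^ 2) = r := by rw [pow_two, Nat.sqrt_eq]
  have hgap := tower_gap (W := Fin (200 * r ^ 8)) (k := r ^ 2) (s := s) (m := m) (G := G)
    (by rw [Fintype.card_fin, ← pow_mul]) hk4 (by rw [hsq]; exact hs) hm d
  have hcomp : ∀ z, MComp (GA (Fin d → Fin m) (Fin (200 * r ^ 8))) s
      (fun y => f z (bitsOf y)) := fun z => (hf z).comp bitsOf bitsOf_base
  have hcard : Fintype.card (Fin G → Bool) ≤ 2 ^ G := by simp
  have hT : ∀ y : (Fin d → Fin m) → SimpleGraph (Fin (200 * r ^ 8)),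
      Tower e d m (200 * r ^ 8) (r ^ 2) (bitsOf y) ↔
        Alt e d (fun i => ¬ (y i).CliqueFree (r ^ 2)) := by
    intro y
    unfold Tower
    rw [he]
    exact Alt.congr fun i => hasClique_iff (y i) _ (fun a b => by simp [bitsOf])
  have key : ∀ y : (Fin d → Fin m) → SimpleGraph (Fin (200 * r ^ 8)),
      Alt (!e) d (fun z => f z (bitsOf y) = true) ↔ Alt e d (fun i => ¬ (y i).CliqueFree (r ^ 2)) :=
    fun y => (hF _).symm.trans (hT y)
  rcases Nat.mod_two_eq_zero_or_one d with hd | hd
  · have he' : e = false := by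
      unfold lastQ at he
      rw [if_neg (by omega)] at he
      cases e
      · rfl
      · exact absurd he (by simp)
    subst he'
    have hcls := cls_of_alt (e := true) (s := s) hcard (fun z y => f z (bitsOf y)) hcomp
      (fun y => decide (Alt true d (fun z => f z (bitsOf y) = true))) (fun y => by simp)
    exact (hgap.2 hd).ne (by norm_num) (by norm_num) hcls
      (fun y => by rw [decide_eq_true_eq]; exact key y)
  · have he' : e = true := by
      unfold lastQ at he
      rw [if_pos hd] at he
      exact he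
    subst he'
    have hcls := cls_of_alt (e := false) (s := s) hcard (fun z y => f z (bitsOf y)) hcomp
      (fun y => decide (Alt false d (fun z => f z (bitsOf y) = true))) (fun y => by simp)
    exact (hgap.1 hd).ne (by norm_num) (by norm_num) hcls
      (fun y => by rw [decide_eq_true_eq]; exact key y)

/-! ### duality -/

/-- the dual function -/
def dual {ι : Type} (f : (ι → Bool) → Bool) : (ι → Bool) → Bool := fun x => !f (fun i => !x i)

theorem dual_mem {ι : Type} {f : (ι → Bool) → Bool} (hf : f ∈ VB ι) : dual f ∈ VB ι := by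
  rcases hf with ⟨b, rfl⟩ | ⟨i, rfl⟩
  · exact Or.inl ⟨!b, rfl⟩
  · refine Or.inr ⟨i, ?_⟩
    funext x
    simp [dual]

theorem mprog_dual {ι : Type} {L : List ((ι → Bool) → Bool)} (hL : MProg (VB ι) L) :
    MProg (VB ι) (L.map dual) := by
  have key : ∀ {L : List ((ι → Bool) → Bool)} {f : (ι → Bool) → Bool}, (f ∈ VB ι ∨ f ∈ L) →
      (dual f ∈ VB ι ∨ dual f ∈ L.map dual) := by
    intro L f hf
    rcases hf with hf | hf
    · exact Or.inl (dual_mem hf)
    · exact Or.inr (List.mem_map_of_mem hf)
  induction hL with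
  | nil => exact MProg.nil
  | @and L f g _ hf hg ih =>
    have h := MProg.or ih (key hf) (key hg)
    have e : (fun x => dual f x || dual g x) = dual (fun x => f x && g x) := by
      funext x; simp [dual]
    rw [e] at h
    exact h
  | @or L f g _ hf hg ih =>
    have h := MProg.and ih (key hf) (key hg)
    have e : (fun x => dual f x && dual g x) = dual (fun x => f x || g x) := by
      funext x; simp [dual]
    rw [e] at h
    exact h

theorem mcomp_dual {ι : Type} {s : ℕ} {f : (ι → Bool) → Bool} (hf : MComp (VB ι) s f) :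
    MComp (VB ι) s (dual f) := by
  obtain ⟨L, hL, hs, h⟩ := hf
  refine ⟨L.map dual, mprog_dual hL, by simpa using hs, ?_⟩
  rcases h with h | h
  · exact Or.inl (dual_mem h)
  · exact Or.inr (List.mem_map_of_mem h)

theorem altMono_dual {ι : Type} {e : Bool} {d G s : ℕ} {F F' : (ι → Bool) → Prop}
    (h : AltMono e d G s F) (hF : ∀ x, F' x ↔ ¬ F (fun i => !x i)) : AltMono (!e) d G s F' := by
  obtain ⟨f, hf, hFf⟩ := h
  refine ⟨fun z => dual (f z), fun z => mcomp_dual (hf z), fun x => ?_⟩
  rw [hF, hFf, not_alt]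
  exact Alt.congr fun z => by simp [dual]

theorem lastQ_not (e : Bool) (d : ℕ) : lastQ (!e) d = !lastQ e d := by
  unfold lastQ
  split_ifs <;> rfl

theorem noIndep_iff {v k : ℕ} (x : Fin v × Fin v → Bool) :
    NoIndep v k x ↔ ¬ HasClique v k (fun p => !x p) := by
  unfold NoIndep HasClique
  push Not
  simp

theorem tower_not {e : Bool} {d m v k : ℕ} (x : (Fin d → Fin m) × Fin v × Fin v → Bool) :
    Tower (!e) d m v k x ↔ ¬ Tower e d m v k (fun p => !x p) := by
  unfold Tower
  rw [not_alt, lastQ_not]
  apply Alt.congr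
  intro i
  cases lastQ e d
  · simp only [Bool.not_false]
    rw [noIndep_iff, not_not]
    simp only [Bool.not_not]
  · simp only [Bool.not_true]
    rw [noIndep_iff]

theorem lower {d m G s r : ℕ} (hr : 2 ≤ r) (hm : 21 * (G + 3) ≤ m) (hs : s < 2 ^ r) (e : Bool) :
    ¬ AltMono (!e) d G s (Tower e d m (200 * r ^ 8) (r ^ 2)) := by
  by_cases he : lastQ e d = true
  · exact lower_ex hr hm hs he
  · intro h
    rw [Bool.not_eq_true] at he
    have h1 := altMono_dual (F' := Tower (!e) d m (200 * r ^ 8) (r ^ 2)) h (fun x => tower_not x)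
    exact lower_ex (e := !e) hr hm hs (by rw [lastQ_not, he]; rfl) h1

/-! ### upper bound -/

theorem cons_comp {U Z : Type} {n : ℕ} (π : Z → U) (z : Z) (w : Fin n → Z) :
    (fun i => π ((Fin.cons z w : Fin (n + 1) → Z) i)) =
      (Fin.cons (π z) (fun i => π (w i)) : Fin (n + 1) → U) := by
  funext i
  refine Fin.cases ?_ (fun i => ?_) i
  · simp
  · simp

theorem alt_surj {U Z : Type} (π : Z → U) (hπ : Function.Surjective π) {n : ℕ} :
    ∀ {e : Bool} {R : (Fin n → U) → Prop},
      Alt e n R ↔ Alt e n (fun z : Fin n → Z => R (fun i => π (z i))) := by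
  induction n with
  | zero =>
    intro e R
    have h : (fun i : Fin 0 => π ((fun i : Fin 0 => (i.elim0 : Z)) i)) =
      (fun i : Fin 0 => (i.elim0 : U)) := funext fun i => i.elim0
    cases e
    · change R _ ↔ R (fun i : Fin 0 => π ((fun i : Fin 0 => (i.elim0 : Z)) i))
      rw [h]
    · change R _ ↔ R (fun i : Fin 0 => π ((fun i : Fin 0 => (i.elim0 : Z)) i))
      rw [h]
  | succ n ih =>
    intro e R
    have step : ∀ (e' : Bool) (z : Z), Alt e' n (fun w : Fin n → U => R (Fin.cons (π z) w)) ↔
        Alt e' n (fun w : Fin n → Z => R (fun i => π ((Fin.cons z w : Fin (n + 1) → Z) i))) := by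
      intro e' z
      rw [ih]
      exact Alt.congr fun w => by rw [cons_comp]
    cases e
    · constructor
      · intro h z
        exact (step true z).mp (h (π z))
      · intro h u
        obtain ⟨z, rfl⟩ := hπ u
        exact (step true z).mpr (h z)
    · constructor
      · rintro ⟨u, hu⟩
        obtain ⟨z, rfl⟩ := hπ u
        exact ⟨z, (step false z).mp hu⟩
      · rintro ⟨z, hz⟩
        exact ⟨π z, (step false z).mpr hz⟩

theorem cons_last {U : Type} {n : ℕ} (u : U) (w : Fin (n + 1) → U) :
    (Fin.cons u w : Fin (n + 2) → U) (Fin.last (n + 1)) = w (Fin.last n) := by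
  have : Fin.last (n + 1) = (Fin.last n).succ := rfl
  rw [this, Fin.cons_succ]

/-- A last existential quantifier absorbs a further one. -/
theorem alt_last {U V : Type} [Nonempty V] {n : ℕ} :
    ∀ {e : Bool} {R : (Fin (n + 1) → U) → V → Prop}, lastQ e (n + 1) = true →
      (Alt e (n + 1) (fun w => ∃ v, R w v) ↔
        Alt e (n + 1) (fun p : Fin (n + 1) → U × V =>
          R (fun i => (p i).1) (p (Fin.last n)).2)) := by
  induction n with
  | zero =>
    intro e R he
    have he' : e = true := he
    subst he'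
    constructor
    · rintro ⟨u, v, h⟩
      refine ⟨(u, v), ?_⟩
      change R (fun i => ((Fin.cons (u, v) (fun i => i.elim0) : Fin 1 → U × V) i).1)
        ((Fin.cons (u, v) (fun i => i.elim0) : Fin 1 → U × V) (Fin.last 0)).2
      rw [cons_comp Prod.fst]
      have h1 : (fun i : Fin 0 => ((fun i : Fin 0 => (i.elim0 : U × V)) i).1) =
        (fun i : Fin 0 => (i.elim0 : U)) := funext fun i => i.elim0
      rw [h1]
      exact h
    · rintro ⟨⟨u, v⟩, h⟩
      refine ⟨u, v, ?_⟩
      change R (fun i => ((Fin.cons (u, v) (fun i => i.elim0) : Fin 1 → U × V) i).1)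
        ((Fin.cons (u, v) (fun i => i.elim0) : Fin 1 → U × V) (Fin.last 0)).2 at h
      rw [cons_comp Prod.fst] at h
      have h1 : (fun i : Fin 0 => ((fun i : Fin 0 => (i.elim0 : U × V)) i).1) =
        (fun i : Fin 0 => (i.elim0 : U)) := funext fun i => i.elim0
      rw [h1] at h
      exact h
  | succ n ih =>
    intro e R he
    have he' : lastQ (!e) (n + 1) = true := by
      unfold lastQ at he ⊢
      rcases Nat.mod_two_eq_zero_or_one n with h | h
      · rw [if_neg (by omega)] at he
        rw [if_pos (by omega)]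
        exact he
      · rw [if_pos (by omega)] at he
        rw [if_neg (by omega), he]
        rfl
    have step : ∀ (u : U) (v : V), Alt (!e) (n + 1) (fun w => ∃ v, R (Fin.cons u w) v) ↔
        Alt (!e) (n + 1) (fun p : Fin (n + 1) → U × V =>
          R (fun i => ((Fin.cons (u, v) p : Fin (n + 2) → U × V) i).1)
            ((Fin.cons (u, v) p : Fin (n + 2) → U × V) (Fin.last (n + 1))).2) := by
      intro u v
      rw [ih he']
      exact Alt.congr fun p => by rw [cons_comp Prod.fst, cons_last]
    obtain ⟨v0⟩ := (inferInstance : Nonempty V)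
    cases e
    · constructor
      · rintro h ⟨u, v⟩
        exact (step u v).mp (h u)
      · intro h u
        exact (step u v0).mpr (h (u, v0))
    · constructor
      · rintro ⟨u, hu⟩
        exact ⟨(u, v0), (step u v0).mp hu⟩
      · rintro ⟨⟨u, v⟩, h⟩
        exact ⟨u, (step u v).mpr h⟩

/-- conjunction of a list of free functions -/
theorem and_prog {X : Type} {B : Set (X → Bool)} (htrue : (fun _ => true) ∈ B)
    (gs : List (X → Bool)) (hg : ∀ g ∈ gs, g ∈ B) :
    MComp B gs.length (fun x => gs.all (fun g => g x)) := by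
  induction gs with
  | nil => exact ⟨[], MProg.nil, le_rfl, Or.inl (by simpa using htrue)⟩
  | cons g gs ih =>
    obtain ⟨L, hL, hlen, hav⟩ := ih (fun g' hg' => hg g' (List.mem_cons_of_mem _ hg'))
    refine ⟨_ :: L, MProg.and hL (Or.inl (hg g List.mem_cons_self)) hav, ?_, Or.inr ?_⟩
    · simpa using hlen
    · have : (fun x => (g :: gs).all (fun g => g x)) =
          (fun x => g x && gs.all (fun g => g x)) := by
        funext x
        simp
      rw [this]
      exact List.mem_cons_self

theorem mcomp_mono {X : Type} {B : Set (X → Bool)} {s s' : ℕ} {f : X → Bool} (h : MComp B s f)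
    (hs : s ≤ s') : MComp B s' f := by
  obtain ⟨L, hL, hlen, hf⟩ := h
  exact ⟨L, hL, hlen.trans hs, hf⟩

open Classical in
theorem mcomp_clique {J : Type} {v : ℕ} (k : ℕ) (i : J) (S : Finset (Fin v)) :
    MComp (VB (J × Fin v × Fin v)) (k ^ 2) (fun x => decide (S.card = k ∧
      ∀ a ∈ S, ∀ b ∈ S, a < b → x (i, a, b) = true)) := by
  by_cases hS : S.card = k
  · let E : List (Fin v × Fin v) := ((S ×ˢ S).filter (fun p => p.1 < p.2)).toList
    have h := and_prog (B := VB (J × Fin v × Fin v)) (Or.inl ⟨true, rfl⟩)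
      (E.map (fun p => (fun x : J × Fin v × Fin v → Bool => x (i, p)))) (by
        intro g hg
        rw [List.mem_map] at hg
        obtain ⟨p, _, rfl⟩ := hg
        exact Or.inr ⟨(i, p), rfl⟩)
    have h2 : (fun x : J × Fin v × Fin v → Bool =>
        (E.map (fun p => (fun x : J × Fin v × Fin v → Bool => x (i, p)))).all (fun g => g x)) =
        (fun x => decide (S.card = k ∧ ∀ a ∈ S, ∀ b ∈ S, a < b → x (i, a, b) = true)) := by
      funext x
      rw [Bool.eq_iff_iff, List.all_eq_true, decide_eq_true_eq]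
      constructor
      · intro h
        refine ⟨hS, fun a ha b hb hab => ?_⟩
        have h3 := h (fun x => x (i, a, b)) (by
          rw [List.mem_map]
          refine ⟨(a, b), ?_, rfl⟩
          simp only [E, mem_toList, mem_filter, mem_product]
          exact ⟨⟨ha, hb⟩, hab⟩)
        exact h3
      · rintro ⟨_, h⟩ g hg
        rw [List.mem_map] at hg
        obtain ⟨⟨a, b⟩, hab, rfl⟩ := hg
        simp only [E, mem_toList, mem_filter, mem_product] at hab
        exact h a hab.1.1 b hab.1.2 hab.2
    rw [h2] at h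
    refine mcomp_mono h ?_
    rw [List.length_map]
    simp only [E, length_toList]
    calc _ ≤ (S ×ˢ S).card := card_filter_le _ _
      _ = k ^ 2 := by rw [card_product, hS, pow_two]
  · refine ⟨[], MProg.nil, Nat.zero_le _, Or.inl (Or.inl ⟨false, ?_⟩)⟩
    funext x
    simp [hS]

theorem upper_ex {d m v k G : ℕ} (hd : 1 ≤ d) (hm : 1 ≤ m) (hG : Nat.size m + v ≤ G) {e : Bool}
    (he : lastQ e d = true) : AltMono e d G (k ^ 2) (Tower e d m v k) := by
  classical
  obtain ⟨n, rfl⟩ : ∃ n, d = n + 1 := ⟨d - 1, by omega⟩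
  have : Nonempty (Fin m) := ⟨⟨0, by omega⟩⟩
  -- decoding of the quantified bits
  obtain ⟨π, hπ⟩ : ∃ π : (Fin G → Bool) → Fin m × Finset (Fin v), Function.Surjective π := by
    have hcard : Fintype.card (Fin m × Finset (Fin v)) ≤ Fintype.card (Fin G → Bool) := by
      rw [Fintype.card_prod, Fintype.card_fin, Fintype.card_finset, Fintype.card_fin,
        Fintype.card_fun, Fintype.card_fin, Fintype.card_bool]
      calc m * 2 ^ v ≤ 2 ^ Nat.size m * 2 ^ v := Nat.mul_le_mul_right _ (Nat.lt_size_self m).le
        _ = 2 ^ (Nat.size m + v) := by rw [pow_add]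
        _ ≤ 2 ^ G := Nat.pow_le_pow_right (by norm_num) hG
    obtain ⟨emb⟩ := Function.Embedding.nonempty_of_card_le hcard
    exact ⟨Function.invFun emb, Function.invFun_surjective emb.injective⟩
  refine ⟨fun z x => decide ((π (z (Fin.last n))).2.card = k ∧
    ∀ a ∈ (π (z (Fin.last n))).2, ∀ b ∈ (π (z (Fin.last n))).2, a < b →
      x (fun i => (π (z i)).1, a, b) = true), fun z => mcomp_clique k _ _, fun x => ?_⟩
  unfold Tower
  rw [he]
  have h1 : Alt e (n + 1) (fun i : Fin (n + 1) → Fin m => HasClique v k (fun p => x (i, p))) ↔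
      Alt e (n + 1) (fun i : Fin (n + 1) → Fin m => ∃ S : Finset (Fin v), S.card = k ∧
        ∀ a ∈ S, ∀ b ∈ S, a < b → x (i, a, b) = true) := Iff.rfl
  refine h1.trans ((alt_last he).trans ((alt_surj π hπ).trans ?_))
  exact Alt.congr fun z => by rw [decide_eq_true_eq]

theorem upper {d m v k G : ℕ} (hd : 1 ≤ d) (hm : 1 ≤ m) (hG : Nat.size m + v ≤ G) (e : Bool) :
    AltMono e d G (k ^ 2) (Tower e d m v k) := by
  by_cases he : lastQ e d = true
  · exact upper_ex hd hm hG he
  · rw [Bool.not_eq_true] at he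
    have h1 := upper_ex (v := v) (k := k) (e := !e) hd hm hG (by rw [lastQ_not, he]; rfl)
    have h2 := altMono_dual (F' := Tower (!!e) d m v k) h1 (fun x => tower_not x)
    rw [Bool.not_not] at h2
    exact h2

/-! ### inclusions -/

theorem init_cons {U : Type} {n : ℕ} (u : U) (w : Fin (n + 1) → U) :
    (Fin.init (Fin.cons u w : Fin (n + 2) → U) : Fin (n + 1) → U) = Fin.cons u (Fin.init w) := by
  funext i
  refine Fin.cases ?_ (fun i => ?_) i
  · simp [Fin.init]
  · simp only [Fin.init, Fin.cons_succ]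
    rw [Fin.castSucc_succ, Fin.cons_succ]

/-- A last quantifier which is not used. -/
theorem alt_init {U : Type} [Nonempty U] {n : ℕ} : ∀ {e : Bool} {R : (Fin n → U) → Prop},
    Alt e (n + 1) (fun w => R (Fin.init w)) ↔ Alt e n R := by
  induction n with
  | zero =>
    intro e R
    have h : ∀ u : U, (Fin.init (Fin.cons u (fun i => i.elim0) : Fin 1 → U) : Fin 0 → U) =
      (fun i => i.elim0) := fun u => funext fun i => i.elim0
    cases e
    · change (∀ u : U, R (Fin.init (Fin.cons u (fun i => i.elim0) : Fin 1 → U))) ↔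
        R (fun i => i.elim0)
      simp only [h, forall_const]
    · change (∃ u : U, R (Fin.init (Fin.cons u (fun i => i.elim0) : Fin 1 → U))) ↔
        R (fun i => i.elim0)
      simp only [h, exists_const]
  | succ n ih =>
    intro e R
    have step : ∀ (e' : Bool) (u : U), Alt e' (n + 1) (fun w : Fin (n + 1) → U =>
        R (Fin.init (Fin.cons u w : Fin (n + 2) → U))) ↔
        Alt e' n (fun w => R (Fin.cons u w)) := by
      intro e' u
      rw [← ih]
      exact Alt.congr fun w => by rw [init_cons]
    cases e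
    · exact forall_congr' fun u => step true u
    · exact exists_congr fun u => step false u

theorem altMono_succ {ι : Type} {e : Bool} {d G s : ℕ} {F : (ι → Bool) → Prop}
    (h : AltMono e d G s F) : AltMono e (d + 1) G s F ∧ AltMono (!e) (d + 1) G s F := by
  obtain ⟨f, hf, hF⟩ := h
  refine ⟨⟨fun z => f (Fin.init z), fun z => hf _, fun x => ?_⟩,
    ⟨fun z => f (Fin.tail z), fun z => hf _, fun x => ?_⟩⟩
  · rw [hF x]
    exact (alt_init (R := fun w => f w x = true)).symm
  · rw [hF x]
    cases e
    · change _ ↔ ∃ u : Fin G → Bool, Alt false d (fun w : Fin d → Fin G → Bool =>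
        f (Fin.tail (Fin.cons u w : Fin (d + 1) → Fin G → Bool)) x = true)
      simp only [Fin.tail_cons, exists_const]
    · change _ ↔ ∀ u : Fin G → Bool, Alt true d (fun w : Fin d → Fin G → Bool =>
        f (Fin.tail (Fin.cons u w : Fin (d + 1) → Fin G → Bool)) x = true)
      simp only [Fin.tail_cons, forall_const]

end Pool.Agent.H611R2
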