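import Pool.Agent.H611R2.AltDefs

/-!
# Alternating quantifiers and random bits: definitions
-/

namespace Pool.Agent.H611R2

open Pool.Agent.H520R2 Pool.Agent.H520R2.NM

open Classical in
/-- `BPAltMono e d G s F`: for some `R` there is a randomized algorithm with `R` random bits `ρ`
which computes the predicate `F` with error probability at most one third on every input and
which, for fixed `ρ`, is given by `d` alternating blocks of quantifiers over `G` bits each (the
first block being existential if `e = true` and universal if `e = false`) in front of functions
which have, for all values of the random and of the quantified bits, monotone circuits with at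
most `s` gates. -/
def BPAltMono {ι : Type} (e : Bool) (d G s : ℕ) (F : (ι → Bool) → Prop) : Prop :=
  ∃ (R : ℕ) (f : (Fin R → Bool) → (Fin d → Fin G → Bool) → (ι → Bool) → Bool),
    (∀ ρ z, MComp (VB ι) s (f ρ z)) ∧
    (∀ x, F x → 3 * (Finset.univ.filter
      (fun ρ => ¬ Alt e d (fun z => f ρ z x = true))).card ≤ 2 ^ R) ∧
    (∀ x, ¬ F x → 3 * (Finset.univ.filter
      (fun ρ => Alt e d (fun z => f ρ z x = true))).card ≤ 2 ^ R)

end Pool.Agent.H611R2
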