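import Pool.Agent.H611R2.BPDefs
import Pool.Agent.H611R2.AltMain

/-!
# Lower bounds for alternating quantifiers and random bits
-/

namespace Pool.Agent.H611R2

open Finset Pool.Agent.H520R2 Pool.Agent.H520R2.NM

/-- No random function of the class computes `F` with error at most one third. -/
theorem Gap.rand {X : Type} {𝒞 : (X → Bool) → Prop} {F : X → Prop} (h : Gap 𝒞 F 4 4 1)
    {Ω : Type} [Fintype Ω] [Nonempty Ω] (g : Ω → X → Bool) (hg : ∀ ω, 𝒞 (g ω))
    (hpos : ∀ x, F x → 3 * (univ.filter (fun ω => g ω x = false)).card ≤ Fintype.card Ω)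
    (hneg : ∀ x, ¬ F x → 3 * (univ.filter (fun ω => g ω x = true)).card ≤ Fintype.card Ω) :
    False := by
  classical
  obtain ⟨P, N, _, _, _, _, pos, neg, hP, hN, hgap⟩ := h
  have hPc : 0 < Fintype.card P := Fintype.card_pos
  have hNc : 0 < Fintype.card N := Fintype.card_pos
  have hΩc : 0 < Fintype.card Ω := Fintype.card_pos
  obtain ⟨p, hp⟩ : ∃ p, p = Fintype.card P := ⟨_, rfl⟩
  obtain ⟨n, hn⟩ : ∃ n, n = Fintype.card N := ⟨_, rfl⟩
  obtain ⟨w, hw⟩ : ∃ w, w = Fintype.card Ω := ⟨_, rfl⟩
  let a : Ω → ℕ := fun ω => (univ.filter (fun d => g ω (pos d) = true)).card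
  let b : Ω → ℕ := fun ω => (univ.filter (fun d => g ω (neg d) = false)).card
  have hone : ∀ ω, 4 * (a ω * n + b ω * p) ≤ 5 * (p * n) := by
    intro ω
    have ha : a ω ≤ p := by rw [hp]; simpa using card_le_univ _
    have hb : b ω ≤ n := by rw [hn]; simpa using card_le_univ _
    by_cases hlt : p < 4 * a ω
    · have h1 : 4 * b ω ≤ 1 * n := by
        rw [hn]
        exact hgap (g ω) (hg ω) (by rw [← hp]; exact hlt)
      have h2 : a ω * n ≤ p * n := Nat.mul_le_mul_right _ ha
      have h3 : 4 * b ω * p ≤ 1 * n * p := Nat.mul_le_mul_right _ h1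
      nlinarith
    · have h2 : b ω * p ≤ n * p := Nat.mul_le_mul_right _ hb
      have h3 : 4 * a ω * n ≤ p * n := Nat.mul_le_mul_right _ (not_lt.mp hlt)
      nlinarith
  -- double counting
  have hasum : 2 * (p * w) ≤ 3 * ∑ ω, a ω := by
    have hcomm : ∑ ω, a ω = ∑ d : P, (univ.filter (fun ω => g ω (pos d) = true)).card := by
      simp only [a, card_filter]
      exact sum_comm
    have h1 : ∀ d : P, 2 * w ≤ 3 * (univ.filter (fun ω => g ω (pos d) = true)).card := by
      intro d
      have h2 := hpos _ (hP d)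
      have h3 : (univ.filter (fun ω => g ω (pos d) = true)).card +
          (univ.filter (fun ω => g ω (pos d) = false)).card = w := by
        rw [hw, ← card_univ, ← card_filter_add_card_filter_not (s := univ)
          (fun ω => g ω (pos d) = true)]
        simp only [Bool.not_eq_true]
      rw [← hw] at h2
      omega
    calc 2 * (p * w) = ∑ _d : P, 2 * w := by
          rw [sum_const, card_univ, smul_eq_mul, ← hp]; ring
      _ ≤ ∑ d : P, 3 * (univ.filter (fun ω => g ω (pos d) = true)).card :=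
          sum_le_sum fun d _ => h1 d
      _ = 3 * ∑ ω, a ω := by rw [hcomm, mul_sum]
  have hbsum : 2 * (n * w) ≤ 3 * ∑ ω, b ω := by
    have hcomm : ∑ ω, b ω = ∑ d : N, (univ.filter (fun ω => g ω (neg d) = false)).card := by
      simp only [b, card_filter]
      exact sum_comm
    have h1 : ∀ d : N, 2 * w ≤ 3 * (univ.filter (fun ω => g ω (neg d) = false)).card := by
      intro d
      have h2 := hneg _ (hN d)
      have h3 : (univ.filter (fun ω => g ω (neg d) = true)).card +
          (univ.filter (fun ω => g ω (neg d) = false)).card = w := by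
        rw [hw, ← card_univ, ← card_filter_add_card_filter_not (s := univ)
          (fun ω => g ω (neg d) = true)]
        simp only [Bool.not_eq_true]
      rw [← hw] at h2
      omega
    calc 2 * (n * w) = ∑ _d : N, 2 * w := by
          rw [sum_const, card_univ, smul_eq_mul, ← hn]; ring
      _ ≤ ∑ d : N, 3 * (univ.filter (fun ω => g ω (neg d) = false)).card :=
          sum_le_sum fun d _ => h1 d
      _ = 3 * ∑ ω, b ω := by rw [hcomm, mul_sum]
  have hsum : 4 * ((∑ ω, a ω) * n + (∑ ω, b ω) * p) ≤ 5 * (p * n) * w := by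
    calc 4 * ((∑ ω, a ω) * n + (∑ ω, b ω) * p) = ∑ ω, 4 * (a ω * n + b ω * p) := by
          rw [← mul_sum, sum_add_distrib, sum_mul, sum_mul]
      _ ≤ ∑ _ω : Ω, 5 * (p * n) := sum_le_sum fun ω _ => hone ω
      _ = 5 * (p * n) * w := by rw [sum_const, card_univ, smul_eq_mul, ← hw]; ring
  have h1 : 2 * (p * w) * n ≤ 3 * (∑ ω, a ω) * n := Nat.mul_le_mul_right _ hasum
  have h2 : 2 * (n * w) * p ≤ 3 * (∑ ω, b ω) * p := Nat.mul_le_mul_right _ hbsum
  have h3 : 0 < p * n * w := by
    rw [hp, hn, hw]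
    positivity
  nlinarith

theorem tower_gap1 {W : Type} [Fintype W] [DecidableEq W] {k s m G : ℕ}
    (hW : 200 * k ^ 4 ≤ Fintype.card W) (hk : 4 ≤ k) (hs : s < 2 ^ Nat.sqrt k)
    (hm : 21 * (G + 3) ≤ m) {d : ℕ} (hd : 1 ≤ d) {e : Bool} (he : lastQ e d = true) :
    Gap (Cls (GA (Fin d → Fin m) W) s G (!e) d)
      (fun y => Alt e d (fun i => ¬ (y i).CliqueFree k)) 4 4 1 := by
  obtain ⟨d, rfl⟩ : ∃ d', d = d' + 1 := ⟨d - 1, by omega⟩
  rcases Nat.mod_two_eq_zero_or_one d with hd2 | hd2
  · have he' : e = true := by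
      unfold lastQ at he
      rw [if_pos (by omega)] at he
      exact he
    subst he'
    exact ((tower_gap hW hk hs hm (d + 1)).1 (by omega)).weaken le_rfl (fun a b hab => by omega)
  · have he' : e = false := by
      unfold lastQ at he
      rw [if_neg (by omega)] at he
      cases e
      · rfl
      · exact absurd he (by simp)
    subst he'
    have ih' := (tower_gap hW hk hs hm d).1 hd2
    have h1 : Gap (Cls (GA (Fin (d + 1) → Fin m) W) s G true (d + 1))
        (fun y => Alt false (d + 1) (fun i => ¬ (y i).CliqueFree k)) 8 4 1 := by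
      refine (gap_and1 hm ih').map glue (fun y => ?_) ?_
      · change (∀ u, Alt true d (fun w => ¬ (glue y (Fin.cons u w)).CliqueFree k)) ↔ _
        simp only [glue_cons]
      · intro g hg
        obtain ⟨Z, iZ, f, hZ, hf, hfg⟩ := hg
        refine ⟨Z, iZ, fun z y => f z (glue y), hZ, ?_, ?_, fun y => hfg _⟩
        · intro z y y' hyy
          exact (hf z).mono ga_mono _ _ (glue_mono hyy)
        · intro z y i
          exact (hf z).comp (fun x => glue (Function.update y i x)) (glue_base y i)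
    exact h1.weaken (by norm_num) (fun a b hab => hab)

theorem bp_lower_ex {d m G s r : ℕ} (hd : 1 ≤ d) (hr : 2 ≤ r) (hm : 21 * (G + 3) ≤ m)
    (hs : s < 2 ^ r) {e : Bool} (he : lastQ e d = true) :
    ¬ BPAltMono (!e) d G s (Tower e d m (200 * r ^ 8) (r ^ 2)) := by
  classical
  rintro ⟨R, f, hf, hF1, hF2⟩
  have hk4 : 4 ≤ r ^ 2 := by nlinarith
  have hsq : Nat.sqrt (r ^ 2) = r := by rw [pow_two, Nat.sqrt_eq]
  have hgap := tower_gap1 (W := Fin (200 * r ^ 8)) (k := r ^ 2) (s := s) (m := m) (G := G)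
    (by rw [Fintype.card_fin, ← pow_mul]) hk4 (by rw [hsq]; exact hs) hm hd he
  have hcomp : ∀ ρ z, MComp (GA (Fin d → Fin m) (Fin (200 * r ^ 8))) s
      (fun y => f ρ z (bitsOf y)) := fun ρ z => (hf ρ z).comp bitsOf bitsOf_base
  have hcard : Fintype.card (Fin G → Bool) ≤ 2 ^ G := by simp
  have hT : ∀ y : (Fin d → Fin m) → SimpleGraph (Fin (200 * r ^ 8)),
      Tower e d m (200 * r ^ 8) (r ^ 2) (bitsOf y) ↔
        Alt e d (fun i => ¬ (y i).CliqueFree (r ^ 2)) := by
    intro y
    unfold Tower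
    rw [he]
    exact Alt.congr fun i => hasClique_iff (y i) _ (fun a b => by simp [bitsOf])
  have hcls : ∀ ρ, Cls (GA (Fin d → Fin m) (Fin (200 * r ^ 8))) s G (!e) d
      (fun y => decide (Alt (!e) d (fun z => f ρ z (bitsOf y) = true))) := fun ρ =>
    cls_of_alt hcard (fun z y => f ρ z (bitsOf y)) (hcomp ρ) _ (fun y => by simp)
  refine hgap.rand (fun ρ : Fin R → Bool => fun y =>
    decide (Alt (!e) d (fun z => f ρ z (bitsOf y) = true))) hcls ?_ ?_
  · intro y hy
    have := hF1 _ ((hT y).mpr hy)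
    rw [Fintype.card_fun, Fintype.card_fin, Fintype.card_bool]
    simpa using this
  · intro y hy
    have := hF2 _ (fun h => hy ((hT y).mp h))
    rw [Fintype.card_fun, Fintype.card_fin, Fintype.card_bool]
    simpa using this

theorem bpAltMono_dual {ι : Type} {e : Bool} {d G s : ℕ} {F F' : (ι → Bool) → Prop}
    (h : BPAltMono e d G s F) (hF : ∀ x, F' x ↔ ¬ F (fun i => !x i)) :
    BPAltMono (!e) d G s F' := by
  classical
  obtain ⟨R, f, hf, hF1, hF2⟩ := h
  have key : ∀ ρ x, Alt (!e) d (fun z => dual (f ρ z) x = true) ↔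
      ¬ Alt e d (fun z => f ρ z (fun i => !x i) = true) := by
    intro ρ x
    rw [not_alt]
    exact Alt.congr fun z => by simp [dual]
  refine ⟨R, fun ρ z => dual (f ρ z), fun ρ z => mcomp_dual (hf ρ z), fun x hx => ?_,
    fun x hx => ?_⟩
  · have h1 := hF2 _ ((hF x).mp hx)
    simp only [key, not_not]
    convert h1
  · have h1 := hF1 (fun i => !x i) (by
      by_contra hne
      exact hx ((hF x).mpr hne))
    simp only [key]
    convert h1

theorem bp_lower {d m G s r : ℕ} (hd : 1 ≤ d) (hr : 2 ≤ r) (hm : 21 * (G + 3) ≤ m)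
    (hs : s < 2 ^ r) (e : Bool) :
    ¬ BPAltMono (!e) d G s (Tower e d m (200 * r ^ 8) (r ^ 2)) := by
  by_cases he : lastQ e d = true
  · exact bp_lower_ex hd hr hm hs he
  · intro h
    rw [Bool.not_eq_true] at he
    have h1 := bpAltMono_dual (F' := Tower (!e) d m (200 * r ^ 8) (r ^ 2)) h
      (fun x => tower_not x)
    exact bp_lower_ex (e := !e) hd hr hm hs (by rw [lastQ_not, he]; rfl) h1

theorem altMono_bp {ι : Type} {e : Bool} {d G s : ℕ} {F : (ι → Bool) → Prop}
    (h : AltMono e d G s F) : BPAltMono e d G s F := by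
  classical
  obtain ⟨f, hf, hF⟩ := h
  refine ⟨0, fun _ => f, fun _ => hf, fun x hx => ?_, fun x hx => ?_⟩
  · have h1 : (univ.filter (fun _ρ : Fin 0 → Bool => ¬ Alt e d (fun z => f z x = true))) = ∅ := by
      rw [filter_eq_empty_iff]
      intro _ _ h
      exact h ((hF x).mp hx)
    rw [h1]
    simp
  · have h1 : (univ.filter (fun _ρ : Fin 0 → Bool => Alt e d (fun z => f z x = true))) = ∅ := by
      rw [filter_eq_empty_iff]
      intro _ _ h
      exact hx ((hF x).mpr h)
    rw [h1]
    simp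

/-- inclusions -/
theorem bpAltMono_succ {ι : Type} {e : Bool} {d G s : ℕ} {F : (ι → Bool) → Prop}
    (h : BPAltMono e d G s F) (e' : Bool) : BPAltMono e' (d + 1) G s F := by
  classical
  obtain ⟨R, f, hf, hF1, hF2⟩ := h
  by_cases he : e' = e
  · subst he
    have key : ∀ ρ x, Alt e' (d + 1) (fun z => f ρ (Fin.init z) x = true) ↔
        Alt e' d (fun z => f ρ z x = true) := fun ρ x =>
      alt_init (R := fun w => f ρ w x = true)
    refine ⟨R, fun ρ z => f ρ (Fin.init z), fun ρ z => hf _ _, fun x hx => ?_, fun x hx => ?_⟩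
    · simp only [key]
      exact hF1 x hx
    · simp only [key]
      exact hF2 x hx
  · have he' : e' = !e := by
      revert he
      cases e <;> cases e' <;> simp
    subst he'
    have key : ∀ ρ x, Alt (!e) (d + 1) (fun z => f ρ (Fin.tail z) x = true) ↔
        Alt e d (fun z => f ρ z x = true) := by
      intro ρ x
      cases e
      · change (∃ u : Fin G → Bool, Alt false d (fun w : Fin d → Fin G → Bool =>
          f ρ (Fin.tail (Fin.cons u w : Fin (d + 1) → Fin G → Bool)) x = true)) ↔ _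
        simp only [Fin.tail_cons, exists_const]
      · change (∀ u : Fin G → Bool, Alt true d (fun w : Fin d → Fin G → Bool =>
          f ρ (Fin.tail (Fin.cons u w : Fin (d + 1) → Fin G → Bool)) x = true)) ↔ _
        simp only [Fin.tail_cons, forall_const]
    refine ⟨R, fun ρ z => f ρ (Fin.tail z), fun ρ z => hf _ _, fun x hx => ?_, fun x hx => ?_⟩
    · simp only [key]
      exact hF1 x hx
    · simp only [key]
      exact hF2 x hx

/-- closure under monotone projections -/
theorem bpAltMono_proj {ι ι' : Type} {e : Bool} {d G s : ℕ} {F : (ι → Bool) → Prop}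
    (h : BPAltMono e d G s F) (φ : (ι' → Bool) → (ι → Bool))
    (hφ : ∀ b ∈ VB ι, b ∘ φ ∈ VB ι') : BPAltMono e d G s (fun x => F (φ x)) := by
  obtain ⟨R, f, hf, hF1, hF2⟩ := h
  exact ⟨R, fun ρ z x => f ρ z (φ x), fun ρ z => (hf ρ z).comp φ hφ, fun x hx => hF1 _ hx,
    fun x hx => hF2 _ hx⟩

end Pool.Agent.H611R2
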