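import Pool.Agent.H611R2.OneBlock
import Pool.Agent.H520R2.ClassLevel

/-!
# Many blocks: one-sided approximations reject an exponentially small fraction
-/

namespace Pool.Agent.H611R2

open Finset Pool.Agent.H520R2

/-- Splitting off the first coordinate when counting functions. -/
theorem card_filter_cons {A : Type*} [Fintype A] [DecidableEq A] {m : ℕ}
    (p : (Fin (m + 1) → A) → Prop) [DecidablePred p] :
    (univ.filter p).card ≤
      ∑ a : A, (univ.filter (fun c : Fin m → A => p (Fin.cons a c))).card := by
  classical
  have h1 : (univ.filter p).card =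
      ∑ a : A, ((univ.filter p).filter (fun c => c 0 = a)).card :=
    card_eq_sum_card_fiberwise (fun c _ => mem_univ (c 0))
  rw [h1]
  apply sum_le_sum
  intro a _
  apply card_le_card_of_injOn (fun c => Fin.tail c)
  · intro c hc
    rw [mem_coe, mem_filter, mem_filter] at hc
    rw [mem_coe, mem_filter]
    refine ⟨mem_univ _, ?_⟩
    have : Fin.cons a (Fin.tail c) = c := by
      rw [← hc.2]
      exact Fin.cons_self_tail c
    rw [this]
    exact hc.1.2
  · intro c hc d hd hcd
    rw [mem_coe, mem_filter] at hc hd
    rw [← Fin.cons_self_tail c, ← Fin.cons_self_tail d, hc.2, hd.2]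
    congr 1

/-- **One-sided approximations of a disjunction of clique functions.** Let `g` be a monotone
function of `m` graphs that accepts whenever one of the graphs has a `k`-clique, and whose
restrictions to one graph have monotone complexity less than `2 ^ √k`. Among the `m`-tuples of
complete `(k-1)`-partite graphs, a fraction of at most `(3/4) ^ m` is rejected by `g`. -/
theorem rej_blocks {W : Type*} [Fintype W] [DecidableEq W] {k s : ℕ}
    (hW : 200 * k ^ 4 ≤ Fintype.card W) (hk : 4 ≤ k) (hs : s < 2 ^ Nat.sqrt k) :
    ∀ (m : ℕ) (g : (Fin m → SimpleGraph W) → Bool)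
      (_hmono : ∀ y y', y ≤ y' → g y ≤ g y')
      (_hcomp : ∀ (y : Fin m → SimpleGraph W) (J : Fin m),
        MComp (GB W) s (fun G => g (Function.update y J G)))
      (_hacc : ∀ y, (∃ i, ¬ (y i).CliqueFree k) → g y = true),
      4 ^ m * (univ.filter (fun c : Fin m → W → Fin (k - 1) =>
        g (fun i => negG (c i)) = false)).card ≤ 3 ^ m * ((k - 1) ^ Fintype.card W) ^ m := by
  classical
  intro m
  induction m with
  | zero =>
    intro g _ _ _
    simp only [pow_zero, one_mul]
    refine (card_le_univ _).trans ?_
    simp
  | succ m ih =>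
    intro g hmono hcomp hacc
    set B := (k - 1) ^ Fintype.card W with hB
    have hcons : ∀ (a : W → Fin (k - 1)) (c : Fin m → W → Fin (k - 1)),
        (fun i => negG ((Fin.cons a c : Fin (m + 1) → W → Fin (k - 1)) i)) =
          (Fin.cons (negG a) (fun i => negG (c i)) : Fin (m + 1) → SimpleGraph W) := by
      intro a c
      funext i
      refine Fin.cases ?_ (fun j => ?_) i
      · simp
      · simp
    -- the first block, all other graphs empty
    let h0 : SimpleGraph W → Bool := fun G =>
      g (Fin.cons G (fun _ => ⊥) : Fin (m + 1) → SimpleGraph W)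
    have hh0 : MComp (GB W) s h0 := by
      have h1 := hcomp (fun _ => ⊥) 0
      have h2 : (fun G => g (Function.update (fun _ => ⊥) 0 G)) = h0 := by
        funext G
        simp only [h0]
        congr 1
        funext i
        refine Fin.cases ?_ (fun j => ?_) i
        · simp
        · simp
      rw [← h2]
      exact h1
    have hrej : 4 * (rej (k - 1) h0).card ≤ 3 * B :=
      few_rejected hW hk hs hh0 (fun G hG => hacc _ ⟨0, by simpa using hG⟩)
    have hT : ∀ a : W → Fin (k - 1),
        4 ^ m * (univ.filter (fun c : Fin m → W → Fin (k - 1) =>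
          g (fun i => negG ((Fin.cons a c : Fin (m + 1) → W → Fin (k - 1)) i)) = false)).card ≤
        if a ∈ rej (k - 1) h0 then 3 ^ m * B ^ m else 0 := by
      intro a
      split_ifs with ha
      · have key := ih (fun y => g (Fin.cons (negG a) y : Fin (m + 1) → SimpleGraph W)) ?_ ?_ ?_
        · simp only [hcons]
          exact key
        · intro y y' hyy
          apply hmono
          intro i
          refine Fin.cases ?_ (fun j => ?_) i
          · simp
          · simpa using hyy j
        · intro y J
          have h1 := hcomp (Fin.cons (negG a) y : Fin (m + 1) → SimpleGraph W) J.succ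
          have h2 : (fun G => g (Function.update
              (Fin.cons (negG a) y : Fin (m + 1) → SimpleGraph W) J.succ G)) =
              (fun G => g (Fin.cons (negG a) (Function.update y J G) :
                Fin (m + 1) → SimpleGraph W)) := by
            funext G
            rw [Fin.cons_update]
          rw [← h2]
          exact h1
        · rintro y ⟨i, hi⟩
          exact hacc _ ⟨i.succ, by simpa using hi⟩
      · have hempty : (univ.filter (fun c : Fin m → W → Fin (k - 1) =>
            g (fun i => negG ((Fin.cons a c : Fin (m + 1) → W → Fin (k - 1)) i)) = false)) = ∅ := by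
          rw [filter_eq_empty_iff]
          intro c _
          rw [hcons, Bool.not_eq_false]
          have h1 : h0 (negG a) = true := by
            by_contra h
            apply ha
            rw [rej, mem_filter]
            exact ⟨mem_univ _, by simpa using h⟩
          have h2 := hmono (Fin.cons (negG a) (fun _ => ⊥) : Fin (m + 1) → SimpleGraph W)
            (Fin.cons (negG a) (fun i => negG (c i)) : Fin (m + 1) → SimpleGraph W) (by
              intro i
              refine Fin.cases ?_ (fun j => ?_) i
              · simp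
              · simp)
          simp only [h0] at h1
          rw [h1] at h2
          exact Bool.eq_true_of_true_le h2
        rw [hempty]
        simp
    calc 4 ^ (m + 1) * (univ.filter (fun c : Fin (m + 1) → W → Fin (k - 1) =>
          g (fun i => negG (c i)) = false)).card
        ≤ 4 ^ (m + 1) * ∑ a : W → Fin (k - 1), (univ.filter (fun c : Fin m → W → Fin (k - 1) =>
          g (fun i => negG ((Fin.cons a c : Fin (m + 1) → W → Fin (k - 1)) i)) = false)).card :=
          Nat.mul_le_mul_left _ (card_filter_cons _)
      _ = 4 * ∑ a : W → Fin (k - 1), 4 ^ m * (univ.filter (fun c : Fin m → W → Fin (k - 1) =>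
          g (fun i => negG ((Fin.cons a c : Fin (m + 1) → W → Fin (k - 1)) i)) = false)).card := by
          rw [mul_sum, mul_sum]
          apply sum_congr rfl
          intro a _
          ring
      _ ≤ 4 * ∑ a : W → Fin (k - 1), (if a ∈ rej (k - 1) h0 then 3 ^ m * B ^ m else 0) :=
          Nat.mul_le_mul_left _ (sum_le_sum fun a _ => hT a)
      _ = (4 * (rej (k - 1) h0).card) * (3 ^ m * B ^ m) := by
          rw [← sum_filter, filter_mem_eq_inter, univ_inter, sum_const, smul_eq_mul]
          ring
      _ ≤ (3 * B) * (3 ^ m * B ^ m) := Nat.mul_le_mul_right _ hrej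
      _ = 3 ^ (m + 1) * B ^ (m + 1) := by ring

/-- **Covering the zeros.** `e` assembles `m` graphs into an input. If the disjunction of the `m`
clique functions is the conjunction of functions `f y`, `y ∈ Y`, of monotone complexity less than
`2 ^ √k`, then `Y` has at least `(4/3) ^ m` elements. -/
theorem cover_lower {W : Type*} [Fintype W] [DecidableEq W] {ι : Type} {m k s : ℕ}
    (hW : 200 * k ^ 4 ≤ Fintype.card W) (hk : 4 ≤ k) (hs : s < 2 ^ Nat.sqrt k)
    (e : (Fin m → SimpleGraph W) → ι → Bool)
    (he_mono : ∀ y y', y ≤ y' → e y ≤ e y')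
    (he_base : ∀ (y : Fin m → SimpleGraph W) (J : Fin m), ∀ f ∈ NM.VB ι,
      f ∘ (fun G => e (Function.update y J G)) ∈ GB W)
    {Y : Type*} [Fintype Y] (f : Y → (ι → Bool) → Bool)
    (hf : ∀ y, MComp (NM.VB ι) s (f y))
    (hF : ∀ G, (∀ y, f y (e G) = true) ↔ ∃ i, ¬ (G i).CliqueFree k) :
    4 ^ m ≤ 3 ^ m * Fintype.card Y := by
  classical
  set B := (k - 1) ^ Fintype.card W with hB
  have hBpos : 0 < B := Nat.pow_pos (by omega)
  have hone : ∀ y : Y, 4 ^ m * (univ.filter (fun c : Fin m → W → Fin (k - 1) =>
      f y (e (fun i => negG (c i))) = false)).card ≤ 3 ^ m * B ^ m := by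
    intro y
    refine rej_blocks hW hk hs m (fun G => f y (e G)) ?_ ?_ ?_
    · intro G G' hGG
      obtain ⟨L, hL, _, hfL⟩ := hf y
      exact NM.mono_of_av hL _ hfL _ _ (he_mono G G' hGG)
    · intro G J
      exact (hf y).comp (fun H => e (Function.update G J H)) (he_base G J)
    · intro G hG
      exact (hF G).mpr hG y
  have hcov : (univ : Finset (Fin m → W → Fin (k - 1))) ⊆ univ.biUnion (fun y : Y =>
      univ.filter (fun c : Fin m → W → Fin (k - 1) =>
        f y (e (fun i => negG (c i))) = false)) := by
    intro c _
    have hneg : ¬ ∀ y, f y (e (fun i => negG (c i))) = true := by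
      rw [hF]
      push Not
      intro i
      exact negG_cliqueFree (by omega) (c i)
    push Not at hneg
    obtain ⟨y, hy⟩ := hneg
    rw [mem_biUnion]
    exact ⟨y, mem_univ _, by simpa using hy⟩
  have hcard : B ^ m ≤ ∑ y : Y, (univ.filter (fun c : Fin m → W → Fin (k - 1) =>
      f y (e (fun i => negG (c i))) = false)).card := by
    have h1 := (card_le_card hcov).trans card_biUnion_le
    rw [card_univ, Fintype.card_fun, Fintype.card_fun, Fintype.card_fin, Fintype.card_fin] at h1
    exact h1
  have h2 : B ^ m * 4 ^ m ≤ B ^ m * (3 ^ m * Fintype.card Y) := by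
    calc B ^ m * 4 ^ m = 4 ^ m * B ^ m := by ring
      _ ≤ 4 ^ m * ∑ y : Y, (univ.filter (fun c : Fin m → W → Fin (k - 1) =>
          f y (e (fun i => negG (c i))) = false)).card := Nat.mul_le_mul_left _ hcard
      _ = ∑ y : Y, 4 ^ m * (univ.filter (fun c : Fin m → W → Fin (k - 1) =>
          f y (e (fun i => negG (c i))) = false)).card := by rw [mul_sum]
      _ ≤ ∑ _y : Y, 3 ^ m * B ^ m := sum_le_sum fun y _ => hone y
      _ = B ^ m * (3 ^ m * Fintype.card Y) := by
          rw [sum_const, card_univ, smul_eq_mul]
          ring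
  exact Nat.le_of_mul_le_mul_left h2 (Nat.pow_pos hBpos)

/-- The bound in powers of two. -/
theorem two_pow_le {m n : ℕ} (h : 4 ^ m ≤ 3 ^ m * n) : 2 ^ (m / 3) ≤ n := by
  obtain ⟨q, r, hr, rfl⟩ : ∃ q r, r < 3 ∧ m = 3 * q + r := ⟨m / 3, m % 3, Nat.mod_lt _ (by norm_num),
    (Nat.div_add_mod m 3).symm⟩
  have hq : (3 * q + r) / 3 = q := by omega
  rw [hq]
  have h1 : 3 ^ (3 * q + r) * 2 ^ q ≤ 4 ^ (3 * q + r) := by
    calc 3 ^ (3 * q + r) * 2 ^ q = (3 ^ 3 * 2) ^ q * 3 ^ r := by
          rw [pow_add, pow_mul, mul_pow]; ring
      _ ≤ (4 ^ 3) ^ q * 4 ^ r := by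
          gcongr <;> norm_num
      _ = 4 ^ (3 * q + r) := by rw [← pow_mul, ← pow_add]
  exact Nat.le_of_mul_le_mul_left (h1.trans h) (by positivity)

end Pool.Agent.H611R2
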