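import Pool.Agent.H611R2.OneBlockPos
import Pool.Agent.H611R2.Blocks

/-!
# Many blocks: circuits below a conjunction of clique functions accept exponentially few tuples
-/

namespace Pool.Agent.H611R2

open Finset Pool.Agent.H520R2

/-- **One-sided approximations of a conjunction of clique functions.** Let `g` be a monotone
function of `m` graphs that rejects whenever one of the graphs has no `k`-clique, and whose
restrictions to one graph have monotone complexity less than `2 ^ √k`. Among the `m`-tuples of
transversal `k`-cliques, a fraction of at most `1 / q ^ m` is accepted by `g`. -/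
theorem acc_blocks {W : Type*} [Fintype W] [DecidableEq W] {k s q : ℕ} (hk : 4 ≤ k)
    (hq : 200 * Nat.sqrt k ^ 6 ≤ q) (emb : Fin k × Fin q → W) (hemb : Function.Injective emb)
    (hs : s < 2 ^ Nat.sqrt k) :
    ∀ (m : ℕ) (g : (Fin m → SimpleGraph W) → Bool)
      (_hmono : ∀ y y', y ≤ y' → g y ≤ g y')
      (_hcomp : ∀ (y : Fin m → SimpleGraph W) (J : Fin m),
        MComp (GB W) s (fun G => g (Function.update y J G)))
      (_hrej : ∀ y, (∃ i, (y i).CliqueFree k) → g y = false),
      (univ.filter (fun c : Fin m → Fin k → Fin q =>
        g (fun i => posG emb (c i)) = true)).card * q ^ m ≤ (q ^ k) ^ m := by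
  classical
  intro m
  induction m with
  | zero =>
    intro g _ _ _
    simp only [pow_zero, mul_one]
    refine (card_le_univ _).trans ?_
    simp
  | succ m ih =>
    intro g hmono hcomp hrej
    have hcons : ∀ (a : Fin k → Fin q) (c : Fin m → Fin k → Fin q),
        (fun i => posG emb ((Fin.cons a c : Fin (m + 1) → Fin k → Fin q) i)) =
          (Fin.cons (posG emb a) (fun i => posG emb (c i)) : Fin (m + 1) → SimpleGraph W) := by
      intro a c
      funext i
      refine Fin.cases ?_ (fun j => ?_) i
      · simp
      · simp
    -- the first block, all other graphs complete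
    let h0 : SimpleGraph W → Bool := fun G =>
      g (Fin.cons G (fun _ => ⊤) : Fin (m + 1) → SimpleGraph W)
    have hh0 : MComp (GB W) s h0 := by
      have h1 := hcomp (fun _ => ⊤) 0
      have h2 : (fun G => g (Function.update (fun _ => ⊤) 0 G)) = h0 := by
        funext G
        simp only [h0]
        congr 1
        funext i
        refine Fin.cases ?_ (fun j => ?_) i
        · simp
        · simp
      rw [← h2]
      exact h1
    have hacc : (acc emb h0).card * q ≤ q ^ k :=
      few_accepted hk hq emb hemb hs hh0 (fun G hG => hrej _ ⟨0, by simpa using hG⟩)
    have hT : ∀ a : Fin k → Fin q,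
        (univ.filter (fun c : Fin m → Fin k → Fin q =>
          g (fun i => posG emb ((Fin.cons a c : Fin (m + 1) → Fin k → Fin q) i)) = true)).card
            * q ^ m ≤ if a ∈ acc emb h0 then (q ^ k) ^ m else 0 := by
      intro a
      split_ifs with ha
      · have key := ih (fun y => g (Fin.cons (posG emb a) y : Fin (m + 1) → SimpleGraph W)) ?_ ?_ ?_
        · simp only [hcons]
          exact key
        · intro y y' hyy
          apply hmono
          intro i
          refine Fin.cases ?_ (fun j => ?_) i
          · simp
          · simpa using hyy j
        · intro y J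
          have h1 := hcomp (Fin.cons (posG emb a) y : Fin (m + 1) → SimpleGraph W) J.succ
          have h2 : (fun G => g (Function.update
              (Fin.cons (posG emb a) y : Fin (m + 1) → SimpleGraph W) J.succ G)) =
              (fun G => g (Fin.cons (posG emb a) (Function.update y J G) :
                Fin (m + 1) → SimpleGraph W)) := by
            funext G
            rw [Fin.cons_update]
          rw [← h2]
          exact h1
        · rintro y ⟨i, hi⟩
          exact hrej _ ⟨i.succ, by simpa using hi⟩
      · have hempty : (univ.filter (fun c : Fin m → Fin k → Fin q =>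
            g (fun i => posG emb ((Fin.cons a c : Fin (m + 1) → Fin k → Fin q) i)) = true)) = ∅ := by
          rw [filter_eq_empty_iff]
          intro c _
          rw [hcons, Bool.not_eq_true]
          have h1 : h0 (posG emb a) = false := by
            by_contra h
            apply ha
            rw [acc, mem_filter]
            exact ⟨mem_univ _, by simpa using h⟩
          have h2 := hmono (Fin.cons (posG emb a) (fun i => posG emb (c i)) :
              Fin (m + 1) → SimpleGraph W)
            (Fin.cons (posG emb a) (fun _ => ⊤) : Fin (m + 1) → SimpleGraph W) (by
              intro i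
              refine Fin.cases ?_ (fun j => ?_) i
              · simp
              · simp)
          simp only [h0] at h1
          rw [h1] at h2
          exact Bool.eq_false_of_le_false h2
        rw [hempty]
        simp
    calc (univ.filter (fun c : Fin (m + 1) → Fin k → Fin q =>
          g (fun i => posG emb (c i)) = true)).card * q ^ (m + 1)
        ≤ (∑ a : Fin k → Fin q, (univ.filter (fun c : Fin m → Fin k → Fin q =>
          g (fun i => posG emb ((Fin.cons a c : Fin (m + 1) → Fin k → Fin q) i)) = true)).card)
            * q ^ (m + 1) := Nat.mul_le_mul_right _ (card_filter_cons _)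
      _ = (∑ a : Fin k → Fin q, (univ.filter (fun c : Fin m → Fin k → Fin q =>
          g (fun i => posG emb ((Fin.cons a c : Fin (m + 1) → Fin k → Fin q) i)) = true)).card
            * q ^ m) * q := by
          rw [← sum_mul]
          ring
      _ ≤ (∑ a : Fin k → Fin q, (if a ∈ acc emb h0 then (q ^ k) ^ m else 0)) * q :=
          Nat.mul_le_mul_right _ (sum_le_sum fun a _ => hT a)
      _ = ((acc emb h0).card * q) * (q ^ k) ^ m := by
          rw [← sum_filter, filter_mem_eq_inter, univ_inter, sum_const, smul_eq_mul]
          ring
      _ ≤ q ^ k * (q ^ k) ^ m := Nat.mul_le_mul_right _ hacc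
      _ = (q ^ k) ^ (m + 1) := by ring

end Pool.Agent.H611R2
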