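import Pool.Agent.H611R2.AltDefs

/-!
# Bounded nondeterminism in front of small monotone circuits: definitions
-/

namespace Pool.Agent.H611R2

open Pool.Agent.H520R2 Pool.Agent.H520R2.NM

/-- `Guess g s F`: the predicate `F` on bit strings can be decided by guessing `g` bits `z` and
then evaluating a function `f z` which has, for all values of `z`, a monotone circuit with at
most `s` gates (AND and OR of fan-in two). -/
def Guess {ι : Type} (g s : ℕ) (F : (ι → Bool) → Prop) : Prop :=
  ∃ f : (Fin g → Bool) → (ι → Bool) → Bool,
    (∀ z, MComp (VB ι) s (f z)) ∧ ∀ x, F x ↔ ∃ z, f z x = true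

/-- All of the `m` graphs on `v` vertices given by `x` have cliques with `k` vertices. -/
def AllCliques (m v k : ℕ) (x : Fin m × Fin v × Fin v → Bool) : Prop :=
  ∀ i : Fin m, HasClique v k (fun p => x (i, p))

end Pool.Agent.H611R2
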