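import Pool.Agent.H611R2.GuessDefs
import Pool.Agent.H611R2.AltMain
import Pool.Agent.H611R2.BlocksPos

/-!
# A hierarchy theorem for bounded nondeterminism in front of small monotone circuits
-/

namespace Pool.Agent.H611R2

open Finset Pool.Agent.H520R2 Pool.Agent.H520R2.NM

/-- One-sided approximations of a conjunction of clique functions, with any density. -/
theorem acc_blocksD {W : Type} [Fintype W] [DecidableEq W] {k s q D : ℕ}
    (emb : Fin k × Fin q → W)
    (hone : ∀ h0 : SimpleGraph W → Bool, MComp (GB W) s h0 →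
      (∀ G : SimpleGraph W, G.CliqueFree k → h0 G = false) → (acc emb h0).card * D ≤ q ^ k) :
    ∀ (m : ℕ) (g : (Fin m → SimpleGraph W) → Bool)
      (_hmono : ∀ y y', y ≤ y' → g y ≤ g y')
      (_hcomp : ∀ (y : Fin m → SimpleGraph W) (J : Fin m),
        MComp (GB W) s (fun G => g (Function.update y J G)))
      (_hrej : ∀ y, (∃ i, (y i).CliqueFree k) → g y = false),
      (univ.filter (fun c : Fin m → Fin k → Fin q =>
        g (fun i => posG emb (c i)) = true)).card * D ^ m ≤ (q ^ k) ^ m := by
  classical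
  intro m
  induction m with
  | zero =>
    intro g _ _ _
    simp only [pow_zero, mul_one]
    refine (card_le_univ _).trans ?_
    simp
  | succ m ih =>
    intro g hmono hcomp hrej
    have hcons : ∀ (a : Fin k → Fin q) (c : Fin m → Fin k → Fin q),
        (fun i => posG emb ((Fin.cons a c : Fin (m + 1) → Fin k → Fin q) i)) =
          (Fin.cons (posG emb a) (fun i => posG emb (c i)) : Fin (m + 1) → SimpleGraph W) := by
      intro a c
      funext i
      refine Fin.cases ?_ (fun j => ?_) i
      · simp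
      · simp
    let h0 : SimpleGraph W → Bool := fun G =>
      g (Fin.cons G (fun _ => ⊤) : Fin (m + 1) → SimpleGraph W)
    have hh0 : MComp (GB W) s h0 := by
      have h1 := hcomp (fun _ => ⊤) 0
      have h2 : (fun G => g (Function.update (fun _ => ⊤) 0 G)) = h0 := by
        funext G
        simp only [h0]
        congr 1
        funext i
        refine Fin.cases ?_ (fun j => ?_) i
        · simp
        · simp
      rw [← h2]
      exact h1
    have hacc : (acc emb h0).card * D ≤ q ^ k :=
      hone h0 hh0 (fun G hG => hrej _ ⟨0, by simpa using hG⟩)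
    have hT : ∀ a : Fin k → Fin q,
        (univ.filter (fun c : Fin m → Fin k → Fin q =>
          g (fun i => posG emb ((Fin.cons a c : Fin (m + 1) → Fin k → Fin q) i)) = true)).card
            * D ^ m ≤ if a ∈ acc emb h0 then (q ^ k) ^ m else 0 := by
      intro a
      split_ifs with ha
      · have key := ih (fun y => g (Fin.cons (posG emb a) y : Fin (m + 1) → SimpleGraph W)) ?_ ?_ ?_
        · simp only [hcons]
          exact key
        · intro y y' hyy
          apply hmono
          intro i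
          refine Fin.cases ?_ (fun j => ?_) i
          · simp
          · simpa using hyy j
        · intro y J
          have h1 := hcomp (Fin.cons (posG emb a) y : Fin (m + 1) → SimpleGraph W) J.succ
          have h2 : (fun G => g (Function.update
              (Fin.cons (posG emb a) y : Fin (m + 1) → SimpleGraph W) J.succ G)) =
              (fun G => g (Fin.cons (posG emb a) (Function.update y J G) :
                Fin (m + 1) → SimpleGraph W)) := by
            funext G
            rw [Fin.cons_update]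
          rw [← h2]
          exact h1
        · rintro y ⟨i, hi⟩
          exact hrej _ ⟨i.succ, by simpa using hi⟩
      · have hempty : (univ.filter (fun c : Fin m → Fin k → Fin q =>
            g (fun i => posG emb ((Fin.cons a c : Fin (m + 1) → Fin k → Fin q) i)) = true)) = ∅ := by
          rw [filter_eq_empty_iff]
          intro c _
          rw [hcons, Bool.not_eq_true]
          have h1 : h0 (posG emb a) = false := by
            by_contra h
            apply ha
            rw [acc, mem_filter]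
            exact ⟨mem_univ _, by simpa using h⟩
          have h2 := hmono (Fin.cons (posG emb a) (fun i => posG emb (c i)) :
              Fin (m + 1) → SimpleGraph W)
            (Fin.cons (posG emb a) (fun _ => ⊤) : Fin (m + 1) → SimpleGraph W) (by
              intro i
              refine Fin.cases ?_ (fun j => ?_) i
              · simp
              · simp)
          simp only [h0] at h1
          rw [h1] at h2
          exact Bool.eq_false_of_le_false h2
        rw [hempty]
        simp
    calc (univ.filter (fun c : Fin (m + 1) → Fin k → Fin q =>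
          g (fun i => posG emb (c i)) = true)).card * D ^ (m + 1)
        ≤ (∑ a : Fin k → Fin q, (univ.filter (fun c : Fin m → Fin k → Fin q =>
          g (fun i => posG emb ((Fin.cons a c : Fin (m + 1) → Fin k → Fin q) i)) = true)).card)
            * D ^ (m + 1) := Nat.mul_le_mul_right _ (card_filter_cons _)
      _ = (∑ a : Fin k → Fin q, (univ.filter (fun c : Fin m → Fin k → Fin q =>
          g (fun i => posG emb ((Fin.cons a c : Fin (m + 1) → Fin k → Fin q) i)) = true)).card
            * D ^ m) * D := by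
          rw [← sum_mul]
          ring
      _ ≤ (∑ a : Fin k → Fin q, (if a ∈ acc emb h0 then (q ^ k) ^ m else 0)) * D :=
          Nat.mul_le_mul_right _ (sum_le_sum fun a _ => hT a)
      _ = ((acc emb h0).card * D) * (q ^ k) ^ m := by
          rw [← sum_filter, filter_mem_eq_inter, univ_inter, sum_const, smul_eq_mul]
          ring
      _ ≤ q ^ k * (q ^ k) ^ m := Nat.mul_le_mul_right _ hacc
      _ = (q ^ k) ^ (m + 1) := by ring

/-- One block, with large groups. -/
theorem few_accepted_big {W : Type} [Fintype W] [DecidableEq W] {r s : ℕ} (hr : 2 ≤ r)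
    (emb : Fin (r ^ 2) × Fin ((200 * r ^ 6) ^ 2) → W) (hemb : Function.Injective emb)
    (hs : s < 2 ^ r) {f : SimpleGraph W → Bool} (hf : MComp (GB W) s f)
    (hrej : ∀ G : SimpleGraph W, G.CliqueFree (r ^ 2) → f G = false) :
    (acc emb f).card * (200 * r ^ 6) ^ (r + 2) ≤ ((200 * r ^ 6) ^ 2) ^ (r ^ 2) := by
  classical
  have hk4 : 4 ≤ r ^ 2 := by nlinarith
  have hll1 : r * (r - 1) ≤ r ^ 2 - 1 := by
    obtain ⟨t, rfl⟩ : ∃ t, r = t + 1 := ⟨r - 1, by omega⟩
    simp only [Nat.add_sub_cancel]
    have : (t + 1) ^ 2 = (t + 1) * t + t + 1 := by ring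
    omega
  have hpos6 : 1 ≤ r ^ 6 := Nat.one_le_pow _ _ (by omega)
  have hp2 : 2 ≤ 10 * r ^ 2 := by omega
  have hq1 : 1 ≤ (200 * r ^ 6) ^ 2 := Nat.one_le_pow _ _ (by omega)
  obtain ⟨_, hb⟩ := arith_few (k := r ^ 2) hr hs
  have h1 := acc_core (κ := r ^ 2 - 1) (l := r) (p := 10 * r ^ 2) (s := s) emb hemb
    hq1 (by omega) hr hll1 hp2 f hf (fun c => hrej _ (negG_cliqueFree (by omega) c)) hb
  have hM := arith1 r (by omega)
  have h2 : s * ((10 * r ^ 2) ^ r * r.factorial) ^ 2 ≤ (200 * r ^ 6) ^ r := by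
    calc s * ((10 * r ^ 2) ^ r * r.factorial) ^ 2
        ≤ 2 ^ r * ((10 * r ^ 2) ^ r * r.factorial) ^ 2 := Nat.mul_le_mul_right _ hs.le
      _ ≤ 2 ^ r * (100 * r ^ 6) ^ r := Nat.mul_le_mul_left _ hM
      _ = (200 * r ^ 6) ^ r := by rw [← mul_pow]; congr 1; ring
  have hqpos : 0 < (200 * r ^ 6) ^ r := Nat.pow_pos (by omega)
  have h3 : (200 * r ^ 6) ^ r * ((acc emb f).card * (200 * r ^ 6) ^ (r + 2)) ≤
      (200 * r ^ 6) ^ r * ((200 * r ^ 6) ^ 2) ^ (r ^ 2) := by
    calc (200 * r ^ 6) ^ r * ((acc emb f).card * (200 * r ^ 6) ^ (r + 2)) =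
          (acc emb f).card * ((200 * r ^ 6) ^ 2) ^ (r + 1) := by
          rw [← pow_mul]
          have : 2 * (r + 1) = r + (r + 2) := by ring
          rw [this, pow_add]
          ring
      _ ≤ s * ((10 * r ^ 2) ^ r * r.factorial) ^ 2 * ((200 * r ^ 6) ^ 2) ^ (r ^ 2) := h1
      _ ≤ _ := Nat.mul_le_mul_right _ h2
  exact Nat.le_of_mul_le_mul_left h3 hqpos

theorem bitsOf_update_base {m v : ℕ} (y : Fin m → SimpleGraph (Fin v)) (J : Fin m)
    (b : (Fin m × Fin v × Fin v → Bool) → Bool) (hb : b ∈ VB (Fin m × Fin v × Fin v)) :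
    (b ∘ fun G : SimpleGraph (Fin v) => bitsOf (Function.update y J G)) ∈ GB (Fin v) := by
  rcases hb with ⟨b, rfl⟩ | ⟨⟨i, u, w⟩, rfl⟩
  · exact Or.inl ⟨b, rfl⟩
  · by_cases hi : i = J
    · subst hi
      refine Or.inr ⟨u, w, ?_⟩
      funext G
      rw [Bool.eq_iff_iff]
      simp only [Function.comp, bitsOf, adjFn, decide_eq_true_eq]
      rw [Function.update_self]
    · refine Or.inl ⟨bitsOf y (i, u, w), ?_⟩
      funext G
      simp only [Function.comp, bitsOf]
      rw [Function.update_of_ne hi]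

theorem bitsOf_mono {J : Type} {v : ℕ} {y y' : J → SimpleGraph (Fin v)} (h : y ≤ y') :
    bitsOf y ≤ bitsOf y' := by
  intro p
  by_cases hp : bitsOf y p = true
  · have : bitsOf y' p = true := by
      simp only [bitsOf, decide_eq_true_eq] at hp ⊢
      exact h p.1 hp
    rw [hp, this]
  · rw [Bool.not_eq_true] at hp
    rw [hp]
    exact Bool.false_le _

theorem allCliques_bitsOf {m v k : ℕ} (y : Fin m → SimpleGraph (Fin v)) :
    AllCliques m v k (bitsOf y) ↔ ∀ i, ¬ (y i).CliqueFree k := by
  unfold AllCliques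
  exact forall_congr' fun i => hasClique_iff (y i) _ (fun a b => by simp [bitsOf])

/-- **Lower bound.** -/
theorem guess_lower {m r s g : ℕ} (hr : 2 ≤ r) (hs : s < 2 ^ r)
    (hg : 2 ^ g < ((200 * r ^ 6) ^ (r + 2)) ^ m) :
    ¬ Guess g s (AllCliques m (40000 * r ^ 14) (r ^ 2)) := by
  classical
  rintro ⟨f, hf, hF⟩
  have hemb : Nonempty (Fin (r ^ 2) × Fin ((200 * r ^ 6) ^ 2) ↪ Fin (40000 * r ^ 14)) := by
    apply Function.Embedding.nonempty_of_card_le
    rw [Fintype.card_prod, Fintype.card_fin, Fintype.card_fin, Fintype.card_fin]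
    apply le_of_eq
    ring
  obtain ⟨emb⟩ := hemb
  obtain ⟨q, hq⟩ : ∃ q, q = (200 * r ^ 6) ^ 2 := ⟨_, rfl⟩
  have hpos6 : 1 ≤ r ^ 6 := Nat.one_le_pow _ _ (by omega)
  have hqpos : 0 < (200 * r ^ 6) ^ 2 := Nat.pow_pos (by omega)
  have hone : ∀ z : Fin g → Bool,
      (univ.filter (fun c : Fin m → Fin (r ^ 2) → Fin ((200 * r ^ 6) ^ 2) =>
        f z (bitsOf (fun i => posG emb (c i))) = true)).card * ((200 * r ^ 6) ^ (r + 2)) ^ m ≤
          (((200 * r ^ 6) ^ 2) ^ (r ^ 2)) ^ m := by
    intro z
    refine acc_blocksD (s := s) emb (fun h0 hh0 hrej0 =>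
      few_accepted_big hr emb emb.injective hs hh0 hrej0) m (fun y => f z (bitsOf y)) ?_ ?_ ?_
    · intro y y' hyy
      obtain ⟨L, hL, _, hfL⟩ := hf z
      exact NM.mono_of_av hL _ hfL _ _ (bitsOf_mono hyy)
    · intro y J
      exact (hf z).comp (fun H => bitsOf (Function.update y J H)) (bitsOf_update_base y J)
    · rintro y ⟨i, hi⟩
      by_contra hne
      rw [Bool.not_eq_false] at hne
      exact (allCliques_bitsOf y).mp ((hF _).mpr ⟨z, hne⟩) i hi
  have hcov : (univ : Finset (Fin m → Fin (r ^ 2) → Fin ((200 * r ^ 6) ^ 2))) ⊆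
      univ.biUnion (fun z : Fin g → Bool =>
        univ.filter (fun c => f z (bitsOf (fun i => posG emb (c i))) = true)) := by
    intro c _
    obtain ⟨z, hz⟩ := (hF (bitsOf (fun i => posG emb (c i)))).mp
      ((allCliques_bitsOf _).mpr (fun i => posG_not_cliqueFree emb emb.injective (c i)))
    rw [mem_biUnion]
    exact ⟨z, mem_univ _, by simpa using hz⟩
  have hle := (card_le_card hcov).trans card_biUnion_le
  rw [card_univ, Fintype.card_fun, Fintype.card_fun, Fintype.card_fin, Fintype.card_fin,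
    Fintype.card_fin] at hle
  have h1 : (((200 * r ^ 6) ^ 2) ^ (r ^ 2)) ^ m * ((200 * r ^ 6) ^ (r + 2)) ^ m ≤
      (((200 * r ^ 6) ^ 2) ^ (r ^ 2)) ^ m * 2 ^ g := by
    calc (((200 * r ^ 6) ^ 2) ^ (r ^ 2)) ^ m * ((200 * r ^ 6) ^ (r + 2)) ^ m
        ≤ (∑ z : Fin g → Bool, (univ.filter
            (fun c : Fin m → Fin (r ^ 2) → Fin ((200 * r ^ 6) ^ 2) =>
              f z (bitsOf (fun i => posG emb (c i))) = true)).card) *
            ((200 * r ^ 6) ^ (r + 2)) ^ m := Nat.mul_le_mul_right _ hle
      _ = ∑ z : Fin g → Bool, (univ.filter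
            (fun c : Fin m → Fin (r ^ 2) → Fin ((200 * r ^ 6) ^ 2) =>
              f z (bitsOf (fun i => posG emb (c i))) = true)).card *
            ((200 * r ^ 6) ^ (r + 2)) ^ m := by rw [sum_mul]
      _ ≤ ∑ _z : Fin g → Bool, (((200 * r ^ 6) ^ 2) ^ (r ^ 2)) ^ m :=
          sum_le_sum fun z _ => hone z
      _ = _ := by
          rw [sum_const, card_univ, smul_eq_mul, Fintype.card_fun, Fintype.card_fin,
            Fintype.card_bool]
          ring
  have hpos : 0 < (((200 * r ^ 6) ^ 2) ^ (r ^ 2)) ^ m := Nat.pow_pos (Nat.pow_pos hqpos)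
  have h2 := Nat.le_of_mul_le_mul_left h1 hpos
  omega

/-! ### upper bound -/

theorem mcomp_congr {X : Type} {B : Set (X → Bool)} {s : ℕ} {f f' : X → Bool} (h : MComp B s f)
    (hff : ∀ x, f x = f' x) : MComp B s f' := by
  have : f = f' := funext hff
  rw [← this]
  exact h

/-- **Upper bound**: guess the vertices of all cliques. -/
theorem guess_upper {m v k g : ℕ} (hv : 1 ≤ v) (hg : (v ^ k) ^ m ≤ 2 ^ g) :
    Guess g (m * k ^ 2) (AllCliques m v k) := by
  classical
  have : Nonempty (Fin v) := ⟨⟨0, hv⟩⟩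
  obtain ⟨π, hπ⟩ : ∃ π : (Fin g → Bool) → (Fin m → Fin k → Fin v), Function.Surjective π := by
    have hcard : Fintype.card (Fin m → Fin k → Fin v) ≤ Fintype.card (Fin g → Bool) := by
      rw [Fintype.card_fun, Fintype.card_fun, Fintype.card_fin, Fintype.card_fin,
        Fintype.card_fin, Fintype.card_fun, Fintype.card_fin, Fintype.card_bool]
      exact hg
    obtain ⟨emb⟩ := Function.Embedding.nonempty_of_card_le hcard
    exact ⟨Function.invFun emb, Function.invFun_surjective emb.injective⟩
  let im : (Fin k → Fin v) → Finset (Fin v) := fun a => univ.image a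
  refine ⟨fun z x => decide (∀ i, (im (π z i)).card = k ∧
    ∀ a ∈ im (π z i), ∀ b ∈ im (π z i), a < b → x (i, a, b) = true), fun z => ?_, fun x => ?_⟩
  · by_cases hall : ∀ i, (im (π z i)).card = k
    · let E : List (Fin m × Fin v × Fin v) :=
        (List.finRange m).flatMap (fun i =>
          (((im (π z i)) ×ˢ (im (π z i))).filter (fun p => p.1 < p.2)).toList.map
            (fun p => (i, p)))
      have h := and_prog (B := VB (Fin m × Fin v × Fin v)) (Or.inl ⟨true, rfl⟩)
        (E.map (fun p => (fun x : Fin m × Fin v × Fin v → Bool => x p))) (by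
          intro g hg
          rw [List.mem_map] at hg
          obtain ⟨p, _, rfl⟩ := hg
          exact Or.inr ⟨p, rfl⟩)
      have hmem : ∀ (i : Fin m) (a b : Fin v), (i, a, b) ∈ E ↔
          a ∈ im (π z i) ∧ b ∈ im (π z i) ∧ a < b := by
        intro i a b
        simp only [E, List.mem_flatMap, List.mem_finRange, true_and, List.mem_map, mem_toList,
          mem_filter, mem_product, Prod.mk.injEq]
        constructor
        · rintro ⟨i', p, ⟨⟨h1, h2⟩, h3⟩, rfl, h4⟩
          subst h4
          exact ⟨h1, h2, h3⟩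
        · rintro ⟨h1, h2, h3⟩
          exact ⟨i, (a, b), ⟨⟨h1, h2⟩, h3⟩, rfl, rfl⟩
      have hlen : E.length ≤ m * k ^ 2 := by
        simp only [E, List.length_flatMap, List.length_map, length_toList]
        calc ((List.finRange m).map (fun i =>
              (((im (π z i)) ×ˢ (im (π z i))).filter (fun p => p.1 < p.2)).card)).sum
            ≤ ((List.finRange m).map (fun _ => k ^ 2)).sum := by
              apply List.sum_le_sum
              intro i _
              calc _ ≤ ((im (π z i)) ×ˢ (im (π z i))).card := card_filter_le _ _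
                _ = k ^ 2 := by rw [card_product, hall i, pow_two]
          _ = m * k ^ 2 := by simp
      refine mcomp_congr (mcomp_mono h (by rw [List.length_map]; exact hlen)) (fun x => ?_)
      rw [Bool.eq_iff_iff, List.all_eq_true, decide_eq_true_eq]
      constructor
      · intro h i
        refine ⟨hall i, fun a ha b hb hab => ?_⟩
        exact h (fun x => x (i, a, b)) (List.mem_map.mpr ⟨(i, a, b), (hmem i a b).mpr
          ⟨ha, hb, hab⟩, rfl⟩)
      · intro h g hg
        rw [List.mem_map] at hg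
        obtain ⟨⟨i, a, b⟩, hab, rfl⟩ := hg
        rw [hmem] at hab
        exact (h i).2 a hab.1 b hab.2.1 hab.2.2
    · refine ⟨[], MProg.nil, Nat.zero_le _, Or.inl (Or.inl ⟨false, ?_⟩)⟩
      funext x
      rw [decide_eq_false_iff_not]
      intro h
      exact hall fun i => (h i).1
  · constructor
    · intro hx
      choose S hS using hx
      -- enumerate the cliques
      have hen : ∀ i, ∃ a : Fin k → Fin v, im a = S i := by
        intro i
        have e := (S i).equivFin
        rw [(hS i).1] at e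
        refine ⟨fun j => (e.symm j : Fin v), ?_⟩
        ext b
        simp only [im, mem_image, mem_univ, true_and]
        constructor
        · rintro ⟨j, rfl⟩
          exact (e.symm j).2
        · intro hb
          exact ⟨e ⟨b, hb⟩, by simp⟩
      choose a ha using hen
      obtain ⟨z, hz⟩ := hπ a
      refine ⟨z, ?_⟩
      rw [decide_eq_true_eq]
      intro i
      rw [hz, ha i]
      exact hS i
    · rintro ⟨z, hz⟩
      rw [decide_eq_true_eq] at hz
      intro i
      exact ⟨im (π z i), (hz i).1, (hz i).2⟩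

/-- **The hierarchy.** -/
theorem guess_hierarchy {r g : ℕ} (hr : 2 ≤ r) (hg : (200 * r ^ 6) ^ (r + 2) ≤ 2 ^ g) :
    ∃ m, 1 ≤ m ∧ m ≤ g ∧
      Guess (6 * r * g) (m * r ^ 4) (AllCliques m (40000 * r ^ 14) (r ^ 2)) ∧
      ∀ s, s < 2 ^ r → ¬ Guess g s (AllCliques m (40000 * r ^ 14) (r ^ 2)) := by
  obtain ⟨A, hA⟩ : ∃ A, A = (200 * r ^ 6) ^ (r + 2) := ⟨_, rfl⟩
  have hr6 : 2 ^ 6 ≤ r ^ 6 := Nat.pow_le_pow_left hr 6
  have hA4 : 2 ^ 4 ≤ A := by
    rw [hA]
    calc 2 ^ 4 ≤ (200 * r ^ 6) ^ 4 := Nat.pow_le_pow_left (by omega) 4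
      _ ≤ (200 * r ^ 6) ^ (r + 2) := Nat.pow_le_pow_right (by omega) (by omega)
  rw [← hA] at hg
  -- the number of blocks
  have hex : ∃ m, 2 ^ g < A ^ m := by
    refine ⟨g + 1, ?_⟩
    calc 2 ^ g < 2 ^ (g + 1) := Nat.pow_lt_pow_right (by norm_num) (by omega)
      _ ≤ A ^ (g + 1) := Nat.pow_le_pow_left (by omega) _
  classical
  obtain ⟨m, hm, hmin⟩ : ∃ m, 2 ^ g < A ^ m ∧ ∀ m' < m, ¬ 2 ^ g < A ^ m' :=
    ⟨Nat.find hex, Nat.find_spec hex, fun m' h => Nat.find_min hex h⟩
  have hm1 : 1 ≤ m := by
    by_contra h0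
    have : m = 0 := by omega
    subst this
    rw [pow_zero] at hm
    exact absurd hm (by have := Nat.one_le_two_pow (n := g); omega)
  have hm2 : 2 ≤ m := by
    by_contra h0
    have : m = 1 := by omega
    subst this
    rw [pow_one] at hm
    omega
  have hprev : A ^ (m - 1) ≤ 2 ^ g := not_lt.mp (hmin (m - 1) (by omega))
  have hmg : 4 * (m - 1) ≤ g := by
    have h1 : (2 : ℕ) ^ (4 * (m - 1)) ≤ 2 ^ g := by
      calc (2 : ℕ) ^ (4 * (m - 1)) = (2 ^ 4) ^ (m - 1) := by rw [pow_mul]
        _ ≤ A ^ (m - 1) := Nat.pow_le_pow_left hA4 _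
        _ ≤ 2 ^ g := hprev
    exact (Nat.pow_le_pow_iff_right (by norm_num)).mp h1
  refine ⟨m, hm1, by omega, ?_, fun s hs => guess_lower hr hs (by rw [← hA]; exact hm)⟩
  have hB : (40000 * r ^ 14) ^ (r ^ 2) ≤ A ^ (3 * r) := by
    rw [hA, ← pow_mul]
    calc (40000 * r ^ 14) ^ (r ^ 2) ≤ ((200 * r ^ 6) ^ 3) ^ (r ^ 2) := by
          apply Nat.pow_le_pow_left
          have : (200 * r ^ 6) ^ 3 = 8000000 * r ^ 18 := by ring
          rw [this]
          apply Nat.mul_le_mul (by norm_num)
          exact Nat.pow_le_pow_right (by omega) (by norm_num)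
      _ = (200 * r ^ 6) ^ (3 * r ^ 2) := by rw [← pow_mul]
      _ ≤ (200 * r ^ 6) ^ ((r + 2) * (3 * r)) := by
          apply Nat.pow_le_pow_right (by omega)
          nlinarith
  have hk : m * r ^ 4 = m * (r ^ 2) ^ 2 := by ring
  rw [hk]
  apply guess_upper
  · have : 1 ≤ r ^ 14 := Nat.one_le_pow _ _ (by omega)
    omega
  · calc ((40000 * r ^ 14) ^ (r ^ 2)) ^ m ≤ (A ^ (3 * r)) ^ m := Nat.pow_le_pow_left hB _
      _ = (A ^ m) ^ (3 * r) := by rw [← pow_mul, ← pow_mul, mul_comm]
      _ ≤ (2 ^ g * 2 ^ g) ^ (3 * r) := by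
          apply Nat.pow_le_pow_left
          calc A ^ m = A ^ (m - 1) * A := by rw [← pow_succ]; congr 1; omega
            _ ≤ 2 ^ g * 2 ^ g := Nat.mul_le_mul hprev hg
      _ = 2 ^ (6 * r * g) := by
          rw [← pow_add, ← pow_mul]
          congr 1
          ring

end Pool.Agent.H611R2
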