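import Pool.Agent.H611R2.ListClique
import Pool.Agent.H520R2.ClassLevel2

/-!
# Lists of graphs all of which have a large clique

A bit string `1^v 0 1^k 0 y` is read as a list of graphs on the vertices `0, …, v - 1`: the string
`y` is cut into blocks of `v²` bits, and each block is read as (the entries above the diagonal of)
an adjacency matrix.  The string belongs to the language if there is at least one graph and all
graphs have a clique with `k` vertices.
-/

namespace Pool.Agent.H611R2.LA

open Pool.Agent.NPC Pool.Agent.H611R2 Pool.Agent.H611R2.LC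

/-- The `j`-th graph read in `y` has a clique with `k` vertices. -/
def BlockHas (v k : ℕ) (y : List Bool) (j : ℕ) : Prop :=
  ∃ S : Finset ℕ, S.card = k ∧ (∀ a ∈ S, a < v) ∧ ∀ a ∈ S, ∀ b ∈ S, a < b → entry v y j a b = true

/-- There is at least one graph on `v` vertices read in `y`, and all of them have a clique with
`k` vertices. -/
def AllHave (v k : ℕ) (y : List Bool) : Prop :=
  0 < y.length / (v * v) ∧ ∀ j < y.length / (v * v), BlockHas v k y j

/-- **The language of nonempty lists of graphs all of which have a `k`-clique.** -/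
def ListAll : Set (List Bool) :=
  {x | AllHave (ones x) (ones (after x)) (after (after x))}

/-- The verifier. -/
def chkA (v k : ℕ) (y w : List Bool) : Bool :=
  decide (0 < y.length / (v * v)) &&
  (List.range (y.length / (v * v))).all (fun j =>
    decide (((List.range v).filter (fun a => w.getD (j * v + a) false)).length = k) &&
    (List.range v).all (fun a => (List.range v).all (fun b =>
      !(decide (a < b) && (w.getD (j * v + a) false && w.getD (j * v + b) false)) ||
        y.getD (j * (v * v) + a * v + b) false)))

theorem chkA_poly {α : Type} [TEnc α] {v k : α → ℕ} {y w : α → List Bool} (hv : UPoly v)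
    (hk : NPC.Poly k) (hy : NPC.Poly y) (hw : NPC.Poly w) :
    NPC.Poly (fun a => chkA (v a) (k a) (y a) (w a)) := by
  have hv' : NPC.Poly v := hv.toPoly
  have hm : NPC.Poly (fun a => (y a).length / (v a * v a)) :=
    Poly.div (Poly.length hy) (Poly.mul hv' hv')
  have M : UPoly (fun a => (y a).length / (v a * v a)) :=
    UPoly.of_le hm (UPoly.length hy) (fun p => Nat.div_le_self _ _)
  have hF : NPC.Poly (fun q : (α × ℕ) × ℕ => (w q.1.1).getD (q.1.2 * v q.1.1 + q.2) false) :=
    Poly.getD (d := fun _ => false) (hw.comp (Poly.fst (Poly.fst Poly.id)))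
      (Poly.add (Poly.mul (Poly.snd (Poly.fst Poly.id)) (hv'.comp (Poly.fst (Poly.fst Poly.id))))
        (Poly.snd Poly.id))
      (NPC.Poly.const false)
  have h1 : NPC.Poly (fun r : α × ℕ =>
      decide (((List.range (v r.1)).filter (fun i => (w r.1).getD (r.2 * v r.1 + i) false)).length
        = k r.1)) :=
    Poly.decide_eq (Poly.length (Poly.filter (l := fun r : α × ℕ => List.range (v r.1))
      (p := fun r i => (w r.1).getD (r.2 * v r.1 + i) false)
      (hv.range.comp (Poly.fst Poly.id)) hF)) (hk.comp (Poly.fst Poly.id))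
  have A1 : NPC.Poly (fun r : ((α × ℕ) × ℕ) × ℕ => r.1.1.1) :=
    Poly.fst (Poly.fst (Poly.fst Poly.id))
  have A2 : NPC.Poly (fun r : ((α × ℕ) × ℕ) × ℕ => r.1.1.2) :=
    Poly.snd (Poly.fst (Poly.fst Poly.id))
  have A3 : NPC.Poly (fun r : ((α × ℕ) × ℕ) × ℕ => r.1.2) := Poly.snd (Poly.fst Poly.id)
  have A4 : NPC.Poly (fun r : ((α × ℕ) × ℕ) × ℕ => r.2) := Poly.snd Poly.id
  have V3 : NPC.Poly (fun r : ((α × ℕ) × ℕ) × ℕ => v r.1.1.1) := hv'.comp A1
  have h2 : NPC.Poly (fun r : ((α × ℕ) × ℕ) × ℕ =>
      !(decide (r.1.2 < r.2) && ((w r.1.1.1).getD (r.1.1.2 * v r.1.1.1 + r.1.2) false &&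
        (w r.1.1.1).getD (r.1.1.2 * v r.1.1.1 + r.2) false)) ||
        (y r.1.1.1).getD (r.1.1.2 * (v r.1.1.1 * v r.1.1.1) + r.1.2 * v r.1.1.1 + r.2) false) := by
    refine Poly.or (Poly.not (Poly.and (Poly.decide_lt A3 A4) (Poly.and ?_ ?_))) ?_
    · exact Poly.getD (d := fun _ => false) (hw.comp A1) (Poly.add (Poly.mul A2 V3) A3)
        (NPC.Poly.const false)
    · exact Poly.getD (d := fun _ => false) (hw.comp A1) (Poly.add (Poly.mul A2 V3) A4)
        (NPC.Poly.const false)
    · exact Poly.getD (d := fun _ => false) (hy.comp A1)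
        (Poly.add (Poly.add (Poly.mul A2 (Poly.mul V3 V3)) (Poly.mul A3 V3)) A4)
        (NPC.Poly.const false)
  have h3 : NPC.Poly (fun r : (α × ℕ) × ℕ => (List.range (v r.1.1)).all (fun b =>
      !(decide (r.2 < b) && ((w r.1.1).getD (r.1.2 * v r.1.1 + r.2) false &&
        (w r.1.1).getD (r.1.2 * v r.1.1 + b) false)) ||
        (y r.1.1).getD (r.1.2 * (v r.1.1 * v r.1.1) + r.2 * v r.1.1 + b) false)) :=
    Poly.all (l := fun r : (α × ℕ) × ℕ => List.range (v r.1.1))
      (p := fun r b => !(decide (r.2 < b) && ((w r.1.1).getD (r.1.2 * v r.1.1 + r.2) false &&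
        (w r.1.1).getD (r.1.2 * v r.1.1 + b) false)) ||
        (y r.1.1).getD (r.1.2 * (v r.1.1 * v r.1.1) + r.2 * v r.1.1 + b) false)
      (hv.range.comp (Poly.fst (Poly.fst Poly.id))) h2
  have h4 : NPC.Poly (fun r : α × ℕ => (List.range (v r.1)).all (fun a =>
      (List.range (v r.1)).all (fun b =>
      !(decide (a < b) && ((w r.1).getD (r.2 * v r.1 + a) false &&
        (w r.1).getD (r.2 * v r.1 + b) false)) ||
        (y r.1).getD (r.2 * (v r.1 * v r.1) + a * v r.1 + b) false))) :=
    Poly.all (l := fun r : α × ℕ => List.range (v r.1))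
      (p := fun r a => (List.range (v r.1)).all (fun b =>
      !(decide (a < b) && ((w r.1).getD (r.2 * v r.1 + a) false &&
        (w r.1).getD (r.2 * v r.1 + b) false)) ||
        (y r.1).getD (r.2 * (v r.1 * v r.1) + a * v r.1 + b) false))
      (hv.range.comp (Poly.fst Poly.id)) h3
  exact Poly.and (Poly.decide_lt (NPC.Poly.const 0) hm)
    (Poly.all (l := fun a => List.range ((y a).length / (v a * v a)))
    (p := fun c j =>
      decide (((List.range (v c)).filter (fun i => (w c).getD (j * v c + i) false)).length = k c) &&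
      (List.range (v c)).all (fun a =>
      (List.range (v c)).all (fun b =>
      !(decide (a < b) && ((w c).getD (j * v c + a) false && (w c).getD (j * v c + b) false)) ||
        (y c).getD (j * (v c * v c) + a * v c + b) false))) M.range (Poly.and h1 h4))

theorem allHave_of_chkA {v k : ℕ} {y w : List Bool} (hw : chkA v k y w = true) :
    AllHave v k y := by
  unfold chkA at hw
  simp only [Bool.and_eq_true, decide_eq_true_eq, List.mem_range,
    List.all_eq_true] at hw
  obtain ⟨h0, hall⟩ := hw
  refine ⟨h0, fun j hj => ?_⟩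
  obtain ⟨h1, h2⟩ := hall j hj
  refine ⟨((List.range v).filter (fun a => w.getD (j * v + a) false)).toFinset, ?_, ?_, ?_⟩
  · rw [List.toFinset_card_of_nodup (List.nodup_range.filter _)]
    exact h1
  · intro a ha
    simp only [List.mem_toFinset, List.mem_filter, List.mem_range] at ha
    exact ha.1
  · intro a ha b hb hab
    simp only [List.mem_toFinset, List.mem_filter, List.mem_range] at ha hb
    have := h2 a ha.1 b hb.1
    rw [ha.2, hb.2, decide_eq_true hab] at this
    change y.getD _ _ = true
    simpa using this

theorem chkA_of_allHave {v k : ℕ} {y : List Bool} (h : AllHave v k y) :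
    ∃ w : List Bool, w.length ≤ y.length ∧ chkA v k y w = true := by
  obtain ⟨h0, hall⟩ := h
  choose! S hS hSv hcl using hall
  have hv : 0 < v := by
    by_contra hv
    have : v = 0 := by omega
    subst this
    simp at h0
  have hvv : y.length / (v * v) * (v * v) ≤ y.length := Nat.div_mul_le_self _ _
  set m := y.length / (v * v) with hm
  refine ⟨(List.range (m * v)).map (fun t => decide (t % v ∈ S (t / v))), ?_, ?_⟩
  · simp only [List.length_map, List.length_range]
    nlinarith
  · have hget : ∀ j < m, ∀ a, a < v →
        ((List.range (m * v)).map (fun t => decide (t % v ∈ S (t / v)))).getD (j * v + a) false =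
        decide (a ∈ S j) := by
      intro j hj a ha
      have hlt : j * v + a < m * v := by
        calc j * v + a < j * v + v := by omega
          _ = (j + 1) * v := by ring
          _ ≤ m * v := Nat.mul_le_mul_right _ hj
      rw [List.getD_eq_getElem _ _ (by simpa using hlt)]
      simp only [List.getElem_map, List.getElem_range]
      have e1 : (j * v + a) % v = a := by
        rw [Nat.add_comm, Nat.add_mul_mod_self_right, Nat.mod_eq_of_lt ha]
      have e2 : (j * v + a) / v = j := by
        rw [mul_comm, Nat.mul_add_div hv, Nat.div_eq_of_lt ha, add_zero]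
      rw [e1, e2]
    unfold chkA
    rw [Bool.and_eq_true]
    refine ⟨decide_eq_true h0, ?_⟩
    rw [List.all_eq_true]
    intro j hj
    have hj' : j < m := by simpa using hj
    rw [Bool.and_eq_true]
    constructor
    · rw [decide_eq_true_eq, ← hS j hj']
      have hfil : (List.range v).filter (fun a =>
          ((List.range (m * v)).map (fun t => decide (t % v ∈ S (t / v)))).getD (j * v + a) false) =
          (List.range v).filter (fun a => decide (a ∈ S j)) := by
        apply List.filter_congr
        intro a ha
        exact hget j hj' a (by simpa using ha)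
      rw [hfil]
      have h1 : ((List.range v).filter (fun a => decide (a ∈ S j))).toFinset = S j := by
        ext a
        simp only [List.mem_toFinset, List.mem_filter, List.mem_range, decide_eq_true_eq]
        exact ⟨fun h => h.2, fun h => ⟨hSv j hj' a h, h⟩⟩
      have h2 : ((List.range v).filter (fun a => decide (a ∈ S j))).Nodup :=
        List.nodup_range.filter _
      rw [← List.toFinset_card_of_nodup h2, h1]
    · rw [List.all_eq_true]
      intro a ha
      have ha' : a < v := by simpa using ha
      rw [List.all_eq_true]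
      intro b hb
      have hb' : b < v := by simpa using hb
      rw [hget j hj' a ha', hget j hj' b hb']
      by_cases hab : a < b ∧ a ∈ S j ∧ b ∈ S j
      · have := hcl j hj' a hab.2.1 b hab.2.2 hab.1
        unfold entry at this
        rw [this]
        simp
      · have : (decide (a < b) && (decide (a ∈ S j) && decide (b ∈ S j))) = false := by
          rw [← Bool.not_eq_true]
          simpa using fun h1 h2 h3 => hab ⟨h1, h2, h3⟩
        rw [this]
        simp

/-- **The language is in `NP`.** -/
theorem inNP_listAll : InNP ListAll := by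
  refine inNP_of_poly (fun p => chkA (ones p.1) (ones (after p.1)) (after (after p.1)) p.2) ?_
    Polynomial.X fun x => ?_
  · have X : NPC.Poly (fun p : List Bool × List Bool => p.1) := Poly.fst Poly.id
    have W : NPC.Poly (fun p : List Bool × List Bool => p.2) := Poly.snd Poly.id
    exact chkA_poly (ones_upoly X) (ones_upoly (after_poly X)).toPoly (after_poly (after_poly X)) W
  · change AllHave _ _ _ ↔ _
    simp only [Polynomial.eval_X]
    constructor
    · intro h
      obtain ⟨w, h1, h2⟩ := chkA_of_allHave h
      exact ⟨w, h1.trans ((after_length_le _).trans (after_length_le _)), h2⟩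
    · rintro ⟨w, _, h2⟩
      exact allHave_of_chkA h2

/-- Membership for a string with the header `1^v 0 1^k 0`. -/
theorem mem_listAll_hdr (v k : ℕ) (y : List Bool) :
    List.replicate v true ++ false :: (List.replicate k true ++ false :: y) ∈ ListAll ↔
      AllHave v k y := by
  change AllHave _ _ _ ↔ _
  rw [ones_hdr, after_hdr, ones_hdr, after_hdr]

theorem allHave_one {v k : ℕ} {y : List Bool} (hy : y.length = v * v) :
    AllHave v k y ↔ HasClique v k y := by
  have hdiv : y.length / (v * v) = 0 ∨ y.length / (v * v) = 1 := by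
    rcases Nat.eq_zero_or_pos (v * v) with h | h
    · left; rw [h]; simp
    · right; rw [hy]; exact Nat.div_self h
  constructor
  · rintro ⟨h0, h⟩
    obtain ⟨S, hS⟩ := h 0 h0
    exact ⟨0, h0, S, hS⟩
  · rintro ⟨j, hj, S, hS⟩
    have h1 : y.length / (v * v) = 1 := by omega
    refine ⟨by omega, fun i hi => ?_⟩
    have : i = j := by omega
    subst this
    exact ⟨S, hS⟩

theorem red_listAll (φ : List (List (Bool × ℕ))) : red φ ∈ ListAll ↔ red φ ∈ ListClique := by
  by_cases hφ : φ = []
  · subst hφ
    have h1 : red [] = List.replicate 1 true ++ false :: (List.replicate 0 true ++ false ::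
      [false]) := rfl
    rw [h1, mem_listClique_hdr, mem_listAll_hdr, allHave_one (by simp)]
  · have hred : red φ = List.replicate (occ φ).length true ++ false ::
        (List.replicate φ.length true ++ false :: mat φ) := by
      unfold red
      have : φ.isEmpty = false := by cases φ <;> simp_all
      rw [this, cond_false, List.map_const', List.map_const']
    rw [hred, mem_listClique_hdr, mem_listAll_hdr, allHave_one (mat_length φ)]

/-- **The language is `NP`-hard.** -/
theorem npHard_listAll : NPHard ListAll := by
  intro L hL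
  obtain ⟨f, hf, hfL⟩ := hardI_SAT L hL
  exact ⟨fun x => red (f x), polyTime_raw hf red_poly,
    fun x => (hfL x).trans ((red_correct _).trans (red_listAll _).symm)⟩

/-! ### Assembling graphs -/

open Pool.Agent.H520R2.NM in
theorem blockHas_asmB (N v k : ℕ) (y : Fin (N / (v * v)) → SimpleGraph (Fin v))
    (j : Fin (N / (v * v))) :
    BlockHas v k (List.ofFn (asmB N v y)) j ↔ ¬ (y j).CliqueFree k := by
  classical
  have hentry : ∀ (a b : Fin v),
      a < b → (entry v (List.ofFn (asmB N v y)) j a b = true ↔ (y j).Adj a b) := by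
    intro a b hab
    unfold entry
    have hlt : (j : ℕ) * (v * v) + a * v + b < N := pos_lt j.2 a.2 b.2
    rw [List.getD_eq_getElem _ _ (by simpa using hlt), List.getElem_ofFn]
    simp only [asmB, decide_eq_true_eq]
    constructor
    · rintro ⟨j', a', b', _, hadj, hpos'⟩
      obtain ⟨h1, h2, h3⟩ := pos_inj a'.2 b'.2 a.2 b.2 hpos'
      have h1' : j' = j := Fin.ext h1
      have h2' : a' = a := Fin.ext h2
      have h3' : b' = b := Fin.ext h3
      subst h1' h2' h3'
      exact hadj
    · intro h
      exact ⟨j, a, b, hab, h, rfl⟩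
  constructor
  · rintro ⟨S, hS, hSv, hcl⟩ hfree
    apply hfree (Finset.univ.filter (fun a : Fin v => (a : ℕ) ∈ S))
    rw [SimpleGraph.isNClique_iff]
    constructor
    · intro a ha b hb hab
      rw [Finset.mem_coe, Finset.mem_filter] at ha hb
      rcases lt_or_gt_of_ne hab with h | h
      · exact (hentry a b h).mp (hcl a ha.2 b hb.2 h)
      · exact ((hentry b a h).mp (hcl b hb.2 a ha.2 h)).symm
    · rw [← hS]
      apply Finset.card_bij (fun (a : Fin v) _ => (a : ℕ))
      · intro a ha
        exact (Finset.mem_filter.mp ha).2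
      · intro a _ b _ h
        exact Fin.ext h
      · intro a ha
        exact ⟨⟨a, hSv a ha⟩, Finset.mem_filter.mpr ⟨Finset.mem_univ _, ha⟩, rfl⟩
  · intro hj
    rw [SimpleGraph.CliqueFree] at hj
    push Not at hj
    obtain ⟨S, hS⟩ := hj
    rw [SimpleGraph.isNClique_iff] at hS
    refine ⟨S.map Fin.valEmbedding, ?_, ?_, ?_⟩
    · rw [Finset.card_map]; exact hS.2
    · intro a ha
      rw [Finset.mem_map] at ha
      obtain ⟨a', _, rfl⟩ := ha
      exact a'.2
    · intro a ha b hb hab
      rw [Finset.mem_map] at ha hb
      obtain ⟨a', ha', rfl⟩ := ha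
      obtain ⟨b', hb', rfl⟩ := hb
      have hab' : a' < b' := hab
      exact (hentry a' b' hab').mpr (hS.1 ha' hb' (ne_of_lt hab'))

open Pool.Agent.H520R2.NM in
theorem allHave_asmB (N v k : ℕ) (hN : 0 < N / (v * v))
    (y : Fin (N / (v * v)) → SimpleGraph (Fin v)) :
    AllHave v k (List.ofFn (asmB N v y)) ↔ ∀ i, ¬ (y i).CliqueFree k := by
  unfold AllHave
  rw [List.length_ofFn]
  constructor
  · rintro ⟨_, h⟩ i
    exact (blockHas_asmB N v k y i).mp (h i i.2)
  · intro h
    exact ⟨hN, fun j hj => (blockHas_asmB N v k y ⟨j, hj⟩).mpr (h ⟨j, hj⟩)⟩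

end Pool.Agent.H611R2.LA
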