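import Pool.Agent.H520R2.Raz3

/-!
# One-sided approximation of the clique function by small monotone circuits, one block

Razborov's argument (files `Pool.Agent.H520R2.*`) gives more than a lower bound.
A small monotone circuit that accepts all graphs with a `k`-clique accepts at least a quarter of
the complete `(k-1)`-partite graphs given by colourings (`few_rejected`).
A small monotone circuit that rejects all graphs without a `k`-clique accepts only an
exponentially small fraction of the transversal `k`-cliques (`few_accepted`).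
-/

namespace Pool.Agent.H611R2

open Finset Pool.Agent.H520R2

variable {W : Type*} [Fintype W] [DecidableEq W]

open Classical in
/-- The colourings whose complete multipartite graph is rejected by `f`. -/
noncomputable def rej (κ : ℕ) (f : SimpleGraph W → Bool) : Finset (W → Fin κ) :=
  univ.filter (fun c => f (negG c) = false)

theorem rej_core {k q κ l p s : ℕ} (emb : Fin k × Fin q → W) (hemb : Function.Injective emb)
    (hq : 1 ≤ q) (hκ : 1 ≤ κ) (hl2 : 2 ≤ l)
    (hl : l * (l - 1) ≤ κ) (hp : 2 ≤ p) (f : SimpleGraph W → Bool) (hf : MComp (GB W) s f)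
    (hpos : ∀ π, f (posG emb π) = true)
    (h1 : s * (p ^ l * l.factorial) ^ 2 < q ^ (l + 1))
    (h2 : 4 * (s * (p ^ l * l.factorial) ^ 2) ≤ 2 ^ p) :
    4 * (rej κ f).card ≤ 3 * κ ^ Fintype.card W := by
  classical
  obtain ⟨L, hL, hs, hfL⟩ := hf
  obtain ⟨EP, EN, hEN, hEP, hall⟩ := appr_prog (κ := κ) emb hemb hq hκ hl2 hl hp L hL
  obtain ⟨A, hA1, _, hA3, hA4⟩ := hall f hfL
  rcases A.eq_empty_or_nonempty with hA | ⟨S, hS⟩
  · exfalso
    have huniv : EP = univ := by
      rw [eq_univ_iff_forall]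
      intro π
      by_contra hπ
      obtain ⟨S, hS, _⟩ := hA3 π hπ (hpos π)
      rw [hA] at hS
      simp at hS
    rw [huniv, card_univ, Fintype.card_fun, Fintype.card_fin, Fintype.card_fin] at hEP
    have h3 : q ^ k * q ^ (l + 1) ≤ q ^ k * (L.length * (p ^ l * l.factorial) ^ 2) := by
      calc _ ≤ _ := hEP
        _ = _ := by ring
    have h4 := Nat.le_of_mul_le_mul_left h3 (by positivity)
    have h5 : L.length * (p ^ l * l.factorial) ^ 2 ≤ s * (p ^ l * l.factorial) ^ 2 :=
      Nat.mul_le_mul_right _ hs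
    omega
  · have hbad := bad_card hκ hl (∅ : Finset W) {S} (by
      intro T hT; rw [mem_singleton] at hT; rw [hT]; exact hA1 S hS) (by
      intro T hT T' hT' hne
      rw [mem_singleton] at hT hT'
      exact absurd (hT.trans hT'.symm) hne)
    rw [card_singleton, pow_one] at hbad
    have hcov : rej κ f ⊆ EN ∪ bad κ ∅ {S} := by
      intro c hc
      rw [rej, mem_filter] at hc
      rw [mem_union]
      by_cases hcE : c ∈ EN
      · exact Or.inl hcE
      · right
        simp only [bad, mem_filter, mem_univ, true_and, mem_singleton, forall_eq, coe_empty]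
        refine ⟨Set.injOn_empty c, fun hinj => ?_⟩
        have := hA4 c hcE ⟨S, hS, hinj⟩
        rw [hc.2] at this
        exact absurd this (by simp)
    have hcard := (card_le_card hcov).trans (card_union_le _ _)
    have hEN4 : 4 * EN.card ≤ κ ^ Fintype.card W := by
      have h3 : 2 ^ p * (4 * EN.card) ≤ 2 ^ p * κ ^ Fintype.card W := by
        calc 2 ^ p * (4 * EN.card) = 4 * (EN.card * 2 ^ p) := by ring
          _ ≤ 4 * (L.length * ((p ^ l * l.factorial) ^ 2 * κ ^ Fintype.card W)) :=
              Nat.mul_le_mul_left _ hEN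
          _ ≤ 4 * (s * ((p ^ l * l.factorial) ^ 2 * κ ^ Fintype.card W)) := by gcongr
          _ = 4 * (s * (p ^ l * l.factorial) ^ 2) * κ ^ Fintype.card W := by ring
          _ ≤ 2 ^ p * κ ^ Fintype.card W := Nat.mul_le_mul_right _ h2
      exact Nat.le_of_mul_le_mul_left h3 (by positivity)
    omega

theorem arith_few {k l s : ℕ} (hl2 : 2 ≤ l) (hs : s < 2 ^ l) :
    s * ((10 * l ^ 2) ^ l * l.factorial) ^ 2 < (200 * l ^ 6) ^ (l + 1) ∧
      4 * (s * ((10 * l ^ 2) ^ l * l.factorial) ^ 2) ≤ 2 ^ (10 * l ^ 2) := by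
  have hM := arith1 l (by omega)
  have hpos6 : 1 ≤ l ^ 6 := Nat.one_le_pow _ _ (by omega)
  set M2 := ((10 * l ^ 2) ^ l * l.factorial) ^ 2 with hM2
  have hM2pos : 0 < M2 := by positivity
  have h1 : s * M2 < 2 ^ l * M2 := Nat.mul_lt_mul_of_pos_right hs hM2pos
  constructor
  · have h2 : 2 ^ l * M2 ≤ (200 * l ^ 6) ^ (l + 1) := by
      calc 2 ^ l * M2 ≤ 2 ^ l * (100 * l ^ 6) ^ l := Nat.mul_le_mul_left _ hM
        _ = (200 * l ^ 6) ^ l := by rw [← mul_pow]; congr 1; ring
        _ ≤ (200 * l ^ 6) ^ (l + 1) := Nat.pow_le_pow_right (by omega) (by omega)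
    omega
  · have hl2l : l ≤ 2 ^ (l - 1) := by
      obtain ⟨r, hr⟩ : ∃ r, l = r + 1 := ⟨l - 1, by omega⟩
      rw [hr]
      simp only [Nat.add_sub_cancel]
      exact Nat.lt_two_pow_self
    have h2 : 4 * (2 ^ l * M2) ≤ 2 ^ (10 * l ^ 2) := by
      calc 4 * (2 ^ l * M2) ≤ 4 * (2 ^ l * (100 * l ^ 6) ^ l) := by gcongr
        _ ≤ 4 * (2 ^ l * (2 ^ 7 * (2 ^ (l - 1)) ^ 6) ^ l) := by gcongr; norm_num
        _ = 2 ^ (2 + l + (7 + (l - 1) * 6) * l) := by
            rw [← pow_mul, ← pow_add, ← pow_mul]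
            rw [pow_add, pow_add]
            ring
        _ ≤ 2 ^ (10 * l ^ 2) := by
            apply Nat.pow_le_pow_right (by norm_num)
            obtain ⟨r, hr⟩ : ∃ r, l = r + 1 := ⟨l - 1, by omega⟩
            rw [hr]
            simp only [Nat.add_sub_cancel]
            nlinarith
    omega

/-- A monotone circuit with fewer than `2 ^ √k` gates that accepts all graphs with a `k`-clique
rejects at most three quarters of the complete `(k-1)`-partite graphs. -/
theorem few_rejected {k s : ℕ} (hW : 200 * k ^ 4 ≤ Fintype.card W) (hk : 4 ≤ k)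
    (hs : s < 2 ^ Nat.sqrt k) {f : SimpleGraph W → Bool} (hf : MComp (GB W) s f)
    (hacc : ∀ G : SimpleGraph W, ¬ G.CliqueFree k → f G = true) :
    4 * (rej (k - 1) f).card ≤ 3 * (k - 1) ^ Fintype.card W := by
  classical
  set l := Nat.sqrt k with hl
  have hl2 : 2 ≤ l := by
    rw [hl, Nat.le_sqrt]; omega
  have hll : l * l ≤ k := Nat.sqrt_le k
  have hcardq : k * (200 * l ^ 6) ≤ Fintype.card W := by
    refine le_trans ?_ hW
    have : l ^ 6 ≤ k ^ 3 := by
      calc l ^ 6 = (l * l) ^ 3 := by ring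
        _ ≤ k ^ 3 := Nat.pow_le_pow_left hll 3
    calc k * (200 * l ^ 6) ≤ k * (200 * k ^ 3) := by gcongr
      _ = 200 * k ^ 4 := by ring
  have hemb : Nonempty (Fin k × Fin (200 * l ^ 6) ↪ W) := by
    apply Function.Embedding.nonempty_of_card_le
    simpa using hcardq
  obtain ⟨emb⟩ := hemb
  have hll1 : l * (l - 1) ≤ k - 1 := by
    obtain ⟨r, hr⟩ : ∃ r, l = r + 1 := ⟨l - 1, by omega⟩
    rw [hr] at hll ⊢
    simp only [Nat.add_sub_cancel]
    have : (r + 1) * (r + 1) = (r + 1) * r + r + 1 := by ring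
    omega
  have hpos6 : 1 ≤ l ^ 6 := Nat.one_le_pow _ _ (by omega)
  have hp2 : 2 ≤ 10 * l ^ 2 := by
    have : 1 ≤ l ^ 2 := Nat.one_le_pow _ _ (by omega)
    omega
  obtain ⟨ha, hb⟩ := arith_few (k := k) hl2 hs
  exact rej_core (κ := k - 1) (l := l) (p := 10 * l ^ 2) (s := s) emb emb.injective
    (by omega) (by omega) hl2 hll1 hp2 f hf
    (fun π => hacc _ (posG_not_cliqueFree emb emb.injective π)) ha hb

end Pool.Agent.H611R2
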