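import Pool.Agent.H611R2.OneBlock

/-!
# Small monotone circuits below the clique function accept few cliques
-/

namespace Pool.Agent.H611R2

open Finset Pool.Agent.H520R2

variable {W : Type*} [Fintype W] [DecidableEq W]

/-- The transversals whose clique is accepted by `f`. -/
def acc {k q : ℕ} (emb : Fin k × Fin q → W) (f : SimpleGraph W → Bool) :
    Finset (Fin k → Fin q) :=
  univ.filter (fun π => f (posG emb π) = true)

theorem acc_core {k q κ l p s : ℕ} (emb : Fin k × Fin q → W) (hemb : Function.Injective emb)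
    (hq : 1 ≤ q) (hκ : 1 ≤ κ) (hl2 : 2 ≤ l)
    (hl : l * (l - 1) ≤ κ) (hp : 2 ≤ p) (f : SimpleGraph W → Bool) (hf : MComp (GB W) s f)
    (hneg : ∀ c : W → Fin κ, f (negG c) = false)
    (h2 : 4 * (s * (p ^ l * l.factorial) ^ 2) ≤ 2 ^ p) :
    (acc emb f).card * q ^ (l + 1) ≤ s * (p ^ l * l.factorial) ^ 2 * q ^ k := by
  classical
  obtain ⟨L, hL, hs, hfL⟩ := hf
  obtain ⟨EP, EN, hEN, hEP, hall⟩ := appr_prog (κ := κ) emb hemb hq hκ hl2 hl hp L hL
  obtain ⟨A, hA1, _, hA3, hA4⟩ := hall f hfL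
  rcases A.eq_empty_or_nonempty with hA | ⟨S, hS⟩
  · have hsub : acc emb f ⊆ EP := by
      intro π hπ
      rw [acc, mem_filter] at hπ
      by_contra hE
      obtain ⟨S, hS, _⟩ := hA3 π hE hπ.2
      rw [hA] at hS
      simp at hS
    calc (acc emb f).card * q ^ (l + 1) ≤ EP.card * q ^ (l + 1) :=
          Nat.mul_le_mul_right _ (card_le_card hsub)
      _ ≤ L.length * ((p ^ l * l.factorial) ^ 2 * q ^ k) := hEP
      _ ≤ s * ((p ^ l * l.factorial) ^ 2 * q ^ k) := Nat.mul_le_mul_right _ hs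
      _ = _ := by ring
  · exfalso
    have hbad := bad_card hκ hl (∅ : Finset W) {S} (by
      intro T hT; rw [mem_singleton] at hT; rw [hT]; exact hA1 S hS) (by
      intro T hT T' hT' hne
      rw [mem_singleton] at hT hT'
      exact absurd (hT.trans hT'.symm) hne)
    rw [card_singleton, pow_one] at hbad
    have hcov : (univ : Finset (W → Fin κ)) ⊆ EN ∪ bad κ ∅ {S} := by
      intro c _
      rw [mem_union]
      by_cases hcE : c ∈ EN
      · exact Or.inl hcE
      · right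
        simp only [bad, mem_filter, mem_univ, true_and, mem_singleton, forall_eq, coe_empty]
        refine ⟨Set.injOn_empty c, fun hinj => ?_⟩
        have := hA4 c hcE ⟨S, hS, hinj⟩
        rw [hneg c] at this
        exact absurd this (by simp)
    have hcard := (card_le_card hcov).trans (card_union_le _ _)
    rw [card_univ, Fintype.card_fun, Fintype.card_fin] at hcard
    have hEN4 : 4 * EN.card ≤ κ ^ Fintype.card W := by
      have h3 : 2 ^ p * (4 * EN.card) ≤ 2 ^ p * κ ^ Fintype.card W := by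
        calc 2 ^ p * (4 * EN.card) = 4 * (EN.card * 2 ^ p) := by ring
          _ ≤ 4 * (L.length * ((p ^ l * l.factorial) ^ 2 * κ ^ Fintype.card W)) :=
              Nat.mul_le_mul_left _ hEN
          _ ≤ 4 * (s * ((p ^ l * l.factorial) ^ 2 * κ ^ Fintype.card W)) := by gcongr
          _ = 4 * (s * (p ^ l * l.factorial) ^ 2) * κ ^ Fintype.card W := by ring
          _ ≤ 2 ^ p * κ ^ Fintype.card W := Nat.mul_le_mul_right _ h2
      exact Nat.le_of_mul_le_mul_left h3 (by positivity)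
    have hpos : 0 < κ ^ Fintype.card W := Nat.pow_pos (by omega)
    omega

/-- A monotone circuit with fewer than `2 ^ √k` gates that rejects all graphs without a `k`-clique
accepts at most a fraction `1 / q` of the transversal cliques. -/
theorem few_accepted {k s q : ℕ} (hk : 4 ≤ k) (hq : 200 * Nat.sqrt k ^ 6 ≤ q)
    (emb : Fin k × Fin q → W) (hemb : Function.Injective emb)
    (hs : s < 2 ^ Nat.sqrt k) {f : SimpleGraph W → Bool} (hf : MComp (GB W) s f)
    (hrej : ∀ G : SimpleGraph W, G.CliqueFree k → f G = false) :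
    (acc emb f).card * q ≤ q ^ k := by
  classical
  obtain ⟨l, hl⟩ : ∃ l, l = Nat.sqrt k := ⟨_, rfl⟩
  rw [← hl] at hq hs
  have hl2 : 2 ≤ l := by
    rw [hl, Nat.le_sqrt]; omega
  have hll : l * l ≤ k := by rw [hl]; exact Nat.sqrt_le k
  have hll1 : l * (l - 1) ≤ k - 1 := by
    obtain ⟨r, hr⟩ : ∃ r, l = r + 1 := ⟨l - 1, by omega⟩
    rw [hr] at hll ⊢
    simp only [Nat.add_sub_cancel]
    have : (r + 1) * (r + 1) = (r + 1) * r + r + 1 := by ring
    omega
  have hpos6 : 1 ≤ l ^ 6 := Nat.one_le_pow _ _ (by omega)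
  have hp2 : 2 ≤ 10 * l ^ 2 := by
    have : 1 ≤ l ^ 2 := Nat.one_le_pow _ _ (by omega)
    omega
  obtain ⟨_, hb⟩ := arith_few (k := k) hl2 hs
  have h1 := acc_core (κ := k - 1) (l := l) (p := 10 * l ^ 2) (s := s) emb hemb
    (by omega) (by omega) hl2 hll1 hp2 f hf
    (fun c => hrej _ (negG_cliqueFree (by omega) c)) hb
  -- s * M2 ≤ q ^ l
  have hM := arith1 l (by omega)
  have h2 : s * ((10 * l ^ 2) ^ l * l.factorial) ^ 2 ≤ q ^ l := by
    calc s * ((10 * l ^ 2) ^ l * l.factorial) ^ 2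
        ≤ 2 ^ l * ((10 * l ^ 2) ^ l * l.factorial) ^ 2 := Nat.mul_le_mul_right _ hs.le
      _ ≤ 2 ^ l * (100 * l ^ 6) ^ l := Nat.mul_le_mul_left _ hM
      _ = (200 * l ^ 6) ^ l := by rw [← mul_pow]; congr 1; ring
      _ ≤ q ^ l := Nat.pow_le_pow_left hq l
  have hqpos : 0 < q ^ l := Nat.pow_pos (by omega)
  have h3 : q ^ l * ((acc emb f).card * q) ≤ q ^ l * q ^ k := by
    calc q ^ l * ((acc emb f).card * q) = (acc emb f).card * q ^ (l + 1) := by ring
      _ ≤ s * ((10 * l ^ 2) ^ l * l.factorial) ^ 2 * q ^ k := h1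
      _ ≤ q ^ l * q ^ k := Nat.mul_le_mul_right _ h2
  exact Nat.le_of_mul_le_mul_left h3 hqpos

omit [DecidableEq W] in
/-- There is room for the groups. -/
theorem exists_emb {k : ℕ} (hW : 200 * k ^ 4 ≤ Fintype.card W) :
    Nonempty (Fin k × Fin (200 * Nat.sqrt k ^ 6) ↪ W) := by
  apply Function.Embedding.nonempty_of_card_le
  have hll : Nat.sqrt k * Nat.sqrt k ≤ k := Nat.sqrt_le k
  have : Nat.sqrt k ^ 6 ≤ k ^ 3 := by
    calc Nat.sqrt k ^ 6 = (Nat.sqrt k * Nat.sqrt k) ^ 3 := by ring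
      _ ≤ k ^ 3 := Nat.pow_le_pow_left hll 3
  rw [Fintype.card_prod, Fintype.card_fin, Fintype.card_fin]
  calc k * (200 * Nat.sqrt k ^ 6) ≤ k * (200 * k ^ 3) := by gcongr
    _ = 200 * k ^ 4 := by ring
    _ ≤ _ := hW

end Pool.Agent.H611R2
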