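import Pool.Agent.H611R2.BlocksPos
import Pool.Agent.H611R2.ListAll
import Pool.Agent.H611R2.CoNondet

/-!
# Randomized circuits with one-sided error that are monotone in the input
-/

namespace Pool.Agent.H611R2

open Finset Pool.Agent.H520R2 Pool.Agent.H520R2.NM Pool.Agent.NPC

/-- Some positive instance is accepted by few members of a family of small monotone functions
below the conjunction of clique functions. -/
theorem rp_lower {W : Type*} [Fintype W] [DecidableEq W] {ι : Type} {m k s q : ℕ}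
    (hk : 4 ≤ k) (hq : 200 * Nat.sqrt k ^ 6 ≤ q) (emb : Fin k × Fin q → W)
    (hemb : Function.Injective emb) (hs : s < 2 ^ Nat.sqrt k)
    (e : (Fin m → SimpleGraph W) → ι → Bool)
    (he_mono : ∀ y y', y ≤ y' → e y ≤ e y')
    (he_base : ∀ (y : Fin m → SimpleGraph W) (J : Fin m), ∀ f ∈ NM.VB ι,
      f ∘ (fun G => e (Function.update y J G)) ∈ GB W)
    {R : Type*} [Fintype R] (f : R → (ι → Bool) → Bool)
    (hf : ∀ r, MComp (NM.VB ι) s (f r))
    (hzero : ∀ G, (∃ i, (G i).CliqueFree k) → ∀ r, f r (e G) = false) :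
    ∃ c : Fin m → Fin k → Fin q,
      (univ.filter (fun r => f r (e (fun i => posG emb (c i))) = true)).card * q ^ m ≤
        Fintype.card R := by
  classical
  have hqpos : 0 < q := by
    have h1 : 2 ≤ Nat.sqrt k := by rw [Nat.le_sqrt]; omega
    have h2 : 1 ≤ Nat.sqrt k ^ 6 := Nat.one_le_pow _ _ (by omega)
    omega
  have hone : ∀ r : R, (univ.filter (fun c : Fin m → Fin k → Fin q =>
      f r (e (fun i => posG emb (c i))) = true)).card * q ^ m ≤ (q ^ k) ^ m := by
    intro r
    refine acc_blocks hk hq emb hemb hs m (fun G => f r (e G)) ?_ ?_ ?_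
    · intro G G' hGG
      obtain ⟨L, hL, _, hfL⟩ := hf r
      exact NM.mono_of_av hL _ hfL _ _ (he_mono G G' hGG)
    · intro G J
      exact (hf r).comp (fun H => e (Function.update G J H)) (he_base G J)
    · intro G hG
      exact hzero G hG r
  by_contra hno
  push Not at hno
  have hcomm : ∑ c : Fin m → Fin k → Fin q,
      (univ.filter (fun r => f r (e (fun i => posG emb (c i))) = true)).card =
      ∑ r : R, (univ.filter (fun c : Fin m → Fin k → Fin q =>
        f r (e (fun i => posG emb (c i))) = true)).card := by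
    simp only [card_filter]
    exact sum_comm
  have : Nonempty (Fin q) := ⟨⟨0, hqpos⟩⟩
  have h1 : ∑ _c : Fin m → Fin k → Fin q, Fintype.card R <
      ∑ c : Fin m → Fin k → Fin q,
        (univ.filter (fun r => f r (e (fun i => posG emb (c i))) = true)).card * q ^ m :=
    sum_lt_sum_of_nonempty univ_nonempty (fun c _ => hno c)
  rw [← sum_mul, hcomm, sum_mul, sum_const, card_univ, Fintype.card_fun, Fintype.card_fun,
    Fintype.card_fin, Fintype.card_fin, Fintype.card_fin, smul_eq_mul] at h1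
  have h2 : ∑ r : R, (univ.filter (fun c : Fin m → Fin k → Fin q =>
        f r (e (fun i => posG emb (c i))) = true)).card * q ^ m ≤
        Fintype.card R * (q ^ k) ^ m := by
    calc _ ≤ ∑ _r : R, (q ^ k) ^ m := sum_le_sum fun r _ => hone r
      _ = _ := by rw [sum_const, card_univ, smul_eq_mul]
  have h3 : (q ^ k) ^ m * Fintype.card R = Fintype.card R * (q ^ k) ^ m := mul_comm _ _
  omega

theorem hdrA_mem (v k : ℕ) (y : List Bool) : hdr v k ++ y ∈ LA.ListAll ↔ LA.AllHave v k y := by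
  rw [hdr_append, LA.mem_listAll_hdr]

theorem allHave_mono {v k N : ℕ} {x y : Fin N → Bool} (hxy : x ≤ y)
    (hx : LA.AllHave v k (List.ofFn x)) : LA.AllHave v k (List.ofFn y) := by
  obtain ⟨h0, h⟩ := hx
  refine ⟨by simpa using h0, fun j hj => ?_⟩
  obtain ⟨S, hS, hSv, hcl⟩ := h j (by simpa using hj)
  exact ⟨S, hS, hSv, fun a ha b hb hab => lc_entry_mono hxy j a b (hcl a ha b hb hab)⟩

/-- **Trade-off between size and success probability.** -/
theorem rpCirc {N s r : ℕ} (hr : 2 ≤ r) (hs : s < 2 ^ r) (hN : 40000 * r ^ 16 ≤ N) {g n : ℕ}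
    (C : Circuit (Fin N ⊕ Fin g) n) (out : Wire (Fin N ⊕ Fin g) n)
    (hC : ∀ (x x' : Fin N → Bool) (z : Fin g → Bool),
      C.probes (Sum.elim x z) = C.probes (Sum.elim x' z))
    (hF : ∀ x : Fin N → Bool, hdr (200 * r ^ 8) (r ^ 2) ++ List.ofFn x ∉ LA.ListAll →
      ∀ z : Fin g → Bool, out.eval (Sum.elim x z) (C.vals (Sum.elim x z)) = false)
    (hsize : C.size ≤ s) :
    ∃ x : Fin N → Bool, hdr (200 * r ^ 8) (r ^ 2) ++ List.ofFn x ∈ LA.ListAll ∧
      (univ.filter (fun z : Fin g → Bool =>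
        out.eval (Sum.elim x z) (C.vals (Sum.elim x z)) = true)).card *
          2 ^ (13 * (N / (40000 * r ^ 16))) ≤ 2 ^ g := by
  classical
  obtain ⟨v, hv⟩ : ∃ v, v = 200 * r ^ 8 := ⟨_, rfl⟩
  have hvv : v * v = 40000 * r ^ 16 := by rw [hv]; ring
  rw [← hvv] at hN ⊢
  rw [← hv] at hF ⊢
  have hk4 : 4 ≤ r ^ 2 := by nlinarith
  have hsq : Nat.sqrt (r ^ 2) = r := by rw [pow_two, Nat.sqrt_eq]
  have hvpos : 0 < v * v := by rw [hvv]; positivity
  have hMpos : 0 < N / (v * v) := Nat.div_pos hN hvpos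
  obtain ⟨emb⟩ := exists_emb (W := Fin v) (k := r ^ 2) (by
    rw [Fintype.card_fin, hv, ← pow_mul])
  obtain ⟨c, hc⟩ := rp_lower (W := Fin v) (m := N / (v * v)) (k := r ^ 2) (s := C.size) hk4 le_rfl
    emb emb.injective (by rw [hsq]; exact lt_of_le_of_lt hsize hs) (asmB N v) (asmB_mono N v)
    (fun y J g hg => asmB_base N v y J g hg)
    (fun (z : Fin g → Bool) x => out.eval (Sum.elim x z) (C.vals (Sum.elim x z)))
    (fun z => mcomp_of_probes C out hC z)
    (fun G hG z => hF _ (by
      rw [hdrA_mem, LA.allHave_asmB N v (r ^ 2) hMpos]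
      push Not
      exact hG) z)
  refine ⟨asmB N v (fun i => posG emb (c i)), ?_, ?_⟩
  · rw [hdrA_mem, LA.allHave_asmB N v (r ^ 2) hMpos]
    intro i
    exact posG_not_cliqueFree emb emb.injective (c i)
  · rw [Fintype.card_fun, Fintype.card_fin, Fintype.card_bool] at hc
    refine le_trans (Nat.mul_le_mul_left _ ?_) hc
    rw [pow_mul]
    apply Nat.pow_le_pow_left
    rw [hsq]
    have h1 : 2 ^ 6 ≤ r ^ 6 := Nat.pow_le_pow_left hr 6
    omega

end Pool.Agent.H611R2
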