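import Mathlib

/-!
# Nondeterministic multitape Turing machines with few guesses

A machine has `k + 1` two-way infinite read-write tapes; tape `0` is the input tape.
-/

namespace Pool.Agent.H611R2.RT

/-- Head moves. -/
inductive Dir
  | L | N | R
  deriving DecidableEq

instance : Fintype Dir := ⟨{.L, .N, .R}, by intro x; cases x <;> simp⟩

/-- The displacement of a move. -/
def Dir.toInt : Dir → ℤ
  | .L => -1
  | .N => 0
  | .R => 1

/-- A nondeterministic Turing machine with `k + 1` tapes over the input alphabet `{0,1}`. -/
structure NTM where
  /-- number of tapes besides the input tape -/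
  k : ℕ
  /-- states -/
  Q : Type
  /-- tape symbols -/
  Γ : Type
  finQ : Finite Q
  finΓ : Finite Γ
  /-- blank symbol -/
  blank : Γ
  /-- the tape symbols of the input letters -/
  inp : Bool → Γ
  inp_inj : Function.Injective inp
  inp_blank : ∀ b, inp b ≠ blank
  /-- start state -/
  start : Q
  /-- accepting states -/
  acc : Set Q
  /-- the transition relation: from a state and the scanned symbols to a new state,
  the symbols written and the moves -/
  δ : Q → (Fin (k + 1) → Γ) → Set (Q × (Fin (k + 1) → Γ) × (Fin (k + 1) → Dir))

variable {M : NTM}

/-- The actions of a machine. -/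
abbrev NTM.Act (M : NTM) : Type :=
  M.Q × (Fin (M.k + 1) → M.Γ) × (Fin (M.k + 1) → Dir)

/-- A configuration: state, contents of the tapes, head positions. -/
structure Config (M : NTM) where
  state : M.Q
  tape : Fin (M.k + 1) → ℤ → M.Γ
  head : Fin (M.k + 1) → ℤ

/-- The scanned symbols. -/
def Config.scan (c : Config M) : Fin (M.k + 1) → M.Γ := fun i => c.tape i (c.head i)

/-- The configuration after the action `a`. -/
def Config.apply (c : Config M) (a : M.Act) : Config M where
  state := a.1
  tape := fun i => Function.update (c.tape i) (c.head i) (a.2.1 i)
  head := fun i => c.head i + (a.2.2 i).toInt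

/-- The set of next configurations. -/
def Config.next (c : Config M) : Set (Config M) :=
  {d | ∃ a ∈ M.δ c.state c.scan, d = c.apply a}

/-- The initial configuration on the input `x`: `x` stands in the cells `0, ..., |x| - 1` of
tape `0`, everything else is blank, all heads are at cell `0`. -/
def init (M : NTM) (x : List Bool) : Config M where
  state := M.start
  tape := fun i z => if i = 0 ∧ 0 ≤ z then ((x[z.toNat]?).map M.inp).getD M.blank else M.blank
  head := fun _ => 0

/-- `Run c n g d`: there is a computation of `n` steps from `c` to `d` with exactly `g`
nondeterministic steps (a step is nondeterministic if the machine can choose among more than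
one next configurations). -/
inductive Run : Config M → ℕ → ℕ → Config M → Prop
  | refl (c : Config M) : Run c 0 0 c
  | det {c d e : Config M} {n g : ℕ} : d ∈ c.next → ¬ c.next.Nontrivial → Run d n g e →
      Run c (n + 1) g e
  | nondet {c d e : Config M} {n g : ℕ} : d ∈ c.next → c.next.Nontrivial → Run d n g e →
      Run c (n + 1) (g + 1) e

/-- Three conventions for accepting configurations. -/
inductive Mode
  /-- the machine halts (there is no next configuration) in an accepting state -/
  | halt
  /-- the state is accepting and the whole input has been read: the head of the input tape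
  is at cell `|x|` -/
  | online
  /-- the state is accepting -/
  | state

/-- Accepting configurations for the input `x`. -/
def Accepting (md : Mode) (x : List Bool) (c : Config M) : Prop :=
  match md with
  | .halt => c.state ∈ M.acc ∧ c.next = ∅
  | .online => c.state ∈ M.acc ∧ c.head 0 = x.length
  | .state => c.state ∈ M.acc

/-- The language accepted by `M`. -/
def Lang (md : Mode) (M : NTM) : Set (List Bool) :=
  {x | ∃ (n g : ℕ) (c : Config M), Run (init M x) n g c ∧ Accepting md x c}

/-- `NTIME-NONDET(t, g)`. -/
def NTimeNondet (md : Mode) (t g : ℕ → ℝ) : Set (Set (List Bool)) :=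
  {A | ∃ M : NTM, Lang md M = A ∧ ∀ x ∈ A, ∃ (n j : ℕ) (c : Config M),
    (n : ℝ) ≤ t x.length ∧ (j : ℝ) ≤ g x.length ∧ Run (init M x) n j c ∧ Accepting md x c}

/-- `Q_g = NTIME-NONDET(id, g)`: real time with at most `g` guesses. -/
def Qc (md : Mode) (g : ℕ → ℝ) : Set (Set (List Bool)) := NTimeNondet md (fun n => (n : ℝ)) g

end Pool.Agent.H611R2.RT
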