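import Pool.Agent.H611R2.RTMach

namespace Pool.Agent.H611R2.RT

/-- The work tape holding the word `σ`. -/
def tapeOf (σ : List Bool) : ℤ → Option Bool := fun z => if 0 ≤ z then σ[z.toNat]? else none

lemma tapeOf_end (σ : List Bool) : tapeOf σ (σ.length : ℤ) = none := by
  simp [tapeOf]

lemma tapeOf_update (σ : List Bool) (b : Bool) :
    Function.update (tapeOf σ) (σ.length : ℤ) (some b) = tapeOf (σ ++ [b]) := by
  funext z
  simp only [Function.update_apply, tapeOf]
  by_cases h0 : 0 ≤ z
  · obtain ⟨n, rfl⟩ := Int.eq_ofNat_of_zero_le h0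
    simp only [Nat.cast_inj, Int.natCast_nonneg, if_true, Int.toNat_natCast]
    by_cases hn : n = σ.length
    · subst hn; simp
    · rw [if_neg hn]
      rcases lt_or_gt_of_ne hn with h | h
      · rw [List.getElem?_append_left h]
      · rw [List.getElem?_eq_none (by omega), List.getElem?_eq_none (by simp; omega)]
  · rw [if_neg h0, if_neg h0, if_neg (by omega)]

lemma tapeOf_last (σ1 σ2 : List Bool) (b : Bool) :
    tapeOf (σ1 ++ [b] ++ σ2) (((σ1 ++ [b]).length : ℤ) - 1) = some b := by
  have : (((σ1 ++ [b]).length : ℕ) : ℤ) - 1 = (σ1.length : ℤ) := by simp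
  rw [this]
  simp [tapeOf]

/-- Doubled words. -/
def enc (w : List Bool) : List Bool := w.flatMap (fun b => [false, b])

def encB (w : List Bool) : List Bool := enc w ++ [true, false]

def pw (W : List (List Bool)) : List Bool := [false] ++ W.flatMap encB ++ [true, true]

def sw (σ : List Bool) : List Bool := enc σ.reverse ++ [true]

/-- Push phase state. -/
def PS (sel : Bool) (σ : List Bool) : AC := ⟨.P sel none, tapeOf σ, (σ.length : ℤ)⟩

lemma AR_enc (sel : Bool) (w : List Bool) : ∀ (σ : List Bool) (a' : AC),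
    AR (enc w) (PS sel σ) a' ↔ a' = PS sel (if sel then σ ++ w else σ) := by
  induction w with
  | nil =>
    intro σ a'
    simp only [enc, List.flatMap_nil, AR, List.append_nil, ite_self]
    exact eq_comm
  | cons b w ih =>
    intro σ a'
    have e : enc (b :: w) = false :: b :: enc w := rfl
    rw [e]
    cases sel with
    | true =>
      constructor
      · rintro ⟨a1, ⟨t, ht, rfl⟩, a2, ⟨t2, ht2, rfl⟩, h⟩
        have ht : t = (.P true (some false), tapeOf σ (σ.length : ℤ), .N) := ht
        subst ht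
        simp only at ht2
        have ht2 : t2 = (.P true none, some b, .R) := ht2
        subst ht2
        have e3 : (⟨.P true none, Function.update (Function.update (tapeOf σ) (σ.length : ℤ)
            (tapeOf σ (σ.length : ℤ))) ((σ.length : ℤ) + (Dir.N).toInt) (some b),
            (σ.length : ℤ) + (Dir.N).toInt + (Dir.R).toInt⟩ : AC) = PS true (σ ++ [b]) := by
          rw [Function.update_eq_self]
          simp only [Dir.toInt, add_zero, PS]
          rw [tapeOf_update]
          simp
        have h : AR (enc w) (⟨.P true none, Function.update (Function.update (tapeOf σ)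
            (σ.length : ℤ) (tapeOf σ (σ.length : ℤ))) ((σ.length : ℤ) + (Dir.N).toInt) (some b),
            (σ.length : ℤ) + (Dir.N).toInt + (Dir.R).toInt⟩ : AC) a' := h
        rw [e3, ih] at h
        rw [h]; simp
      · intro h
        refine ⟨⟨.P true (some false), tapeOf σ, (σ.length : ℤ)⟩,
          ⟨(.P true (some false), tapeOf σ (σ.length : ℤ), .N), rfl, ?_⟩,
          PS true (σ ++ [b]), ⟨(.P true none, some b, .R), rfl, ?_⟩, ?_⟩
        · simp only [PS, Function.update_eq_self, Dir.toInt, add_zero]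
        · simp only [PS, Dir.toInt]
          rw [tapeOf_update]
          simp
        · rw [ih, h]; simp
    | false =>
      constructor
      · rintro ⟨a1, ⟨t, ht, rfl⟩, a2, ⟨t2, ht2, rfl⟩, h⟩
        have ht : t = (.P false (some false), tapeOf σ (σ.length : ℤ), .N) := ht
        subst ht
        simp only at ht2
        have ht2 : t2 = (.P false none, Function.update (tapeOf σ) (σ.length : ℤ)
            (tapeOf σ (σ.length : ℤ)) ((σ.length : ℤ) + (Dir.N).toInt), .N) := ht2
        subst ht2
        simp only [PS, Function.update_eq_self, Dir.toInt, add_zero] at h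
        have h : AR (enc w) (PS false σ) a' := h
        rw [ih] at h
        rw [h]; simp
      · intro h
        refine ⟨⟨.P false (some false), tapeOf σ, (σ.length : ℤ)⟩,
          ⟨(.P false (some false), tapeOf σ (σ.length : ℤ), .N), rfl, ?_⟩,
          PS false σ, ⟨(.P false none, tapeOf σ (σ.length : ℤ), .N), rfl, ?_⟩, ?_⟩
        · simp only [PS, Function.update_eq_self, Dir.toInt, add_zero]
        · simp only [PS, Function.update_eq_self, Dir.toInt, add_zero]
        · rw [ih, h]; simp

lemma AR_sep (sel : Bool) (σ : List Bool) (a' : AC) :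
    AR [true, false] (PS sel σ) a' ↔ ∃ sel', a' = PS sel' σ := by
  constructor
  · rintro ⟨a1, ⟨t, ht, rfl⟩, a2, ⟨t2, ht2, rfl⟩, h⟩
    have ht : t = (.P sel (some true), tapeOf σ (σ.length : ℤ), .N) := ht
    subst ht
    simp only at ht2
    rcases ht2 with ht2 | ht2
    · subst ht2
      simp only [PS, Function.update_eq_self, Dir.toInt, add_zero] at h
      exact ⟨true, h.symm⟩
    · have ht2 : t2 = _ := ht2
      subst ht2
      simp only [PS, Function.update_eq_self, Dir.toInt, add_zero] at h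
      exact ⟨false, h.symm⟩
  · rintro ⟨sel', rfl⟩
    refine ⟨⟨.P sel (some true), tapeOf σ, (σ.length : ℤ)⟩,
      ⟨(.P sel (some true), tapeOf σ (σ.length : ℤ), .N), rfl, ?_⟩,
      PS sel' σ, ⟨(.P sel' none, tapeOf σ (σ.length : ℤ), .N), ?_, ?_⟩, rfl⟩
    · simp only [PS, Function.update_eq_self, Dir.toInt, add_zero]
    · cases sel'
      · exact Or.inr rfl
      · exact Or.inl rfl
    · simp only [PS, Function.update_eq_self, Dir.toInt, add_zero]

lemma AR_start (a' : AC) : AR [false] a0 a' ↔ ∃ sel', a' = PS sel' [] := by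
  have e0 : (fun _ => none : ℤ → Option Bool) = tapeOf [] := by
    funext z; simp [tapeOf]
  constructor
  · rintro ⟨a1, ⟨t, ht, rfl⟩, h⟩
    rcases ht with ht | ht
    · subst ht
      simp only [a0, Function.update_eq_self, Dir.toInt, add_zero] at h
      exact ⟨true, by rw [← (show _ = a' from h), e0]; rfl⟩
    · have ht : t = _ := ht
      subst ht
      simp only [a0, Function.update_eq_self, Dir.toInt, add_zero] at h
      exact ⟨false, by rw [← (show _ = a' from h), e0]; rfl⟩
  · rintro ⟨sel', rfl⟩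
    refine ⟨PS sel' [], ⟨(.P sel' none, none, .N), ?_, ?_⟩, rfl⟩
    · cases sel'
      · exact Or.inr rfl
      · exact Or.inl rfl
    · simp only [a0, PS, Dir.toInt, add_zero, List.length_nil, Nat.cast_zero]
      rw [e0]
      congr 1
      exact (Function.update_eq_self (0 : ℤ) (tapeOf [])).symm

/-- Pop phase state: `σ1` is still on the stack. -/
def RS (σ1 σ2 : List Bool) : AC := ⟨.R false, tapeOf (σ1 ++ σ2), (σ1.length : ℤ) - 1⟩

lemma AR_end (sel : Bool) (σ : List Bool) (a' : AC) :
    AR [true, true] (PS sel σ) a' ↔ a' = RS σ [] := by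
  constructor
  · rintro ⟨a1, ⟨t, ht, rfl⟩, a2, ⟨t2, ht2, rfl⟩, h⟩
    have ht : t = (.P sel (some true), tapeOf σ (σ.length : ℤ), .N) := ht
    subst ht
    simp only at ht2
    have ht2 : t2 = _ := ht2
    subst ht2
    simp only [PS, Function.update_eq_self, Dir.toInt, add_zero] at h
    rw [← (show _ = a' from h)]
    simp [RS, sub_eq_add_neg]
  · rintro rfl
    refine ⟨⟨.P sel (some true), tapeOf σ, (σ.length : ℤ)⟩,
      ⟨(.P sel (some true), tapeOf σ (σ.length : ℤ), .N), rfl, ?_⟩,
      RS σ [], ⟨(.R false, tapeOf σ (σ.length : ℤ), .L), rfl, ?_⟩, rfl⟩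
    · simp only [PS, Function.update_eq_self, Dir.toInt, add_zero]
    · simp only [RS, Function.update_eq_self, Dir.toInt, sub_eq_add_neg, List.append_nil]

lemma tapeOf_nil_neg (σ : List Bool) : tapeOf σ (-1) = none := by
  simp [tapeOf]

lemma AR_pop (e : List Bool) : ∀ (σ1 σ2 : List Bool) (a' : AC),
    AR (enc e) (RS σ1 σ2) a' ↔ ∃ σ', σ1 = σ' ++ e.reverse ∧ a' = RS σ' (e.reverse ++ σ2) := by
  induction e with
  | nil =>
    intro σ1 σ2 a'
    simp only [enc, List.flatMap_nil, AR, List.reverse_nil, List.append_nil, List.nil_append]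
    constructor
    · rintro rfl; exact ⟨σ1, rfl, rfl⟩
    · rintro ⟨σ', rfl, rfl⟩; rfl
  | cons b e ih =>
    intro σ1 σ2 a'
    have e0 : enc (b :: e) = false :: b :: enc e := rfl
    rw [e0]
    constructor
    · rintro ⟨a1, ⟨t, ht, rfl⟩, a2, ⟨t2, ht2, rfl⟩, h⟩
      have ht : t = (.R true, tapeOf (σ1 ++ σ2) ((σ1.length : ℤ) - 1), .N) := ht
      subst ht
      simp only [RS, Function.update_eq_self, Dir.toInt, add_zero] at ht2
      obtain ⟨h1, ht2⟩ := ht2
      rcases List.eq_nil_or_concat σ1 with rfl | ⟨σ1', c, rfl⟩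
      · exfalso
        simp only [List.nil_append, List.length_nil, Nat.cast_zero, zero_sub,
          tapeOf_nil_neg] at h1
        exact absurd h1 (by simp)
      · rw [List.concat_eq_append] at h1 ht2 h ⊢
        rw [tapeOf_last] at h1
        have h1 : c = b := Option.some_injective _ h1
        subst h1
        subst ht2
        simp only [RS, Function.update_eq_self, Dir.toInt, add_zero] at h
        have h' : AR (enc e) (RS σ1' ([c] ++ σ2)) a' := by
          have e3 : (⟨.R false, tapeOf (σ1' ++ [c] ++ σ2),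
            (((σ1' ++ [c]).length : ℕ) : ℤ) - 1 + -1⟩ : AC) = RS σ1' ([c] ++ σ2) := by
            simp only [RS, List.append_assoc]
            congr 1
            simp
            ring
          rw [← e3]
          exact h
        rw [ih] at h'
        obtain ⟨σ', rfl, rfl⟩ := h'
        exact ⟨σ', by simp, by simp⟩
    · rintro ⟨σ', rfl, rfl⟩
      have e4 : σ' ++ (b :: e).reverse = (σ' ++ e.reverse) ++ [b] := by simp
      rw [e4]
      refine ⟨⟨.R true, tapeOf ((σ' ++ e.reverse) ++ [b] ++ σ2),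
          ((((σ' ++ e.reverse) ++ [b]).length : ℕ) : ℤ) - 1⟩,
        ⟨(.R true, tapeOf ((σ' ++ e.reverse) ++ [b] ++ σ2)
          (((((σ' ++ e.reverse) ++ [b]).length : ℕ) : ℤ) - 1), .N), rfl, ?_⟩,
        RS (σ' ++ e.reverse) ([b] ++ σ2),
        ⟨(.R false, tapeOf ((σ' ++ e.reverse) ++ [b] ++ σ2)
          (((((σ' ++ e.reverse) ++ [b]).length : ℕ) : ℤ) - 1), .L),
          ⟨tapeOf_last _ _ _, rfl⟩, ?_⟩, ?_⟩
      · simp only [RS, Function.update_eq_self, Dir.toInt, add_zero]
      · simp only [RS, Function.update_eq_self, Dir.toInt, List.append_assoc]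
        congr 1
        simp
        ring
      · rw [ih]
        exact ⟨σ', rfl, by simp⟩

lemma AR_fin (σ1 σ2 : List Bool) : (∃ a', AR [true] (RS σ1 σ2) a' ∧ a'.q = .F) ↔ σ1 = [] := by
  constructor
  · rintro ⟨a', ⟨a1, ⟨t, ht, rfl⟩, h⟩, -⟩
    obtain ⟨h1, -⟩ := ht
    rcases List.eq_nil_or_concat σ1 with rfl | ⟨σ1', c, rfl⟩
    · rfl
    · exfalso
      rw [List.concat_eq_append] at h1
      have := tapeOf_last σ1' σ2 c
      simp only [RS] at h1
      rw [this] at h1
      exact absurd h1 (by simp)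
  · rintro rfl
    refine ⟨_, ⟨_, ⟨(.F, none, .N), ⟨?_, ?_⟩, rfl⟩, rfl⟩, rfl⟩
    · simp [RS, tapeOf_nil_neg]
    · simp [RS, tapeOf_nil_neg]

lemma AR_blocks_sound (W : List (List Bool)) : ∀ (sel : Bool) (σ : List Bool) (a' : AC),
    AR (W.flatMap encB) (PS sel σ) a' →
      ∃ W' : List (List Bool), W'.Sublist W ∧ ∃ sel', a' = PS sel' (σ ++ W'.flatten) := by
  induction W with
  | nil =>
    intro sel σ a' h
    have h : PS sel σ = a' := h
    exact ⟨[], List.Sublist.refl _, sel, by simpa using h.symm⟩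
  | cons w W ih =>
    intro sel σ a' h
    rw [List.flatMap_cons, encB, List.append_assoc, AR_append] at h
    obtain ⟨a1, h1, h2⟩ := h
    rw [AR_enc] at h1
    subst h1
    rw [AR_append] at h2
    obtain ⟨a2, h3, h4⟩ := h2
    rw [AR_sep] at h3
    obtain ⟨sel1, rfl⟩ := h3
    obtain ⟨W', hW', sel', rfl⟩ := ih _ _ _ h4
    cases sel with
    | true => exact ⟨w :: W', hW'.cons_cons w, sel', by simp⟩
    | false => exact ⟨W', hW'.cons w, sel', by simp⟩

lemma AR_blocks_complete (W : List (List Bool)) : ∀ (W' : List (List Bool)), W'.Sublist W →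
    ∀ (sel' : Bool), ∃ sel, ∀ (σ : List Bool),
      AR (W.flatMap encB) (PS sel σ) (PS sel' (σ ++ W'.flatten)) := by
  induction W with
  | nil =>
    intro W' hW' sel'
    rw [List.sublist_nil] at hW'
    subst hW'
    exact ⟨sel', fun σ => by simp [AR]⟩
  | cons w W ih =>
    intro W' hW' sel'
    cases hW' with
    | cons _ h =>
      obtain ⟨sel, hs⟩ := ih W' h sel'
      refine ⟨false, fun σ => ?_⟩
      rw [List.flatMap_cons, encB, List.append_assoc, AR_append]
      refine ⟨_, (AR_enc _ _ _ _).2 rfl, ?_⟩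
      rw [AR_append]
      exact ⟨_, (AR_sep _ _ _).2 ⟨sel, rfl⟩, by simpa using hs σ⟩
    | cons_cons _ h =>
      rename_i W''
      obtain ⟨sel, hs⟩ := ih W'' h sel'
      refine ⟨true, fun σ => ?_⟩
      rw [List.flatMap_cons, encB, List.append_assoc, AR_append]
      refine ⟨_, (AR_enc _ _ _ _).2 rfl, ?_⟩
      rw [AR_append]
      refine ⟨_, (AR_sep _ _ _).2 ⟨sel, rfl⟩, ?_⟩
      have := hs (σ ++ w)
      simpa using this

lemma AR_pw (W : List (List Bool)) (a' : AC) :
    AR (pw W) a0 a' ↔ ∃ W' : List (List Bool), W'.Sublist W ∧ a' = RS W'.flatten [] := by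
  unfold pw
  rw [AR_append]
  constructor
  · rintro ⟨a2, h, h2⟩
    rw [AR_append] at h
    obtain ⟨a1, h0, h1⟩ := h
    rw [AR_start] at h0
    obtain ⟨sel, rfl⟩ := h0
    obtain ⟨W', hW', sel', rfl⟩ := AR_blocks_sound W _ _ _ h1
    rw [AR_end] at h2
    exact ⟨W', hW', by simpa using h2⟩
  · rintro ⟨W', hW', rfl⟩
    obtain ⟨sel, hs⟩ := AR_blocks_complete W W' hW' true
    refine ⟨PS true W'.flatten, ?_, (AR_end _ _ _).2 rfl⟩
    rw [AR_append]
    exact ⟨PS sel [], (AR_start _).2 ⟨sel, rfl⟩, by simpa using hs []⟩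

/-- Membership of the instances. -/
theorem mem_Lx (W : List (List Bool)) (σ : List Bool) :
    pw W ++ sw σ ∈ Lx ↔ ∃ W' : List (List Bool), W'.Sublist W ∧ W'.flatten = σ := by
  unfold Lx
  simp only [Set.mem_ofPred_eq]
  constructor
  · rintro ⟨a, h, hF⟩
    rw [AR_append] at h
    obtain ⟨a1, h1, h2⟩ := h
    rw [AR_pw] at h1
    obtain ⟨W', hW', rfl⟩ := h1
    rw [sw, AR_append] at h2
    obtain ⟨a2, h3, h4⟩ := h2
    rw [AR_pop] at h3
    obtain ⟨σ', h5, rfl⟩ := h3
    have := (AR_fin σ' _).1 ⟨a, h4, hF⟩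
    subst this
    exact ⟨W', hW', by simpa using h5⟩
  · rintro ⟨W', hW', rfl⟩
    obtain ⟨a', h1, h2⟩ := (AR_fin [] (W'.flatten ++ [])).2 rfl
    refine ⟨a', ?_, h2⟩
    rw [AR_append]
    refine ⟨_, (AR_pw _ _).2 ⟨W', hW', rfl⟩, ?_⟩
    rw [sw, AR_append]
    exact ⟨_, (AR_pop _ _ _ _).2 ⟨[], by simp, rfl⟩, by simpa using h1⟩

theorem pw_notMem (W : List (List Bool)) : pw W ++ [] ∉ Lx := by
  rintro ⟨a, h, hF⟩
  rw [List.append_nil, AR_pw] at h
  obtain ⟨W', -, rfl⟩ := h
  exact absurd hF (by simp [RS])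

end Pool.Agent.H611R2.RT
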