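import Pool.Agent.H611R2.RTDefs

namespace Pool.Agent.H611R2.RT

variable {M : NTM}

/-! ### Locality -/

/-- Two configurations that look the same within distance `R` of the heads. -/
def Sim (R : ℕ) (c d : Config M) : Prop :=
  c.state = d.state ∧ ∀ (i : Fin (M.k + 1)) (z : ℤ), -(R : ℤ) ≤ z → z ≤ R →
    c.tape i (c.head i + z) = d.tape i (d.head i + z)

lemma Sim.scan {R : ℕ} {c d : Config M} (h : Sim R c d) : c.scan = d.scan := by
  funext i
  have := h.2 i 0 (by omega) (by omega)
  simpa [Config.scan] using this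

lemma Sim.apply {R : ℕ} {c d : Config M} (h : Sim (R + 1) c d) (a : M.Act) :
    Sim R (c.apply a) (d.apply a) := by
  refine ⟨rfl, fun i z h1 h2 => ?_⟩
  simp only [Config.apply, Function.update_apply]
  have hd : -1 ≤ (a.2.2 i).toInt ∧ (a.2.2 i).toInt ≤ 1 := by
    cases a.2.2 i <;> simp [Dir.toInt]
  have e1 : (c.head i + (a.2.2 i).toInt + z = c.head i) ↔
      (d.head i + (a.2.2 i).toInt + z = d.head i) := by
    constructor <;> intro h <;> omega
  by_cases hc : c.head i + (a.2.2 i).toInt + z = c.head i
  · rw [if_pos hc, if_pos (e1.1 hc)]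
  · rw [if_neg hc, if_neg (fun h => hc (e1.2 h))]
    have := h.2 i ((a.2.2 i).toInt + z) (by push_cast; omega) (by push_cast; omega)
    rw [← add_assoc, ← add_assoc] at this
    exact this

lemma Sim.mono {R R' : ℕ} (hR : R' ≤ R) {c d : Config M} (h : Sim R c d) : Sim R' c d :=
  ⟨h.1, fun i z h1 h2 => h.2 i z (by omega) (by omega)⟩

lemma Config.next_eq_image (c : Config M) : c.next = c.apply '' (M.δ c.state c.scan) := by
  ext d
  simp only [Config.next, Set.mem_ofPred_eq, Set.mem_image]
  constructor
  · rintro ⟨a, ha, rfl⟩; exact ⟨a, ha, rfl⟩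
  · rintro ⟨a, ha, rfl⟩; exact ⟨a, ha, rfl⟩

lemma Config.apply_inj (c : Config M) : Function.Injective c.apply := by
  intro a b h
  have h1 : a.1 = b.1 := congrArg Config.state h
  have h2 : ∀ i, a.2.1 i = b.2.1 i := by
    intro i
    have := congrFun (congrFun (congrArg Config.tape h) i) (c.head i)
    simpa [Config.apply] using this
  have h3 : ∀ i, a.2.2 i = b.2.2 i := by
    intro i
    have := congrFun (congrArg Config.head h) i
    simp only [Config.apply, add_right_inj] at this
    revert this
    cases a.2.2 i <;> cases b.2.2 i <;> simp [Dir.toInt]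
  exact Prod.ext h1 (Prod.ext (funext h2) (funext h3))

lemma Config.next_nontrivial (c : Config M) :
    c.next.Nontrivial ↔ (M.δ c.state c.scan).Nontrivial := by
  rw [Config.next_eq_image]
  constructor
  · rintro ⟨_, ⟨a, ha, rfl⟩, _, ⟨b, hb, rfl⟩, hab⟩
    exact ⟨a, ha, b, hb, fun h => hab (by rw [h])⟩
  · rintro ⟨a, ha, b, hb, hab⟩
    exact ⟨_, ⟨a, ha, rfl⟩, _, ⟨b, hb, rfl⟩, fun h => hab (c.apply_inj h)⟩

lemma Config.next_empty (c : Config M) : c.next = ∅ ↔ M.δ c.state c.scan = ∅ := by
  rw [Config.next_eq_image, Set.image_eq_empty]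

/-- Computations are local. -/
lemma Sim.run {c : Config M} {n g : ℕ} {c' : Config M} (h : Run c n g c') :
    ∀ {R : ℕ} {d : Config M}, n ≤ R → Sim R c d →
      ∃ d', Run d n g d' ∧ Sim (R - n) c' d' ∧ ∀ i, c'.head i - c.head i = d'.head i - d.head i := by
  induction h with
  | refl c => exact fun {R d} _ hs => ⟨d, Run.refl d, by simpa using hs, fun i => by simp⟩
  | @det c c1 c2 n g hc hn hr ih =>
    intro R d hR hs
    obtain ⟨a, ha, rfl⟩ := hc
    obtain ⟨R', rfl⟩ : ∃ R', R = R' + 1 := ⟨R - 1, by omega⟩
    obtain ⟨d', h1, h2, h3⟩ := ih (R := R') (d := d.apply a) (by omega) (hs.apply a)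
    have hst : M.δ d.state d.scan = M.δ c.state c.scan := by rw [hs.1, hs.scan]
    refine ⟨d', Run.det ⟨a, by rw [hst]; exact ha, rfl⟩
      (by rw [Config.next_nontrivial, hst, ← Config.next_nontrivial]; exact hn) h1, ?_, ?_⟩
    · convert h2 using 1; omega
    · intro i
      have := h3 i
      simp only [Config.apply] at this
      omega
  | @nondet c c1 c2 n g hc hn hr ih =>
    intro R d hR hs
    obtain ⟨a, ha, rfl⟩ := hc
    obtain ⟨R', rfl⟩ : ∃ R', R = R' + 1 := ⟨R - 1, by omega⟩
    obtain ⟨d', h1, h2, h3⟩ := ih (R := R') (d := d.apply a) (by omega) (hs.apply a)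
    have hst : M.δ d.state d.scan = M.δ c.state c.scan := by rw [hs.1, hs.scan]
    refine ⟨d', Run.nondet ⟨a, by rw [hst]; exact ha, rfl⟩
      (by rw [Config.next_nontrivial, hst, ← Config.next_nontrivial]; exact hn) h1, ?_, ?_⟩
    · convert h2 using 1; omega
    · intro i
      have := h3 i
      simp only [Config.apply] at this
      omega

/-- The windows of radius `r` around the heads. -/
def key (r : ℕ) (c : Config M) : M.Q × (Fin (M.k + 1) → Fin (2 * r + 1) → M.Γ) :=
  (c.state, fun i j => c.tape i (c.head i + ((j : ℕ) : ℤ) - r))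

lemma Sim_of_key {r : ℕ} {c d : Config M} (h : key r c = key r d) : Sim r c d := by
  refine ⟨congrArg Prod.fst h, fun i z h1 h2 => ?_⟩
  have := congrFun (congrFun (congrArg Prod.snd h) i) ⟨(z + r).toNat, by omega⟩
  simp only [key] at this
  have e : (((z + r).toNat : ℕ) : ℤ) = z + r := Int.toNat_of_nonneg (by omega)
  rw [e] at this
  have e1 : c.head i + (z + r) - r = c.head i + z := by ring
  have e2 : d.head i + (z + r) - r = d.head i + z := by ring
  rwa [e1, e2] at this

/-! ### Changing the unread part of the input -/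

/-- Overwrite the input tape from cell `N` on by the word `s`. -/
def put (N : ℕ) (s : List Bool) (c : Config M) : Config M where
  state := c.state
  tape := fun i z => if i = 0 ∧ (N : ℤ) ≤ z then
    ((s[(z - N).toNat]?).map M.inp).getD M.blank else c.tape i z
  head := c.head

lemma put_init (p s : List Bool) : put p.length s (init M p) = init M (p ++ s) := by
  unfold put init
  congr 1
  funext i z
  by_cases hi : i = 0
  · subst hi
    by_cases hz : ((p.length : ℕ) : ℤ) ≤ z
    · have h0 : 0 ≤ z := by omega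
      simp only [true_and, hz, h0, if_true]
      rw [List.getElem?_append_right (by omega)]
      congr 3
      omega
    · by_cases h0 : 0 ≤ z
      · simp only [true_and, hz, h0, if_true, if_false]
        rw [List.getElem?_append_left (by omega)]
      · simp [hz, h0]
  · simp [hi]

lemma put_scan {N : ℕ} {s : List Bool} {c : Config M} (h : c.head 0 < N) :
    (put N s c).scan = c.scan := by
  funext i
  simp only [Config.scan, put]
  by_cases hi : i = 0
  · subst hi
    rw [if_neg (by rintro ⟨-, h'⟩; omega)]
  · rw [if_neg (by rintro ⟨h', -⟩; exact hi h')]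

lemma put_apply {N : ℕ} {s : List Bool} {c : Config M} (h : c.head 0 < N) (a : M.Act) :
    (put N s c).apply a = put N s (c.apply a) := by
  unfold put Config.apply
  congr 1
  funext i z
  by_cases hi : i = 0
  · subst hi
    simp only [Function.update_apply, true_and]
    by_cases hz : (N : ℤ) ≤ z
    · rw [if_neg (by omega), if_pos hz, if_pos hz]
    · by_cases hz2 : z = c.head 0
      · rw [if_pos hz2, if_neg hz, if_pos hz2]
      · rw [if_neg hz2, if_neg hz, if_neg hz, if_neg hz2]
  · simp [hi]

lemma put_next {N : ℕ} {s : List Bool} {c : Config M} (h : c.head 0 < N) :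
    (put N s c).next = put N s '' c.next := by
  rw [Config.next_eq_image, Config.next_eq_image, put_scan h]
  ext d
  constructor
  · rintro ⟨a, ha, rfl⟩
    exact ⟨c.apply a, ⟨a, ha, rfl⟩, (put_apply h a).symm⟩
  · rintro ⟨_, ⟨a, ha, rfl⟩, rfl⟩
    exact ⟨a, ha, put_apply h a⟩

/-- The configurations reachable from `init M p` without reading beyond `p`, by at least `t`
steps. -/
inductive Pre (p : List Bool) : ℕ → Config M → Prop
  | init : Pre p 0 (init M p)
  | step {t : ℕ} {c d : Config M} : Pre p t c → c.head 0 < p.length → d ∈ c.next →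
      Pre p (t + 1) d

lemma Pre.head {p : List Bool} {t : ℕ} {c : Config M} (h : Pre p t c) : c.head 0 ≤ t := by
  induction h with
  | init => simp [RT.init]
  | @step t c d _ _ hd ih =>
    obtain ⟨a, _, rfl⟩ := hd
    have hd : (a.2.2 0).toInt ≤ 1 := by
      cases a.2.2 0 <;> simp [Dir.toInt]
    simp only [Config.apply]
    push_cast
    omega

lemma Run.trans {c d e : Config M} {n g n' g' : ℕ} (h : Run c n g d) (h' : Run d n' g' e) :
    Run c (n + n') (g + g') e := by
  induction h with
  | refl c => simpa using h'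
  | @det c c1 c2 n g hc hn hr ih =>
    have e1 : n + 1 + n' = n + n' + 1 := by omega
    rw [e1]; exact Run.det hc hn (ih h')
  | @nondet c c1 c2 n g hc hn hr ih =>
    have e1 : n + 1 + n' = n + n' + 1 := by omega
    have e2 : g + 1 + g' = g + g' + 1 := by omega
    rw [e1, e2]; exact Run.nondet hc hn (ih h')

lemma Run.snoc {c d e : Config M} {n g : ℕ} (h : Run c n g d) (h' : e ∈ d.next) :
    ∃ g', Run c (n + 1) g' e := by
  by_cases hn : d.next.Nontrivial
  · exact ⟨_, h.trans (Run.nondet h' hn (Run.refl e))⟩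
  · exact ⟨_, h.trans (Run.det h' hn (Run.refl e))⟩

lemma Pre.run {p : List Bool} {t : ℕ} {c : Config M} (h : Pre p t c) (s : List Bool) :
    ∃ g, Run (RT.init M (p ++ s)) t g (put p.length s c) := by
  induction h with
  | init => exact ⟨0, by rw [put_init]; exact Run.refl _⟩
  | @step t c d _ hc hd ih =>
    obtain ⟨g, hg⟩ := ih
    exact hg.snoc (by rw [put_next hc]; exact ⟨d, hd, rfl⟩)

lemma Run.le {c d : Config M} {n g : ℕ} (h : Run c n g d) : g ≤ n := by
  induction h with
  | refl c => exact le_rfl
  | det _ _ _ ih => omega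
  | nondet _ _ _ ih => omega

end Pool.Agent.H611R2.RT
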