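import Pool.Agent.H611R2.RTLow

namespace Pool.Agent.H611R2.RT

/-- States of the machine. -/
inductive St
  | P (sel : Bool) (ph : Option Bool)
  | R (ph : Bool)
  | F

instance : Finite St := by
  refine Finite.of_injective (β := (Bool × Option Bool) ⊕ Bool ⊕ Unit)
    (fun q => match q with
      | .P a b => Sum.inl (a, b)
      | .R a => Sum.inr (Sum.inl a)
      | .F => Sum.inr (Sum.inr ())) ?_
  intro a b h
  cases a <;> cases b <;> simp_all

/-- Transitions: the state, the letter read, the symbol scanned on the work tape. -/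
def tr : St → Bool → Option Bool → Set (St × Option Bool × Dir)
  | .P sel none, c, w => {(.P sel (some c), w, .N)}
  | .P true (some false), b, _ => {(.P true none, some b, .R)}
  | .P false (some false), _, w => {(.P false none, w, .N)}
  | .P _ (some true), false, w => {(.P true none, w, .N), (.P false none, w, .N)}
  | .P _ (some true), true, w => {(.R false, w, .L)}
  | .R false, false, w => {(.R true, w, .N)}
  | .R false, true, w => {a | w = none ∧ a = (.F, w, .N)}
  | .R true, b, w => {a | w = some b ∧ a = (.R false, w, .L)}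
  | .F, _, w => {(.F, w, .N)}

/-- The machine. -/
abbrev Mach : NTM where
  k := 1
  Q := St
  Γ := Option Bool
  finQ := inferInstance
  finΓ := inferInstance
  blank := none
  inp := some
  inp_inj := Option.some_injective _
  inp_blank := fun b => by simp
  start := .P false (some true)
  acc := {.F}
  δ := fun q sc => {a | ∃ b, sc 0 = some b ∧ ∃ t ∈ tr q b (sc 1),
    a = (t.1, ![some b, t.2.1], ![.R, t.2.2])}

/-- The configuration without the input tape. -/
structure AC where
  q : St
  τ : ℤ → Option Bool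
  z : ℤ

def aStep (b : Bool) (a : AC) : Set AC :=
  {a' | ∃ t ∈ tr a.q b (a.τ a.z), a' = ⟨t.1, Function.update a.τ a.z t.2.1, a.z + t.2.2.toInt⟩}

/-- Reachability by reading a word. -/
def AR : List Bool → AC → AC → Prop
  | [], a, a' => a = a'
  | b :: u, a, a' => ∃ a1 ∈ aStep b a, AR u a1 a'

lemma AR_append {u v : List Bool} {a a' : AC} :
    AR (u ++ v) a a' ↔ ∃ a1, AR u a a1 ∧ AR v a1 a' := by
  induction u generalizing a with
  | nil => simp [AR]
  | cons b u ih =>
    simp only [List.cons_append, AR, ih]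
    constructor
    · rintro ⟨a1, h1, a2, h2, h3⟩; exact ⟨a2, ⟨a1, h1, h2⟩, h3⟩
    · rintro ⟨a2, ⟨a1, h1, h2⟩, h3⟩; exact ⟨a1, h1, a2, h2, h3⟩

/-- The full configuration. -/
def full (x : List Bool) (n : ℕ) (a : AC) : Config Mach where
  state := a.q
  tape := ![(init Mach x).tape 0, a.τ]
  head := ![(n : ℤ), a.z]

def a0 : AC := ⟨.P false (some true), fun _ => none, 0⟩

lemma init_eq (x : List Bool) : init Mach x = full x 0 a0 := by
  unfold init full a0
  congr 1
  · funext i
    match i with
    | 0 => rfl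
    | 1 => rfl
  · funext i
    match i with
    | 0 => rfl
    | 1 => rfl

lemma full_tape0 (x : List Bool) (n : ℕ) : (init Mach x).tape 0 (n : ℤ) = x[n]? := by
  simp only [init]
  cases h : x[n]? <;> simp [h]

lemma full_scan0 (x : List Bool) (n : ℕ) (a : AC) : (full x n a).scan 0 = x[n]? :=
  full_tape0 x n

lemma full_scan1 (x : List Bool) (n : ℕ) (a : AC) : (full x n a).scan 1 = a.τ a.z := rfl

lemma full_apply (x : List Bool) (n : ℕ) (b : Bool) (hb : x[n]? = some b) (a : AC)
    (t : St × Option Bool × Dir) :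
    (full x n a).apply ((t.1, ![some b, t.2.1], ![.R, t.2.2]) : Mach.Act) =
      full x (n + 1) ⟨t.1, Function.update a.τ a.z t.2.1, a.z + t.2.2.toInt⟩ := by
  unfold full Config.apply
  congr 1
  · funext i
    match i with
    | 0 =>
      change Function.update ((init Mach x).tape 0) (n : ℤ) (some b) = (init Mach x).tape 0
      have : (init Mach x).tape 0 (n : ℤ) = (some b : Option Bool) := by
        rw [full_tape0, hb]
      rw [← this]
      exact Function.update_eq_self _ _
    | 1 => rfl
  · funext i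
    match i with
    | 0 => rfl
    | 1 => rfl

lemma next_full (x : List Bool) (n : ℕ) (b : Bool) (hb : x[n]? = some b) (a : AC) :
    (full x n a).next = full x (n + 1) '' aStep b a := by
  ext d
  constructor
  · rintro ⟨act, ⟨b', h1, t, ht, rfl⟩, rfl⟩
    rw [full_scan0, hb] at h1
    have h1 : b = b' := Option.some_injective _ h1
    subst h1
    rw [full_scan1] at ht
    exact ⟨_, ⟨t, ht, rfl⟩, (full_apply x n b hb a t).symm⟩
  · rintro ⟨_, ⟨t, ht, rfl⟩, rfl⟩
    refine ⟨(t.1, ![some b, t.2.1], ![.R, t.2.2]), ⟨b, ?_, t, ?_, rfl⟩,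
      (full_apply x n b hb a t).symm⟩
    · rw [full_scan0, hb]
    · rw [full_scan1]; exact ht

lemma next_full_end (x : List Bool) (n : ℕ) (hn : x.length ≤ n) (a : AC) :
    (full x n a).next = ∅ := by
  rw [Set.eq_empty_iff_forall_notMem]
  rintro d ⟨act, ⟨b', h1, -⟩, -⟩
  rw [full_scan0, List.getElem?_eq_none hn] at h1
  exact absurd h1 (by simp)

lemma run_of_AR : ∀ (v u : List Bool) (a a' : AC), AR v a a' →
    ∃ g, Run (full (u ++ v) u.length a) v.length g (full (u ++ v) (u ++ v).length a') := by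
  intro v
  induction v with
  | nil =>
    intro u a a' h
    have h : a = a' := h
    subst h
    refine ⟨0, ?_⟩
    simpa using Run.refl (full u u.length a)
  | cons b v ih =>
    intro u a a' h
    obtain ⟨a1, h1, h2⟩ := h
    obtain ⟨g, hg⟩ := ih (u ++ [b]) a1 a' h2
    have e : u ++ [b] ++ v = u ++ b :: v := by simp
    rw [e] at hg
    have hb : (u ++ b :: v)[u.length]? = some b := by simp
    have hmem : full (u ++ b :: v) (u ++ [b]).length a1 ∈ (full (u ++ b :: v) u.length a).next := by
      rw [next_full _ _ b hb]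
      exact ⟨a1, h1, by simp⟩
    by_cases hn : (full (u ++ b :: v) u.length a).next.Nontrivial
    · exact ⟨_, Run.nondet hmem hn hg⟩
    · exact ⟨_, Run.det hmem hn hg⟩

lemma AR_of_run {c d : Config Mach} {m g : ℕ} (h : Run c m g d) :
    ∀ (u v : List Bool) (a : AC), c = full (u ++ v) u.length a →
      ∃ (v1 v2 : List Bool) (a' : AC), v = v1 ++ v2 ∧ AR v1 a a' ∧
        d = full (u ++ v) (u ++ v1).length a' := by
  have aux : ∀ (c d : Config Mach) (u v : List Bool) (a : AC),
      c = full (u ++ v) u.length a → d ∈ c.next → ∃ b v' a1, v = b :: v' ∧ a1 ∈ aStep b a ∧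
        d = full (u ++ [b] ++ v') (u ++ [b]).length a1 := by
    rintro c d u v a rfl hd
    cases v with
    | nil =>
      exfalso
      rw [next_full_end _ _ (by simp)] at hd
      exact hd
    | cons b v' =>
      have hb : (u ++ b :: v')[u.length]? = some b := by simp
      rw [next_full _ _ b hb] at hd
      obtain ⟨a1, h1, h2⟩ := hd
      exact ⟨b, v', a1, rfl, h1, by rw [← h2]; simp⟩
  induction h with
  | refl c =>
    intro u v a hc
    exact ⟨[], v, a, rfl, rfl, by simpa using hc⟩
  | @det c c1 c2 n g hc hn hr ih =>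
    intro u v a hcu
    obtain ⟨b, v', a1, rfl, h1, h2⟩ := aux c c1 u v a hcu hc
    obtain ⟨v1, v2, a', h3, h4, h5⟩ := ih (u ++ [b]) v' a1 h2
    exact ⟨b :: v1, v2, a', by rw [h3]; rfl, ⟨a1, h1, h4⟩, by rw [h5]; simp⟩
  | @nondet c c1 c2 n g hc hn hr ih =>
    intro u v a hcu
    obtain ⟨b, v', a1, rfl, h1, h2⟩ := aux c c1 u v a hcu hc
    obtain ⟨v1, v2, a', h3, h4, h5⟩ := ih (u ++ [b]) v' a1 h2
    exact ⟨b :: v1, v2, a', by rw [h3]; rfl, ⟨a1, h1, h4⟩, by rw [h5]; simp⟩

lemma F_persist : ∀ (v : List Bool) (a : AC), a.q = .F → ∃ a', AR v a a' ∧ a'.q = .F := by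
  intro v
  induction v with
  | nil => intro a h; exact ⟨a, rfl, h⟩
  | cons b v ih =>
    intro a h
    obtain ⟨a', h1, h2⟩ := ih ⟨.F, Function.update a.τ a.z (a.τ a.z), a.z + (Dir.N).toInt⟩ rfl
    refine ⟨a', ⟨_, ⟨(.F, a.τ a.z, .N), ?_, rfl⟩, h1⟩, h2⟩
    rw [h]
    exact rfl

/-- The language. -/
def Lx : Set (List Bool) := {x | ∃ a, AR x a0 a ∧ a.q = .F}

lemma accepting_full (md : Mode) (x : List Bool) (a : AC) (h : a.q = .F) :
    Accepting md x (full x x.length a) := by
  cases md with
  | halt => exact ⟨h, next_full_end _ _ le_rfl _⟩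
  | online => exact ⟨h, rfl⟩
  | state => exact h

lemma Lx_run (md : Mode) {x : List Bool} (hx : x ∈ Lx) :
    ∃ g c, Run (init Mach x) x.length g c ∧ Accepting md x c := by
  obtain ⟨a, h1, h2⟩ := hx
  obtain ⟨g, hg⟩ := run_of_AR x [] a0 a h1
  refine ⟨g, _, ?_, accepting_full md x a h2⟩
  rw [init_eq]
  simpa using hg

lemma lang_Mach (md : Mode) : Lang md Mach = Lx := by
  ext x
  constructor
  · rintro ⟨n, g, c, h1, h2⟩
    rw [init_eq] at h1
    obtain ⟨v1, v2, a', h3, h4, h5⟩ := AR_of_run h1 [] x a0 (by simp)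
    have hF : c.state = St.F := by
      cases md with
      | halt => exact h2.1
      | online => exact h2.1
      | state => exact h2
    have hF' : a'.q = .F := by
      rw [h5] at hF
      exact hF
    obtain ⟨a'', h6, h7⟩ := F_persist v2 a' hF'
    refine ⟨a'', ?_, h7⟩
    rw [h3]
    exact AR_append.2 ⟨a', h4, h6⟩
  · intro hx
    obtain ⟨g, c, h1, h2⟩ := Lx_run md hx
    exact ⟨_, g, c, h1, h2⟩

/-- The language is accepted in real time. -/
theorem Lx_mem (md : Mode) : Lx ∈ Qc md (fun n => (n : ℝ)) := by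
  refine ⟨Mach, lang_Mach md, fun x hx => ?_⟩
  obtain ⟨g, c, h1, h2⟩ := Lx_run md hx
  exact ⟨x.length, g, c, le_rfl, Nat.cast_le.2 h1.le, h1, h2⟩

end Pool.Agent.H611R2.RT
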