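import Pool.Agent.H611R2.RTPigeon
import Pool.Agent.H611R2.RTFam

namespace Pool.Agent.H611R2.RT

open Filter Asymptotics

/-! ### The family of instances -/

/-- A block: the parity of `i`, the name `t`, the bit `y`. -/
def blk {β : ℕ} (i : ℕ) (t : Fin β → Bool) (y : Bool) : List Bool :=
  decide (i % 2 = 1) :: (List.ofFn t ++ [y])

lemma blk_length {β : ℕ} (i : ℕ) (t : Fin β → Bool) (y : Bool) :
    (blk i t y).length = β + 2 := by
  simp [blk]

lemma blk_inj {β : ℕ} {i i' : ℕ} {t t' : Fin β → Bool} {y y' : Bool}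
    (h : blk i t y = blk i' t' y') : t = t' ∧ y = y' := by
  unfold blk at h
  have h1 := (List.cons.inj h).2
  have h2 := List.append_inj h1 (by simp)
  refine ⟨List.ofFn_injective h2.1, by simpa using h2.2⟩

section fam

variable {C β : ℕ}

noncomputable def Gb (b : Fin C × (Fin β → Bool) → Bool) (i : Fin C) : List (List Bool) :=
  (Finset.univ : Finset (Fin β → Bool)).toList.map (fun t => blk i t (b (i, t)))

noncomputable def Wb (b : Fin C × (Fin β → Bool) → Bool) : List (List Bool) :=
  (List.finRange C).flatMap (Gb b)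

def selB (f : Fin C → Fin β → Bool) (y : Fin C → Bool) : List (List Bool) :=
  (List.finRange C).map (fun i : Fin C => blk (i : ℕ) (f i) (y i))

lemma mem_Gb {b : Fin C × (Fin β → Bool) → Bool} {i : Fin C} {w : List Bool} :
    w ∈ Gb b i ↔ ∃ t, blk i t (b (i, t)) = w := by
  simp [Gb]

lemma Wb_length (b : Fin C × (Fin β → Bool) → Bool) : (Wb b).length = C * 2 ^ β := by
  simp [Wb, Gb, List.length_flatMap]

lemma Wb_mem {b : Fin C × (Fin β → Bool) → Bool} {w : List Bool} (h : w ∈ Wb b) :
    w.length = β + 2 := by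
  simp only [Wb, List.mem_flatMap] at h
  obtain ⟨i, -, hi⟩ := h
  obtain ⟨t, rfl⟩ := mem_Gb.1 hi
  exact blk_length _ _ _

lemma selB_mem {f : Fin C → Fin β → Bool} {y : Fin C → Bool} {w : List Bool}
    (h : w ∈ selB f y) : w.length = β + 2 := by
  simp only [selB, List.mem_map] at h
  obtain ⟨i, -, rfl⟩ := h
  exact blk_length _ _ _

end fam

lemma map_sublist_flatMap {ι α : Type} (x : ι → α) (G : ι → List α) :
    ∀ l : List ι, (∀ i ∈ l, x i ∈ G i) → (l.map x).Sublist (l.flatMap G) := by
  intro l
  induction l with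
  | nil => intro _; simp
  | cons i l ih =>
    intro h
    rw [List.map_cons, List.flatMap_cons]
    have h1 : [x i].Sublist (G i) := List.singleton_sublist.2 (h i (by simp))
    exact h1.append (ih (fun j hj => h j (by simp [hj])))

lemma align {ι α : Type} (flag : α → Bool) (G : ι → List α)
    (hG : ∀ i, ∀ a ∈ G i, ∀ a' ∈ G i, flag a = flag a') :
    ∀ (l : List ι) (v : List α), v.IsChain (fun a b => flag a ≠ flag b) →
      v.Sublist (l.flatMap G) → v.length ≤ l.length ∧
        (v.length = l.length → List.Forall₂ (fun i a => a ∈ G i) l v) := by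
  intro l
  induction l with
  | nil =>
    intro v _ h
    rw [List.flatMap_nil, List.sublist_nil] at h
    subst h
    exact ⟨le_rfl, fun _ => List.Forall₂.nil⟩
  | cons i l ih =>
    intro v hv h
    rw [List.flatMap_cons, List.sublist_append_iff] at h
    obtain ⟨l1, l2, rfl, h1, h2⟩ := h
    have hl2 := ih l2 (hv.right_of_append) h2
    have hl1 : l1.length ≤ 1 := by
      match l1, h1, hv with
      | [], _, _ => simp
      | [a], _, _ => simp
      | a :: a' :: r, h1, hv =>
        exfalso
        have hc : (a :: a' :: r).IsChain (fun a b => flag a ≠ flag b) := hv.left_of_append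
        rw [List.isChain_cons_cons] at hc
        exact hc.1 (hG i a (h1.subset (by simp)) a' (h1.subset (by simp)))
    constructor
    · rw [List.length_append, List.length_cons]; omega
    · intro hlen
      rw [List.length_append, List.length_cons] at hlen
      match l1, h1, hl1, hlen with
      | [], _, _, hlen => simp at hlen; omega
      | [a], h1, _, hlen =>
        refine List.Forall₂.cons (h1.subset (by simp)) (hl2.2 ?_)
        simp at hlen
        omega
      | a :: a' :: r, _, hl1, _ => simp at hl1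

lemma flatten_inj {α : Type} (m : ℕ) (hm : 0 < m) : ∀ (A B : List (List α)),
    (∀ a ∈ A, a.length = m) → (∀ b ∈ B, b.length = m) → A.flatten = B.flatten → A = B := by
  intro A
  induction A with
  | nil =>
    intro B _ hB h
    cases B with
    | nil => rfl
    | cons b B =>
      exfalso
      have := congrArg List.length h
      have hb := hB b (by simp)
      simp only [List.flatten_nil, List.flatten_cons, List.length_append, List.length_nil] at this
      omega
  | cons a A ih =>
    intro B hA hB h
    cases B with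
    | nil =>
      exfalso
      have := congrArg List.length h
      have ha := hA a (by simp)
      simp only [List.flatten_nil, List.flatten_cons, List.length_append, List.length_nil] at this
      omega
    | cons b B =>
      rw [List.flatten_cons, List.flatten_cons] at h
      have ha := hA a (by simp)
      have hb := hB b (by simp)
      have h2 := List.append_inj h (by rw [ha, hb])
      rw [h2.1, ih B (fun x hx => hA x (by simp [hx])) (fun x hx => hB x (by simp [hx])) h2.2]

section fam2

variable {C β : ℕ}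

lemma selB_sublist (b : Fin C × (Fin β → Bool) → Bool) (f : Fin C → Fin β → Bool) :
    (selB f (fun i => b (i, f i))).Sublist (Wb b) :=
  map_sublist_flatMap (fun i : Fin C => blk (i : ℕ) (f i) (b (i, f i))) (Gb b) _
    (fun i _ => mem_Gb.2 ⟨f i, rfl⟩)

lemma selB_sound (b : Fin C × (Fin β → Bool) → Bool) (f : Fin C → Fin β → Bool)
    (y : Fin C → Bool) (h : (selB f y).Sublist (Wb b)) (i : Fin C) : y i = b (i, f i) := by
  have hch : (selB f y).IsChain (fun a b => (a.headD false) ≠ (b.headD false)) := by
    rw [List.isChain_iff_getElem]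
    intro j hj
    simp only [selB, List.getElem_map, List.getElem_finRange, blk, List.headD_cons]
    intro h
    rw [decide_eq_decide] at h
    simp only [Fin.val_cast] at h
    omega
  have hG : ∀ i : Fin C, ∀ a ∈ Gb b i, ∀ a' ∈ Gb b i, a.headD false = a'.headD false := by
    intro i a ha a' ha'
    obtain ⟨t, rfl⟩ := mem_Gb.1 ha
    obtain ⟨t', rfl⟩ := mem_Gb.1 ha'
    rfl
  have := (align (fun a : List Bool => a.headD false) (Gb b) hG (List.finRange C) (selB f y) hch h).2
    (by simp [selB])
  rw [selB, List.forall₂_map_right_iff, List.forall₂_same] at this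
  obtain ⟨t, ht⟩ := mem_Gb.1 (this i (List.mem_finRange i))
  obtain ⟨h1, h2⟩ := blk_inj ht
  rw [← h2, h1]

/-- prefixes -/
noncomputable def pf (b : Fin C × (Fin β → Bool) → Bool) : List Bool := pw (Wb b)

/-- suffixes -/
def sf (f : Fin C → Fin β → Bool) (y : Fin C → Bool) : List Bool := sw (selB f y).flatten

lemma pf_sf_mem (b : Fin C × (Fin β → Bool) → Bool) (f : Fin C → Fin β → Bool) :
    pf b ++ sf f (fun i => b (i, f i)) ∈ Lx :=
  (mem_Lx _ _).2 ⟨_, selB_sublist b f, rfl⟩

lemma pf_sf_sound (b : Fin C × (Fin β → Bool) → Bool) (f : Fin C → Fin β → Bool)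
    (y : Fin C → Bool) (h : pf b ++ sf f y ∈ Lx) (i : Fin C) : y i = b (i, f i) := by
  obtain ⟨W', h1, h2⟩ := (mem_Lx _ _).1 h
  have : W' = selB f y := flatten_inj (β + 2) (by omega) _ _
    (fun a ha => Wb_mem (h1.subset ha)) (fun a ha => selB_mem ha) h2
  subst this
  exact selB_sound b f y h1 i

lemma enc_length (w : List Bool) : (enc w).length = 2 * w.length := by
  induction w with
  | nil => rfl
  | cons b w ih =>
    have : enc (b :: w) = false :: b :: enc w := rfl
    rw [this, List.length_cons, List.length_cons, ih, List.length_cons]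
    ring

lemma flatMap_encB_length (m : ℕ) : ∀ (W : List (List Bool)), (∀ w ∈ W, w.length = m) →
    (W.flatMap encB).length = W.length * (2 * m + 2) := by
  intro W
  induction W with
  | nil => intro _; simp
  | cons w W ih =>
    intro h
    rw [List.flatMap_cons, List.length_append, ih (fun x hx => h x (by simp [hx])), encB,
      List.length_append, enc_length, h w (by simp), List.length_cons]
    simp only [List.length_cons, List.length_nil]
    ring

lemma pf_length (b : Fin C × (Fin β → Bool) → Bool) :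
    (pf b).length = C * 2 ^ β * (2 * (β + 2) + 2) + 3 := by
  unfold pf pw
  rw [List.length_append, List.length_append, flatMap_encB_length (β + 2) _ (fun w hw => Wb_mem hw),
    Wb_length]
  simp only [List.length_cons, List.length_nil]
  ring

lemma flatten_length (m : ℕ) : ∀ (W : List (List Bool)), (∀ w ∈ W, w.length = m) →
    W.flatten.length = W.length * m := by
  intro W
  induction W with
  | nil => intro _; simp
  | cons w W ih =>
    intro h
    rw [List.flatten_cons, List.length_append, ih (fun x hx => h x (by simp [hx])),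
      h w (by simp), List.length_cons]
    ring

lemma sf_length (f : Fin C → Fin β → Bool) (y : Fin C → Bool) :
    (sf f y).length = 2 * (C * (β + 2)) + 1 := by
  unfold sf sw
  rw [List.length_append, enc_length, List.length_reverse,
    flatten_length (β + 2) _ (fun w hw => selB_mem hw)]
  simp [selB]

end fam2

lemma exists_beta (A : ℕ) : ∃ β : ℕ, A * (β + 1) ≤ 2 ^ β := by
  refine ⟨A + (A + 2), ?_⟩
  have h1 : A < 2 ^ A := Nat.lt_two_pow_self
  have h2 : A + (A + 2) + 1 ≤ 2 ^ (A + 2) := by
    rw [pow_add]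
    omega
  rw [pow_add]
  exact Nat.mul_le_mul h1.le h2

/-- The language is not accepted in real time with `o(n)` guesses. -/
theorem Lx_notMem (md : Mode) (g : ℕ → ℝ) (hg : g =o[atTop] (fun n : ℕ => (n : ℝ))) :
    Lx ∉ Qc md g := by
  rintro ⟨M, hM, hrt⟩
  have := M.finQ
  have := M.finΓ
  -- parameters of the machine
  set a := Nat.card M.Q with ha
  set γ := Nat.card M.Γ with hγ
  have ha2 : a ≤ 2 ^ a := Nat.lt_two_pow_self.le
  have hγ2 : γ ≤ 2 ^ γ := Nat.lt_two_pow_self.le
  obtain ⟨β, hβ⟩ := exists_beta (M.K * (a + γ * (M.k + 1) * 11 + 1))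
  set D := 4 + 2 ^ β * (2 * (β + 2) + 2) + 2 * (β + 2) with hD
  have hDpos : (0 : ℝ) < (D : ℝ)⁻¹ := by
    have : 0 < D := by omega
    positivity
  have hev := hg.def hDpos
  rw [eventually_atTop] at hev
  obtain ⟨n0, hn0⟩ := hev
  set C := n0 + 1 with hC
  set N := C * 2 ^ β * (2 * (β + 2) + 2) + 3 with hN
  set r := 2 * (C * (β + 2)) + 1 with hr
  have hNr : N + r ≤ D * C := by
    have : D * C = C * 2 ^ β * (2 * (β + 2) + 2) + 4 * C + 2 * (C * (β + 2)) := by
      rw [hD]; ring
    rw [this]
    omega
  have hNr2 : n0 ≤ N + r := by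
    have : C ≤ C * (β + 2) := Nat.le_mul_of_pos_right _ (by omega)
    omega
  have hgC : g (N + r) ≤ C := by
    have h1 := hn0 (N + r) hNr2
    rw [Real.norm_eq_abs, Real.norm_eq_abs, Nat.abs_cast] at h1
    refine (le_abs_self _).trans (h1.trans ?_)
    rw [inv_mul_le_iff₀ (by rw [inv_pos] at hDpos; exact hDpos)]
    exact_mod_cast hNr
  have hlow := lower md M C β N r pf sf (fun b => pf_length b) (fun f y => sf_length f y)
    (fun b f y h i => pf_sf_sound b f y (by rw [hM] at h; exact h) i) []
    (fun b => by rw [hM]; exact pw_notMem _)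
    (fun b f => by
      obtain ⟨n, j, c, h1, h2, h3, h4⟩ := hrt _ (pf_sf_mem b f)
      have hlen : (pf b ++ sf f (fun i => b (i, f i))).length = N + r := by
        rw [List.length_append, pf_length, sf_length]
      rw [hlen] at h1 h2
      refine ⟨n, j, c, Nat.cast_le.1 h1, ?_, h3, h4⟩
      have : (j : ℝ) ≤ C := h2.trans hgC
      exact_mod_cast this)
  have hup : a * (γ ^ (2 * r + 1)) ^ (M.k + 1) ≤ 2 ^ (a + γ * (2 * r + 1) * (M.k + 1)) := by
    calc a * (γ ^ (2 * r + 1)) ^ (M.k + 1)
        ≤ 2 ^ a * (((2 ^ γ) ^ (2 * r + 1)) ^ (M.k + 1)) := by gcongr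
      _ = 2 ^ (a + γ * (2 * r + 1) * (M.k + 1)) := by
        rw [← pow_mul, ← pow_mul, ← pow_add, mul_assoc]
  have hfin := (Nat.pow_le_pow_iff_right (by norm_num : 1 < 2)).1 (hlow.trans hup)
  have hK := M.K_pos
  have hbig : a + γ * (2 * r + 1) * (M.k + 1) + 1 ≤ C * 2 ^ β / M.K := by
    rw [Nat.le_div_iff_mul_le hK]
    have h1 : C * (M.K * (a + γ * (M.k + 1) * 11 + 1) * (β + 1)) ≤ C * 2 ^ β :=
      Nat.mul_le_mul_left _ hβ
    refine le_trans ?_ h1
    have h2 : a + γ * (2 * r + 1) * (M.k + 1) + 1 ≤
        C * ((a + γ * (M.k + 1) * 11 + 1) * (β + 1)) := by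
      have h3 : 2 * r + 1 ≤ C * (11 * (β + 1)) := by
        rw [hr]
        nlinarith [Nat.zero_le (n0 * β), Nat.zero_le n0, Nat.zero_le β]
      have hCβ : 1 ≤ C * (β + 1) := Nat.one_le_iff_ne_zero.2 (by positivity)
      calc a + γ * (2 * r + 1) * (M.k + 1) + 1
          ≤ a * (C * (β + 1)) + γ * (C * (11 * (β + 1))) * (M.k + 1) + 1 * (C * (β + 1)) := by
            gcongr
            · exact Nat.le_mul_of_pos_right _ hCβ
            · rw [one_mul]; exact hCβ
        _ = C * ((a + γ * (M.k + 1) * 11 + 1) * (β + 1)) := by ring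
    calc (a + γ * (2 * r + 1) * (M.k + 1) + 1) * M.K
        ≤ (C * ((a + γ * (M.k + 1) * 11 + 1) * (β + 1))) * M.K := Nat.mul_le_mul_right _ h2
      _ = C * (M.K * (a + γ * (M.k + 1) * 11 + 1) * (β + 1)) := by ring
  omega

/-- **Main theorem.** -/
theorem strict (md : Mode) (g : ℕ → ℝ) (hg : g =o[atTop] (fun n : ℕ => (n : ℝ))) :
    Qc md g ⊂ Qc md (fun n => (n : ℝ)) := by
  refine ⟨?_, fun h => Lx_notMem md g hg (h (Lx_mem md))⟩
  rintro A ⟨M, hM, h⟩
  refine ⟨M, hM, fun x hx => ?_⟩
  obtain ⟨n, j, c, h1, _, h3, h4⟩ := h x hx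
  refine ⟨n, j, c, h1, ?_, h3, h4⟩
  exact le_trans (by exact_mod_cast h3.le) h1

theorem strict_log (md : Mode) :
    Qc md (fun n => Real.logb 2 n) ⊂ Qc md (fun n => (n : ℝ)) := by
  refine strict md _ ?_
  have h1 : Real.log =o[atTop] (id : ℝ → ℝ) := Real.isLittleO_log_id_atTop
  have h2 := h1.comp_tendsto tendsto_natCast_atTop_atTop
  have h3 : (fun n : ℕ => Real.logb 2 n) = fun n : ℕ => (Real.log 2)⁻¹ * Real.log n := by
    funext n
    rw [Real.logb, div_eq_inv_mul]
  rw [h3]
  exact h2.const_mul_left _

end Pool.Agent.H611R2.RT
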