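import Pool.Agent.H611R2.RTLow

namespace Pool.Agent.H611R2.RT

variable {M : NTM}

/-- Number of actions of the machine. -/
noncomputable def NTM.K (M : NTM) : ℕ := Nat.card M.Act

lemma NTM.finAct (M : NTM) : Finite M.Act := by
  have := M.finQ
  have := M.finΓ
  infer_instance

lemma NTM.K_pos (M : NTM) : 0 < M.K := by
  have := M.finAct
  have : Nonempty M.Act := ⟨(M.start, fun _ => M.blank, fun _ => Dir.N)⟩
  exact Nat.card_pos

lemma Pre.head_le {p : List Bool} {t : ℕ} {c : Config M} (h : Pre p t c) :
    c.head 0 ≤ p.length := by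
  cases h with
  | init => simp [RT.init]
  | @step t c d _ hc hd =>
    obtain ⟨a, _, rfl⟩ := hd
    have hd : (a.2.2 0).toInt ≤ 1 := by
      cases a.2.2 0 <;> simp [Dir.toInt]
    simp only [Config.apply]
    omega

section pigeon

variable {ι : Type} [Fintype ι] (md : Mode) (p : List Bool) (s : ι → List Bool) (T G : ℕ)

open Classical in
/-- The suffixes that can still be accepted. -/
noncomputable def good (c : Config M) (t j : ℕ) : Finset ι :=
  Finset.univ.filter (fun f => ∃ (n' j' : ℕ) (d : Config M), n' + t ≤ T ∧ j' + j ≤ G ∧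
    Run (put p.length (s f) c) n' j' d ∧ Accepting md (p ++ s f) d)

variable {md p s T G}

lemma mem_good {c : Config M} {t j : ℕ} {f : ι} : f ∈ good md p s T G c t j ↔
    ∃ (n' j' : ℕ) (d : Config M), n' + t ≤ T ∧ j' + j ≤ G ∧
    Run (put p.length (s f) c) n' j' d ∧ Accepting md (p ++ s f) d := by
  classical
  simp [good]

/-- No accepting configuration before the whole prefix is read. -/
lemma no_early {s' s'' : List Bool}
    (h4 : p ++ s' ∉ Lang md M) {t : ℕ} {c : Config M} (hc : Pre p t c)
    (hh : c.head 0 < p.length) : ¬ Accepting md (p ++ s'') (put p.length s'' c) := by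
  intro hacc
  apply h4
  obtain ⟨g, hg⟩ := hc.run s'
  refine ⟨t, g, _, hg, ?_⟩
  cases md with
  | halt =>
    refine ⟨hacc.1, ?_⟩
    have := hacc.2
    rw [put_next hh, Set.image_eq_empty] at this ⊢
    exact this
  | online =>
    have := hacc.2
    simp only [put, List.length_append] at this
    push_cast at this
    omega
  | state => exact hacc

lemma pigeon {s' : List Bool} (h4 : p ++ s' ∉ Lang md M) :
    ∀ (m t j : ℕ) (c : Config M), T - t = m → Pre p t c → (good md p s T G c t j).Nonempty →
      ∃ (t' j' : ℕ) (c' : Config M), Pre p t' c' ∧ c'.head 0 = p.length ∧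
        (good md p s T G c' t' j').Nonempty ∧
        (good md p s T G c t j).card * M.K ^ j ≤ M.K ^ j' * (good md p s T G c' t' j').card := by
  classical
  intro m
  induction m with
  | zero =>
    intro t j c hm hc hne
    by_cases hh : c.head 0 < p.length
    · exfalso
      obtain ⟨f, hf⟩ := hne
      rw [mem_good] at hf
      obtain ⟨n', j', d, h1, h2, h3, h5⟩ := hf
      have : n' = 0 := by omega
      subst this
      cases h3 with
      | refl => exact no_early h4 hc hh h5
    · exact ⟨t, j, c, hc, le_antisymm hc.head_le (not_lt.1 hh), hne, le_of_eq (mul_comm _ _)⟩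
  | succ m ih =>
    intro t j c hm hc hne
    by_cases hh : c.head 0 < p.length
    swap
    · exact ⟨t, j, c, hc, le_antisymm hc.head_le (not_lt.1 hh), hne, le_of_eq (mul_comm _ _)⟩
    -- each good suffix comes from a next configuration
    by_cases hn : c.next.Nontrivial
    · -- nondeterministic step
      have := M.finAct
      have := Fintype.ofFinite M.Act
      have hsub : good md p s T G c t j ⊆ (Finset.univ : Finset M.Act).biUnion
          (fun a => if a ∈ M.δ c.state c.scan then good md p s T G (c.apply a) (t + 1) (j + 1)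
            else ∅) := by
        intro f hf
        rw [mem_good] at hf
        obtain ⟨n', j', d, h1, h2, h3, h5⟩ := hf
        cases h3 with
        | refl => exact absurd h5 (no_early h4 hc hh)
        | det hd hn' _ =>
          exfalso
          apply hn'
          rw [Config.next_nontrivial, put_scan hh]
          rw [Config.next_nontrivial] at hn
          exact hn
        | @nondet _ d1 _ n1 g1 hd hn' hr =>
          rw [put_next hh] at hd
          obtain ⟨d0, ⟨a, ha, rfl⟩, rfl⟩ := hd
          rw [Finset.mem_biUnion]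
          refine ⟨a, Finset.mem_univ _, ?_⟩
          rw [if_pos ha, mem_good]
          exact ⟨n1, g1, d, by omega, by omega, hr, h5⟩
      obtain ⟨a, ha⟩ : ∃ a : M.Act, (good md p s T G c t j).card ≤ M.K *
          (if a ∈ M.δ c.state c.scan then good md p s T G (c.apply a) (t + 1) (j + 1)
            else ∅).card := by
        have : Nonempty M.Act := ⟨(M.start, fun _ => M.blank, fun _ => Dir.N)⟩
        obtain ⟨a, -, ha⟩ := Finset.exists_max_image (Finset.univ : Finset M.Act)
          (fun a => (if a ∈ M.δ c.state c.scan then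
            good md p s T G (c.apply a) (t + 1) (j + 1) else ∅).card) Finset.univ_nonempty
        refine ⟨a, (Finset.card_le_card hsub).trans (Finset.card_biUnion_le.trans ?_)⟩
        refine (Finset.sum_le_card_nsmul _ _ _ (fun b hb => ha b hb)).trans ?_
        rw [smul_eq_mul, Finset.card_univ, NTM.K, Nat.card_eq_fintype_card]
      have hpos : 0 < (good md p s T G c t j).card := Finset.card_pos.2 hne
      by_cases hmem : a ∈ M.δ c.state c.scan
      swap
      · rw [if_neg hmem, Finset.card_empty, mul_zero] at ha
        omega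
      rw [if_pos hmem] at ha
      have hne' : (good md p s T G (c.apply a) (t + 1) (j + 1)).Nonempty := by
        rw [← Finset.card_pos]
        by_contra h0
        have : (good md p s T G (c.apply a) (t + 1) (j + 1)).card = 0 := by omega
        rw [this] at ha
        omega
      obtain ⟨t', j', c', h1, h2, h3, h5⟩ := ih (t + 1) (j + 1) (c.apply a) (by omega)
        (hc.step hh ⟨a, hmem, rfl⟩) hne'
      refine ⟨t', j', c', h1, h2, h3, le_trans ?_ h5⟩
      calc (good md p s T G c t j).card * M.K ^ j
          ≤ (M.K * (good md p s T G (c.apply a) (t + 1) (j + 1)).card) * M.K ^ j :=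
            Nat.mul_le_mul_right _ ha
        _ = _ := by ring
    · -- deterministic step
      obtain ⟨f0, hf0⟩ := hne
      have hne0 := hf0
      rw [mem_good] at hf0
      obtain ⟨n', j', d, h1, h2, h3, h5⟩ := hf0
      have key : ∃ a, a ∈ M.δ c.state c.scan := by
        cases h3 with
        | refl => exact absurd h5 (no_early h4 hc hh)
        | det hd _ _ =>
          rw [put_next hh] at hd
          obtain ⟨d0, ⟨a, ha, rfl⟩, rfl⟩ := hd
          exact ⟨a, ha⟩
        | nondet hd _ _ =>
          rw [put_next hh] at hd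
          obtain ⟨d0, ⟨a, ha, rfl⟩, rfl⟩ := hd
          exact ⟨a, ha⟩
      obtain ⟨a, ha⟩ := key
      have hsub : good md p s T G c t j ⊆ good md p s T G (c.apply a) (t + 1) j := by
        intro f hf
        rw [mem_good] at hf ⊢
        obtain ⟨n', j', d, h1, h2, h3, h5⟩ := hf
        cases h3 with
        | refl => exact absurd h5 (no_early h4 hc hh)
        | @det _ d1 _ n1 g1 hd hn' hr =>
          rw [put_next hh] at hd
          obtain ⟨d0, ⟨a', ha', rfl⟩, rfl⟩ := hd
          have : a' = a := by
            by_contra hne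
            rw [Config.next_nontrivial] at hn
            exact hn ⟨a', ha', a, ha, hne⟩
          subst this
          exact ⟨n1, _, d, by omega, by omega, hr, h5⟩
        | @nondet _ d1 _ n1 g1 hd hn' hr =>
          exfalso
          apply hn
          rw [Config.next_nontrivial, put_scan hh] at hn'
          rw [Config.next_nontrivial]
          exact hn'
      obtain ⟨t', j', c', h1, h2, h3, h5⟩ := ih (t + 1) j (c.apply a) (by omega)
        (hc.step hh ⟨a, ha, rfl⟩) ⟨f0, hsub hne0⟩
      exact ⟨t', j', c', h1, h2, h3,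
        le_trans (Nat.mul_le_mul_right _ (Finset.card_le_card hsub)) h5⟩

end pigeon

/-! ### Counting -/

lemma amgm {C : ℕ} (B K : ℕ) (hB : 0 < B) (U : Fin C → ℕ)
    (h : B ^ C ≤ K ^ C * ∏ i, U i) : C * B ≤ K * ∑ i, U i := by
  by_contra hlt
  push Not at hlt
  have hB' : (0 : ℝ) < B := by exact_mod_cast hB
  set x : Fin C → ℝ := fun i => (K : ℝ) * U i / B with hx
  have hx0 : ∀ i, 0 ≤ x i := fun i => by positivity
  have h1 : (1 : ℝ) ≤ ∏ i, x i := by
    have : ∏ i, x i = (K : ℝ) ^ C * (∏ i, (U i : ℝ)) / (B : ℝ) ^ C := by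
      simp only [hx, Finset.prod_div_distrib, Finset.prod_mul_distrib, Finset.prod_const,
        Finset.card_univ, Fintype.card_fin]
    rw [this, one_le_div (by positivity)]
    exact_mod_cast h
  have h2 : ∏ i, x i ≤ Real.exp (∑ i, (x i - 1)) := by
    rw [Real.exp_sum]
    refine Finset.prod_le_prod (fun i _ => hx0 i) (fun i _ => ?_)
    have := Real.add_one_le_exp (x i - 1)
    linarith
  have h3 : ∑ i, (x i - 1) < 0 := by
    rw [Finset.sum_sub_distrib]
    have : ∑ i, x i = (K : ℝ) * (∑ i, (U i : ℝ)) / B := by
      simp only [hx, Finset.mul_sum, Finset.sum_div]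
    rw [this]
    simp only [Finset.sum_const, Finset.card_univ, Fintype.card_fin, nsmul_eq_mul, mul_one]
    rw [sub_neg, div_lt_iff₀ hB']
    exact_mod_cast hlt
  have h4 : Real.exp (∑ i, (x i - 1)) < 1 := by
    rw [Real.exp_lt_one_iff]
    exact h3
  linarith

lemma card_agree {X : Type} [Fintype X] [DecidableEq X] (U : Finset X) (b : X → Bool)
    (S : Finset (X → Bool)) (hS : ∀ b' ∈ S, ∀ x ∈ U, b' x = b x) :
    S.card ≤ 2 ^ (Fintype.card X - U.card) := by
  classical
  have : S.card ≤ Fintype.card ({x // x ∉ U} → Bool) := by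
    rw [← Finset.card_univ]
    refine Finset.card_le_card_of_injOn (fun b' x => b' x.1) (fun _ _ => Finset.mem_coe.2 (Finset.mem_univ _)) ?_
    intro b1 h1 b2 h2 h12
    funext x
    by_cases hx : x ∈ U
    · rw [hS b1 (Finset.mem_coe.1 h1) x hx, hS b2 (Finset.mem_coe.1 h2) x hx]
    · exact congrFun h12 ⟨x, hx⟩
  refine this.trans (le_of_eq ?_)
  rw [Fintype.card_fun, Fintype.card_bool, Fintype.card_subtype_compl, Fintype.card_coe]

/-- The main counting argument. -/
theorem lower (md : Mode) (M : NTM) (C β N r : ℕ)
    (p : (Fin C × (Fin β → Bool) → Bool) → List Bool)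
    (s : (Fin C → Fin β → Bool) → (Fin C → Bool) → List Bool)
    (hp : ∀ b, (p b).length = N) (hs : ∀ f y, (s f y).length = r)
    (h3 : ∀ b f y, p b ++ s f y ∈ Lang md M → ∀ i, y i = b (i, f i))
    (s' : List Bool) (h4 : ∀ b, p b ++ s' ∉ Lang md M)
    (hG : ∀ b f, ∃ (n j : ℕ) (c : Config M), n ≤ N + r ∧ j ≤ C ∧
      Run (init M (p b ++ s f (fun i => b (i, f i)))) n j c ∧
      Accepting md (p b ++ s f (fun i => b (i, f i))) c) :
    2 ^ (C * 2 ^ β / M.K) ≤ Nat.card M.Q * (Nat.card M.Γ ^ (2 * r + 1)) ^ (M.k + 1) := by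
  classical
  have := M.finQ
  have := M.finΓ
  have := Fintype.ofFinite M.Q
  have := Fintype.ofFinite M.Γ
  -- configurations by the pigeonhole principle
  have hK := M.K_pos
  have H : ∀ b : Fin C × (Fin β → Bool) → Bool, ∃ (t j : ℕ) (c : Config M), Pre (p b) t c ∧
      c.head 0 = (p b).length ∧
      (2 ^ β) ^ C ≤ M.K ^ C *
        (good md (p b) (fun f => s f (fun i => b (i, f i))) (N + r) C c t j).card := by
    intro b
    have h0 : good md (p b) (fun f => s f (fun i => b (i, f i))) (N + r) C (init M (p b)) 0 0
        = Finset.univ := by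
      rw [Finset.eq_univ_iff_forall]
      intro f
      rw [mem_good]
      obtain ⟨n, j, c, h1, h2, h3, h4⟩ := hG b f
      exact ⟨n, j, c, by omega, by omega, by rw [put_init]; exact h3, h4⟩
    obtain ⟨t, j, c, e1, e2, e3, e4⟩ := pigeon (M := M) (md := md) (p := p b)
      (s := fun f => s f (fun i => b (i, f i))) (T := N + r) (G := C) (h4 b) (N + r) 0 0
      (init M (p b)) rfl Pre.init (by rw [h0]; exact ⟨fun _ _ => false, Finset.mem_univ _⟩)
    refine ⟨t, j, c, e1, e2, ?_⟩
    rw [h0, pow_zero, mul_one, Finset.card_univ] at e4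
    have hcard : Fintype.card (Fin C → Fin β → Bool) = (2 ^ β) ^ C := by simp
    rw [hcard] at e4
    refine e4.trans (Nat.mul_le_mul_right _ (Nat.pow_le_pow_right hK ?_))
    obtain ⟨f, hf⟩ := e3
    rw [mem_good] at hf
    obtain ⟨n', j', d, h1, h2, h3, h4⟩ := hf
    omega
  choose tt jj cc hc1 hc2 hc3 using H
  set V : (Fin C × (Fin β → Bool) → Bool) → Finset (Fin C → Fin β → Bool) := fun b =>
    good md (p b) (fun f => s f (fun i => b (i, f i))) (N + r) C (cc b) (tt b) (jj b) with hV
  -- same windows imply agreement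
  have hagree : ∀ b b', key r (cc b) = key r (cc b') → ∀ f ∈ V b, ∀ i, b (i, f i) = b' (i, f i) := by
    intro b b' hk f hf
    rw [hV] at hf
    simp only at hf
    rw [mem_good] at hf
    obtain ⟨n', j', d, h1, h2, hr, hacc⟩ := hf
    have hsim := Sim_of_key hk
    have ht : (N : ℤ) ≤ tt b := by
      have := (hc1 b).head
      rw [hc2 b, hp b] at this
      exact this
    set w := s f (fun i => b (i, f i)) with hw
    have hsim' : Sim r (put (p b).length w (cc b)) (put (p b').length w (cc b')) := by
      refine ⟨hsim.1, fun i z hz1 hz2 => ?_⟩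
      have := hsim.2 i z hz1 hz2
      simp only [put]
      by_cases hi : i = 0
      · subst hi
        rw [hc2 b, hc2 b', hp b, hp b'] at *
        by_cases hz : (N : ℤ) ≤ N + z
        · rw [if_pos ⟨rfl, hz⟩, if_pos ⟨rfl, hz⟩]
        · rw [if_neg (fun h => hz h.2), if_neg (fun h => hz h.2)]
          exact this
      · rw [if_neg (fun h => hi h.1), if_neg (fun h => hi h.1)]
        exact this
    obtain ⟨d', hd1, hd2, hd3⟩ := Sim.run hr (R := r) (by omega) hsim'
    have hacc' : Accepting md (p b' ++ w) d' := by
      cases md with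
      | halt =>
        refine ⟨by rw [← hd2.1]; exact hacc.1, ?_⟩
        rw [Config.next_empty, ← hd2.1, ← hd2.scan, ← Config.next_empty]
        exact hacc.2
      | online =>
        refine ⟨by rw [← hd2.1]; exact hacc.1, ?_⟩
        have e1 := hd3 0
        have e2 := hacc.2
        simp only [put] at e1
        rw [hc2 b, hc2 b', hp b, hp b'] at e1
        rw [List.length_append, hp] at e2 ⊢
        rw [e2] at e1
        omega
      | state =>
        change d'.state ∈ M.acc
        rw [← hd2.1]
        exact hacc
    obtain ⟨g, hg⟩ := (hc1 b').run w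
    have hmem : p b' ++ w ∈ Lang md M := ⟨_, _, d', hg.trans hd1, hacc'⟩
    exact h3 b' f _ hmem
  -- the determined positions
  set U : (Fin C × (Fin β → Bool) → Bool) → Finset (Fin C × (Fin β → Bool)) := fun b =>
    Finset.univ.filter (fun x => ∃ f ∈ V b, f x.1 = x.2) with hU
  have hUcard : ∀ b, C * 2 ^ β ≤ M.K * (U b).card := by
    intro b
    have e1 : (U b).card = ∑ i : Fin C, ((V b).image (fun f => f i)).card := by
      rw [← Finset.card_sigma]
      refine Finset.card_bij' (fun x _ => ⟨x.1, x.2⟩) (fun x _ => (x.1, x.2)) ?_ ?_ ?_ ?_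
      · intro x hx
        simp only [hU, Finset.mem_filter, Finset.mem_univ, true_and] at hx
        simp only [Finset.mem_sigma, Finset.mem_univ, true_and, Finset.mem_image]
        exact hx
      · intro x hx
        simp only [Finset.mem_sigma, Finset.mem_univ, true_and, Finset.mem_image] at hx
        simp only [hU, Finset.mem_filter, Finset.mem_univ, true_and]
        exact hx
      · intro x _; rfl
      · intro x _; rfl
    rw [e1]
    apply amgm (2 ^ β) M.K (by positivity)
    refine (hc3 b).trans (Nat.mul_le_mul_left _ ?_)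
    have : (V b) ⊆ Fintype.piFinset (fun i => (V b).image (fun f => f i)) := by
      intro f hf
      rw [Fintype.mem_piFinset]
      intro i
      exact Finset.mem_image_of_mem _ hf
    refine (Finset.card_le_card this).trans (le_of_eq ?_)
    rw [Fintype.card_piFinset]
  -- fibres of the key
  set u := C * 2 ^ β / M.K with hu
  have hu' : ∀ b, u ≤ (U b).card := by
    intro b
    exact Nat.div_le_of_le_mul (hUcard b)
  have huX : u ≤ C * 2 ^ β := Nat.div_le_self _ _
  have hfib : ∀ κ ∈ (Finset.univ : Finset (M.Q × (Fin (M.k + 1) → Fin (2 * r + 1) → M.Γ))),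
      (Finset.univ.filter (fun b => key r (cc b) = κ)).card ≤ 2 ^ (C * 2 ^ β - u) := by
    intro κ _
    by_cases hne : (Finset.univ.filter (fun b => key r (cc b) = κ)).Nonempty
    · obtain ⟨b0, hb0⟩ := hne
      have hb0' : key r (cc b0) = κ := (Finset.mem_filter.1 hb0).2
      have := card_agree (U b0) b0 (Finset.univ.filter (fun b => key r (cc b) = κ)) (by
        intro b' hb' x hx
        have hb'' : key r (cc b') = κ := (Finset.mem_filter.1 hb').2
        simp only [hU, Finset.mem_filter, Finset.mem_univ, true_and] at hx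
        obtain ⟨f, hf, hfx⟩ := hx
        have := hagree b0 b' (by rw [hb0', hb'']) f hf x.1
        rw [hfx] at this
        exact this.symm)
      refine this.trans (Nat.pow_le_pow_right (by norm_num) ?_)
      have hX : Fintype.card (Fin C × (Fin β → Bool)) = C * 2 ^ β := by simp
      rw [hX]
      have := hu' b0
      omega
    · rw [Finset.not_nonempty_iff_eq_empty] at hne
      rw [hne]
      simp
  have htot : 2 ^ (C * 2 ^ β) ≤ Fintype.card (M.Q × (Fin (M.k + 1) → Fin (2 * r + 1) → M.Γ))
      * 2 ^ (C * 2 ^ β - u) := by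
    have e0 : (Finset.univ : Finset (Fin C × (Fin β → Bool) → Bool)).card = 2 ^ (C * 2 ^ β) := by
      simp
    rw [← e0, Finset.card_eq_sum_card_fiberwise (f := fun b => key r (cc b))
      (t := Finset.univ) (fun _ _ => Finset.mem_coe.2 (Finset.mem_univ _))]
    exact Finset.sum_le_card_nsmul _ _ _ hfib
  have e5 : 2 ^ (C * 2 ^ β) = 2 ^ u * 2 ^ (C * 2 ^ β - u) := by
    rw [← pow_add]; congr 1; omega
  rw [e5] at htot
  have e6 := Nat.le_of_mul_le_mul_right htot (by positivity)
  refine e6.trans (le_of_eq ?_)
  rw [Nat.card_eq_fintype_card, Nat.card_eq_fintype_card]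
  simp

end Pool.Agent.H611R2.RT
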