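import Pool.Agent.H611R2.BPMain

/-!
# Towers with few alternations inside towers with many
-/

namespace Pool.Agent.H611R2

open Finset Pool.Agent.H520R2 Pool.Agent.H520R2.NM

theorem alt_const {U : Type} [Nonempty U] {n : ℕ} : ∀ {e : Bool} {p : Prop},
    Alt e n (fun _ : Fin n → U => p) ↔ p := by
  induction n with
  | zero => intro e p; cases e <;> exact Iff.rfl
  | succ n ih =>
    intro e p
    cases e
    · change (∀ u : U, Alt true n (fun _ : Fin n → U => p)) ↔ p
      simp only [ih, forall_const]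
    · change (∃ u : U, Alt false n (fun _ : Fin n → U => p)) ↔ p
      simp only [ih, exists_const]

/-- One quantifier. -/
def Q1 {U : Type} (e : Bool) (P : U → Prop) : Prop :=
  match e with
  | true => ∃ u, P u
  | false => ∀ u, P u

theorem q1_congr {U : Type} {e : Bool} {P P' : U → Prop} (h : ∀ u, P u ↔ P' u) :
    Q1 e P ↔ Q1 e P' := by
  cases e
  · exact forall_congr' h
  · exact exists_congr h

theorem alt_succ {U : Type} {n : ℕ} {e : Bool} {R : (Fin (n + 1) → U) → Prop} :
    Alt e (n + 1) R ↔ Q1 e (fun u => Alt (!e) n (fun w => R (Fin.cons u w))) := by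
  cases e <;> exact Iff.rfl

/-- The statement form `Φ` about families of propositions with indices in `J` is a restriction of
the alternating form with `D` quantifiers over `m` values. -/
def Emb (e : Bool) (D m : ℕ) (J : Type) (Φ : (J → Prop) → Prop) : Prop :=
  ∃ τ : (Fin D → Fin m) → Bool ⊕ J, ∀ R : J → Prop,
    Alt e D (fun i => Sum.elim (fun b => b = true) R (τ i)) ↔ Φ R

theorem Emb.skip {e : Bool} {D m : ℕ} (hm : 1 ≤ m) {J : Type} {Φ : (J → Prop) → Prop}
    (h : Emb (!e) D m J Φ) : Emb e (D + 1) m J Φ := by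
  classical
  obtain ⟨τ, hτ⟩ := h
  have : Nonempty (Fin m) := ⟨⟨0, hm⟩⟩
  let z : Fin m := ⟨0, hm⟩
  refine ⟨fun i => if i 0 = z then τ (Fin.tail i) else Sum.inl (!e), fun R => ?_⟩
  rw [alt_succ, ← hτ R]
  have h0 : ∀ w : Fin D → Fin m, (Sum.elim (fun b => b = true) R
      (if (Fin.cons z w : Fin (D + 1) → Fin m) 0 = z then
        τ (Fin.tail (Fin.cons z w : Fin (D + 1) → Fin m)) else Sum.inl (!e))) =
      Sum.elim (fun b => b = true) R (τ w) := by
    intro w
    rw [Fin.cons_zero, if_pos rfl, Fin.tail_cons]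
  have h1 : ∀ u : Fin m, u ≠ z → ∀ w : Fin D → Fin m, (Sum.elim (fun b => b = true) R
      (if (Fin.cons u w : Fin (D + 1) → Fin m) 0 = z then
        τ (Fin.tail (Fin.cons u w : Fin (D + 1) → Fin m)) else Sum.inl (!e))) =
      ((!e) = true) := by
    intro u hu w
    rw [Fin.cons_zero, if_neg hu]
    rfl
  cases e
  · constructor
    · intro h
      have h2 := h z
      simp only [h0] at h2
      exact h2
    · intro h u
      by_cases hu : u = z
      · subst hu
        simp only [h0]
        exact h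
      · simp only [h1 u hu]
        exact alt_const.mpr rfl
  · constructor
    · rintro ⟨u, hu'⟩
      by_cases hu : u = z
      · subst hu
        simp only [h0] at hu'
        exact hu'
      · simp only [h1 u hu] at hu'
        have := alt_const.mp hu'
        exact absurd this (by simp)
    · intro h
      refine ⟨z, ?_⟩
      simp only [h0]
      exact h

theorem Emb.branch {e : Bool} {D m : ℕ} {J : Type} {Φ : (J → Prop) → Prop}
    (h : Emb (!e) D m J Φ) :
    Emb e (D + 1) m (Fin m × J) (fun R => Q1 e (fun u => Φ (fun j => R (u, j)))) := by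
  obtain ⟨τ, hτ⟩ := h
  refine ⟨fun i => (τ (Fin.tail i)).map id (fun j => (i 0, j)), fun R => ?_⟩
  rw [alt_succ]
  apply q1_congr
  intro u
  rw [← hτ]
  apply Alt.congr
  intro w
  beta_reduce
  rw [Fin.tail_cons, Fin.cons_zero]
  rcases τ w with b | j <;> exact Iff.rfl

theorem Emb.congr {e : Bool} {D m : ℕ} {J J' : Type} {Φ : (J → Prop) → Prop}
    {Φ' : (J' → Prop) → Prop} (h : Emb e D m J Φ) (σ : J → J')
    (hσ : ∀ R, Φ' R ↔ Φ (fun j => R (σ j))) : Emb e D m J' Φ' := by
  obtain ⟨τ, hτ⟩ := h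
  refine ⟨fun i => (τ i).map id σ, fun R => ?_⟩
  rw [hσ, ← hτ]
  apply Alt.congr
  intro w
  beta_reduce
  rcases τ w with b | j <;> exact Iff.rfl

theorem Emb.group {e : Bool} {D m : ℕ} (hm : 1 ≤ m) {J : Type} {Φ : (J → Prop) → Prop}
    (h : Emb (!e) D m J Φ) (a : ℕ) :
    Emb e (D + (2 * a + 1)) m (Fin (m ^ (a + 1)) × J)
      (fun R => Q1 e (fun u => Φ (fun j => R (u, j)))) := by
  induction a with
  | zero =>
    refine h.branch.congr (fun p => (Fin.cast (by ring) p.1, p.2)) (fun R => ?_)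
    have hmul : m = m ^ (0 + 1) := by ring
    cases e
    · constructor
      · intro h u
        exact h (Fin.cast hmul u)
      · intro h u
        exact h (Fin.cast hmul.symm u)
    · constructor
      · rintro ⟨u, hu⟩
        exact ⟨Fin.cast hmul.symm u, hu⟩
      · rintro ⟨u, hu⟩
        exact ⟨Fin.cast hmul u, hu⟩
  | succ a ih =>
    have h1 : Emb (!e) (D + (2 * a + 1) + 1) m (Fin (m ^ (a + 1)) × J)
        (fun R => Q1 e (fun u => Φ (fun j => R (u, j)))) :=
      Emb.skip (e := !e) hm (by rw [Bool.not_not]; exact ih)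
    have h2 := h1.branch
    have e1 : D + (2 * (a + 1) + 1) = D + (2 * a + 1) + 1 + 1 := by ring
    rw [e1]
    refine h2.congr (fun p => (Fin.cast (by ring) (finProdFinEquiv (p.1, p.2.1)), p.2.2))
      (fun R => ?_)
    have hmul : m * m ^ (a + 1) = m ^ (a + 1 + 1) := by ring
    have hsurj : ∀ u : Fin (m ^ (a + 1 + 1)), ∃ (u1 : Fin m) (u2 : Fin (m ^ (a + 1))),
        Fin.cast hmul (finProdFinEquiv (u1, u2)) = u := by
      intro u
      refine ⟨(finProdFinEquiv.symm (Fin.cast hmul.symm u)).1,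
        (finProdFinEquiv.symm (Fin.cast hmul.symm u)).2, ?_⟩
      rw [Prod.mk.eta, Equiv.apply_symm_apply]
      rfl
    cases e
    · constructor
      · intro h u1 u2
        exact h (Fin.cast hmul (finProdFinEquiv (u1, u2)))
      · intro h u
        obtain ⟨u1, u2, rfl⟩ := hsurj u
        exact h u1 u2
    · constructor
      · rintro ⟨u, hu⟩
        obtain ⟨u1, u2, rfl⟩ := hsurj u
        exact ⟨u1, u2, hu⟩
      · rintro ⟨u1, u2, hu⟩
        exact ⟨Fin.cast hmul (finProdFinEquiv (u1, u2)), hu⟩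

theorem emb_zero {m M : ℕ} (hm : 1 ≤ m) (D : ℕ) : ∀ (e e' : Bool),
    Emb e D m (Fin 0 → Fin M) (Alt e' 0) := by
  induction D with
  | zero =>
    intro e e'
    refine ⟨fun _ => Sum.inr (fun i => i.elim0), fun R => ?_⟩
    cases e <;> cases e' <;> exact Iff.rfl
  | succ D ih =>
    intro e e'
    exact (ih (!e) e').skip hm

theorem emb_aligned {m : ℕ} (hm : 1 ≤ m) (a D : ℕ) (k : ℕ) : ∀ (e : Bool),
    Emb e (D + k * (2 * a + 1)) m (Fin k → Fin (m ^ (a + 1))) (Alt e k) := by
  induction k with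
  | zero =>
    intro e
    rw [zero_mul, add_zero]
    exact emb_zero hm D e e
  | succ k ih =>
    intro e
    have h1 := (ih (!e)).group (e := e) hm a
    have e1 : D + (k + 1) * (2 * a + 1) = D + k * (2 * a + 1) + (2 * a + 1) := by ring
    rw [e1]
    refine h1.congr (fun p => Fin.cons p.1 p.2) (fun R => ?_)
    rw [alt_succ]

/-- Towers with `k` quantifiers over `m ^ (a + 1)` values are restrictions of those with
`D > k * (2 * a + 1)` quantifiers over `m` values. -/
theorem emb_main {m : ℕ} (hm : 1 ≤ m) {a D k : ℕ} (hD : k * (2 * a + 1) < D) (e e' : Bool) :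
    Emb e D m (Fin k → Fin (m ^ (a + 1))) (Alt e' k) := by
  by_cases he : e = e'
  · subst he
    obtain ⟨D', rfl⟩ : ∃ D', D = D' + k * (2 * a + 1) := ⟨D - k * (2 * a + 1), by omega⟩
    exact emb_aligned hm a D' k e
  · have he' : e' = !e := by
      revert he
      cases e <;> cases e' <;> simp
    subst he'
    obtain ⟨D', rfl⟩ : ∃ D', D = D' + k * (2 * a + 1) + 1 := ⟨D - k * (2 * a + 1) - 1, by omega⟩
    exact (emb_aligned hm a D' k (!e)).skip hm

theorem hasClique_const {v k : ℕ} (hk : 2 ≤ k) (hkv : k ≤ v) (b : Bool) :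
    HasClique v k (fun _ => b) ↔ b = true := by
  constructor
  · rintro ⟨S, hS, hcl⟩
    have h1 : 1 < S.card := by omega
    obtain ⟨a, ha, b', hb', hne⟩ := one_lt_card.mp h1
    rcases lt_or_gt_of_ne hne with h | h
    · exact hcl a ha b' hb' h
    · exact hcl b' hb' a ha h
  · intro hb
    obtain ⟨S, hS⟩ : ∃ S : Finset (Fin v), S.card = k := by
      obtain ⟨S, _, hS⟩ := exists_subset_card_eq (s := (univ : Finset (Fin v))) (n := k)
        (by rw [card_univ, Fintype.card_fin]; exact hkv)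
      exact ⟨S, hS⟩
    exact ⟨S, hS, fun _ _ _ _ _ => hb⟩

theorem noIndep_const {v k : ℕ} (hk : 2 ≤ k) (hkv : k ≤ v) (b : Bool) :
    NoIndep v k (fun _ => b) ↔ b = true := by
  rw [noIndep_iff, hasClique_const hk hkv]
  simp

/-- Restrictions of towers. -/
theorem tower_proj {e e' : Bool} {D m k M v c : ℕ} (hc : 2 ≤ c) (hcv : c ≤ v)
    (hl : lastQ e D = lastQ e' k) (h : Emb e D m (Fin k → Fin M) (Alt e' k)) :
    ∃ φ : ((Fin k → Fin M) × Fin v × Fin v → Bool) → ((Fin D → Fin m) × Fin v × Fin v → Bool),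
      (∀ b ∈ VB ((Fin D → Fin m) × Fin v × Fin v), b ∘ φ ∈ VB ((Fin k → Fin M) × Fin v × Fin v)) ∧
      ∀ y, Tower e D m v c (φ y) ↔ Tower e' k M v c y := by
  obtain ⟨τ, hτ⟩ := h
  refine ⟨fun y p => Sum.elim (fun b => b) (fun j => y (j, p.2)) (τ p.1), ?_, ?_⟩
  · rintro b (⟨b, rfl⟩ | ⟨⟨i, u, v⟩, rfl⟩)
    · exact Or.inl ⟨b, rfl⟩
    · rcases hi : τ i with b | j
      · refine Or.inl ⟨b, ?_⟩
        funext y
        simp only [Function.comp, hi, Sum.elim_inl]
      · refine Or.inr ⟨(j, u, v), ?_⟩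
        funext y
        simp only [Function.comp, hi, Sum.elim_inr]
  · intro y
    unfold Tower
    rw [hl]
    cases lastQ e' k
    · rw [← hτ]
      apply Alt.congr
      intro i
      rcases hi : τ i with b | j
      · simp only [hi, Sum.elim_inl]
        exact noIndep_const hc hcv b
      · simp only [hi, Sum.elim_inr]
    · rw [← hτ]
      apply Alt.congr
      intro i
      rcases hi : τ i with b | j
      · simp only [hi, Sum.elim_inl]
        exact hasClique_const hc hcv b
      · simp only [hi, Sum.elim_inr]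

/-- **Many alternations are not few alternations.** -/
theorem many_vs_few {e e' : Bool} {D m k a r G s : ℕ} (hr : 2 ≤ r) (hm : 1 ≤ m)
    (hD : (k + 1) * (2 * a + 1) < D) (hG : 21 * (G + 3) ≤ m ^ (a + 1)) (hs : s < 2 ^ r) :
    ¬ BPAltMono e' k G s (Tower e D m (200 * r ^ 8) (r ^ 2)) := by
  intro h
  -- the first quantifier of the embedded tower
  obtain ⟨e1, he1⟩ : ∃ e1, lastQ e1 (k + 1) = lastQ e D := by
    by_cases h1 : lastQ true (k + 1) = lastQ e D
    · exact ⟨true, h1⟩
    · refine ⟨false, ?_⟩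
      have : lastQ false (k + 1) = !lastQ true (k + 1) := lastQ_not true (k + 1)
      rw [this]
      revert h1
      cases lastQ true (k + 1) <;> cases lastQ e D <;> simp
  have hc : 2 ≤ r ^ 2 := by nlinarith
  have hcv : r ^ 2 ≤ 200 * r ^ 8 := by
    calc r ^ 2 ≤ r ^ 8 := Nat.pow_le_pow_right (by omega) (by omega)
      _ ≤ 200 * r ^ 8 := by omega
  obtain ⟨φ, hφ1, hφ2⟩ := tower_proj (v := 200 * r ^ 8) (c := r ^ 2) hc hcv he1.symm
    (emb_main hm hD e e1)
  have h1 := bpAltMono_proj h φ hφ1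
  have h2 : BPAltMono e' k G s
      (Tower e1 (k + 1) (m ^ (a + 1)) (200 * r ^ 8) (r ^ 2)) := by
    obtain ⟨R, f, hf, hF1, hF2⟩ := h1
    exact ⟨R, f, hf, fun x hx => hF1 x ((hφ2 x).mpr hx),
      fun x hx => hF2 x (fun h => hx ((hφ2 x).mp h))⟩
  exact bp_lower (by omega) hr hG hs e1 (bpAltMono_succ h2 (!e1))

end Pool.Agent.H611R2
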